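import Mathlib
set_option autoImplicit false
open Finset

namespace H239Schein

/-- number of elements satisfying `P` -/
noncomputable def cnt {α : Type*} [Fintype α] (P : α → Prop) : ℕ :=
  (@Finset.filter α P (Classical.decPred P) univ).card

section
variable {α β : Type*} [Fintype α] [Fintype β]

lemma cnt_eq (P : α → Prop) [DecidablePred P] : cnt P = (univ.filter P).card := by
  unfold cnt
  congr!

lemma cnt_mono {P Q : α → Prop} (h : ∀ a, P a → Q a) : cnt P ≤ cnt Q := by
  classical
  rw [cnt_eq, cnt_eq]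
  refine card_le_card ?_
  intro a ha
  simp only [mem_filter, mem_univ, true_and] at ha ⊢
  exact h a ha

lemma cnt_le_card (P : α → Prop) : cnt P ≤ Fintype.card α := by
  classical
  rw [cnt_eq]; exact (card_filter_le _ _)

lemma cnt_true : cnt (fun _ : α => True) = Fintype.card α := by
  classical
  rw [cnt_eq]; simp

lemma cnt_or_le (P Q : α → Prop) : cnt (fun a => P a ∨ Q a) ≤ cnt P + cnt Q := by
  classical
  rw [cnt_eq, cnt_eq, cnt_eq]
  rw [filter_or]
  exact card_union_le _ _

lemma cnt_or_eq (P Q : α → Prop) : cnt (fun a => P a ∨ Q a) + cnt (fun a => P a ∧ Q a) =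
    cnt P + cnt Q := by
  classical
  rw [cnt_eq, cnt_eq, cnt_eq, cnt_eq]
  rw [filter_or, filter_and]
  exact card_union_add_card_inter _ _

lemma cnt_exists_le {ι : Type*} (s : Finset ι) (P : ι → α → Prop) :
    cnt (fun a => ∃ i ∈ s, P i a) ≤ ∑ i ∈ s, cnt (P i) := by
  classical
  simp_rw [cnt_eq]
  refine le_trans (card_le_card ?_) card_biUnion_le
  intro a ha
  simp only [mem_filter, mem_univ, true_and, mem_biUnion] at ha ⊢
  exact ha

lemma cnt_congr {P Q : α → Prop} (h : ∀ a, P a ↔ Q a) : cnt P = cnt Q :=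
  le_antisymm (cnt_mono fun a => (h a).1) (cnt_mono fun a => (h a).2)

lemma cnt_inj {P : α → Prop} {Q : β → Prop} (f : α → β) (h : ∀ a, P a → Q (f a))
    (hf : ∀ a b, P a → P b → f a = f b → a = b) : cnt P ≤ cnt Q := by
  classical
  rw [cnt_eq, cnt_eq]
  refine card_le_card_of_injOn f ?_ ?_
  · intro a ha
    simp only [coe_filter, mem_univ, true_and, Set.mem_ofPred_eq] at ha ⊢
    exact h a ha
  · intro a ha b hb hab
    simp only [coe_filter, mem_univ, true_and, Set.mem_ofPred_eq] at ha hb
    exact hf a b ha hb hab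

lemma cnt_equiv (e : α ≃ β) (P : β → Prop) : cnt (fun a => P (e a)) = cnt P := by
  refine le_antisymm (cnt_inj e (fun a h => h) (fun a b _ _ h => e.injective h)) ?_
  refine cnt_inj e.symm (fun b h => ?_) (fun a b _ _ h => e.symm.injective h)
  simpa using h

lemma cnt_eq_natCard (P : α → Prop) : cnt P = Nat.card {a // P a} := by
  classical
  rw [cnt_eq, Nat.card_eq_fintype_card, Fintype.card_subtype]

lemma cnt_prod (P : α → Prop) (Q : β → Prop) :
    cnt (fun x : α × β => P x.1 ∧ Q x.2) = cnt P * cnt Q := by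
  classical
  rw [cnt_eq, cnt_eq, cnt_eq, ← card_product]
  congr 1
  ext x
  simp

lemma cnt_prod_sum (P : α → β → Prop) :
    cnt (fun x : α × β => P x.1 x.2) = ∑ a, cnt (P a) := by
  classical
  simp_rw [cnt_eq]
  rw [← card_sigma]
  refine card_bij (fun x _ => ⟨x.1, x.2⟩) ?_ ?_ ?_
  · intro x hx; simpa using hx
  · intro x _ y _ h
    simp only [Sigma.mk.injEq] at h
    exact Prod.ext h.1 (eq_of_heq h.2)
  · rintro ⟨a, b⟩ h
    exact ⟨(a, b), by simpa using h, rfl⟩

end
end H239Schein
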