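import Mathlib
import Pool.Agent.H239R2.Cnt
set_option autoImplicit false
open Finset

namespace H239Schein

section
variable {C : Type*} [Fintype C] [DecidableEq C]

/-- support of a Boolean row -/
def supp (r : C → Bool) : Finset C := univ.filter (fun c => r c = true)

omit [DecidableEq C] in
@[simp] lemma mem_supp (r : C → Bool) (c : C) : c ∈ supp r ↔ r c = true := by simp [supp]

omit [DecidableEq C] in
lemma supp_injective : Function.Injective (supp : (C → Bool) → Finset C) := by
  intro r s h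
  funext c
  have : c ∈ supp r ↔ c ∈ supp s := by rw [h]
  simp only [mem_supp] at this
  exact Bool.eq_iff_iff.2 this

lemma supp_surjective : Function.Surjective (supp : (C → Bool) → Finset C) := by
  intro N
  refine ⟨fun c => decide (c ∈ N), ?_⟩
  ext c; simp

/-- Boolean rows and subsets -/
noncomputable def suppEquiv : (C → Bool) ≃ Finset C :=
  Equiv.ofBijective supp ⟨supp_injective, supp_surjective⟩

lemma card_supp (P : Finset C → Prop) :
    cnt (fun r : C → Bool => P (supp r)) = cnt P :=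
  cnt_equiv suppEquiv P

omit [DecidableEq C] in
lemma sum_prod_weights (y : C → ℝ) :
    ∑ N : Finset C, ∏ c ∈ N, y c = ∏ c, (1 + y c) := by
  rw [Finset.prod_one_add, Finset.powerset_univ]

lemma sum_inter_weight (W : Finset C) (x : ℝ) :
    ∑ N : Finset C, x ^ (N ∩ W).card = (1 + x) ^ W.card * 2 ^ (Fintype.card C - W.card) := by
  have h1 : ∀ N : Finset C, x ^ (N ∩ W).card = ∏ c ∈ N, (if c ∈ W then x else 1) := by
    intro N
    rw [← Finset.prod_filter, Finset.prod_const]
    congr 2
  simp_rw [h1]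
  rw [sum_prod_weights]
  have h2 : ∀ c, (1 + if c ∈ W then x else 1) = if c ∈ W then 1 + x else 2 := by
    intro c; split_ifs <;> norm_num
  simp_rw [h2]
  rw [Finset.prod_ite, Finset.prod_const, Finset.prod_const]
  congr 2
  · congr 1; ext; simp
  · rw [show (univ.filter (fun c => c ∉ W)) = Wᶜ by ext; simp, card_compl]

/-- lower tail -/
lemma lower_tail (κ x : ℝ) (hx0 : 0 < x) (hx1 : x ≤ 1) :
    (cnt (fun N : Finset C => (N.card : ℝ) ≤ κ * Fintype.card C) : ℝ) ≤
      ((1 + x) / x ^ κ) ^ Fintype.card C := by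
  classical
  rw [cnt_eq]
  set n := Fintype.card C with hn
  have h1 : ∑ N : Finset C, x ^ N.card = (1 + x) ^ n := by
    have := sum_inter_weight (univ : Finset C) x
    simp only [inter_univ, card_univ, ← hn, Nat.sub_self, pow_zero, mul_one] at this
    exact this
  have h2 : ∀ N ∈ univ.filter (fun N : Finset C => (N.card : ℝ) ≤ κ * n),
      x ^ (κ * n) ≤ x ^ N.card := by
    intro N hN
    simp only [mem_filter, mem_univ, true_and] at hN
    rw [← Real.rpow_natCast]
    exact Real.rpow_le_rpow_of_exponent_ge hx0 hx1 hN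
  have h3 : ((univ.filter (fun N : Finset C => (N.card : ℝ) ≤ κ * n)).card : ℝ) * x ^ (κ * n) ≤
      (1 + x) ^ n := by
    rw [← h1, ← nsmul_eq_mul, ← Finset.sum_const]
    exact (Finset.sum_le_sum h2).trans
      (Finset.sum_le_sum_of_subset_of_nonneg (filter_subset _ _) (fun _ _ _ => by positivity))
  rw [div_pow, le_div_iff₀ (by positivity)]
  rwa [← Real.rpow_natCast (x ^ κ), ← Real.rpow_mul hx0.le]

/-- upper tail of the intersection with a set of size at most `α n` -/
lemma upper_tail (α κ x : ℝ) (hx1 : 1 ≤ x) (W : Finset C)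
    (hW : (W.card : ℝ) ≤ α * Fintype.card C) :
    (cnt (fun N : Finset C => κ * Fintype.card C < ((N ∩ W).card : ℝ)) : ℝ) ≤
      (2 * (((1 + x) / 2) ^ α / x ^ κ)) ^ Fintype.card C := by
  rw [cnt_eq]
  set n := Fintype.card C with hn
  have hx0 : 0 < x := by linarith
  have h1 := sum_inter_weight W x
  have h2 : ∀ N ∈ univ.filter (fun N : Finset C => κ * n < ((N ∩ W).card : ℝ)),
      x ^ (κ * n) ≤ x ^ (N ∩ W).card := by
    intro N hN
    simp only [mem_filter, mem_univ, true_and] at hN
    rw [← Real.rpow_natCast]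
    exact Real.rpow_le_rpow_of_exponent_le hx1 hN.le
  have hWn : W.card ≤ n := card_le_univ W
  have h4 : (1 + x) ^ W.card * 2 ^ (n - W.card) ≤ 2 ^ n * ((1 + x) / 2) ^ (α * n) := by
    have h5 : (1 + x) ^ W.card * 2 ^ (n - W.card) = 2 ^ n * ((1 + x) / 2) ^ W.card := by
      rw [div_pow]
      have : (2:ℝ) ^ n = 2 ^ (n - W.card) * 2 ^ W.card := by
        rw [← pow_add]; congr 1; omega
      rw [this]; field_simp
    rw [h5]
    refine mul_le_mul_of_nonneg_left ?_ (by positivity)
    rw [← Real.rpow_natCast]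
    exact Real.rpow_le_rpow_of_exponent_le (by linarith) hW
  have h3 : ((univ.filter (fun N : Finset C => κ * n < ((N ∩ W).card : ℝ))).card : ℝ) *
      x ^ (κ * n) ≤ 2 ^ n * ((1 + x) / 2) ^ (α * n) := by
    refine le_trans ?_ h4
    rw [← hn] at h1
    rw [← h1, ← nsmul_eq_mul, ← Finset.sum_const]
    exact (Finset.sum_le_sum h2).trans
      (Finset.sum_le_sum_of_subset_of_nonneg (filter_subset _ _) (fun _ _ _ => by positivity))
  rw [mul_pow, div_pow, mul_div_assoc', le_div_iff₀ (by positivity)]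
  rwa [← Real.rpow_natCast (x ^ κ), ← Real.rpow_mul hx0.le,
    ← Real.rpow_natCast (((1 + x) / 2) ^ α), ← Real.rpow_mul (by positivity)]

end

/-- existence of a good rate for the lower tail -/
lemma exists_lower_rate (κ : ℝ) (hκ0 : 0 ≤ κ) (hκ : κ < 1 / 2) :
    ∃ x : ℝ, 0 < x ∧ x ≤ 1 ∧ (1 + x) / x ^ κ < 2 := by
  set d := 1 / 2 - κ with hd
  have hd0 : 0 < d := by linarith
  set e : ℝ := min (1/2) d with he
  have he0 : 0 < e := lt_min (by norm_num) hd0
  have he1 : e ≤ 1/2 := min_le_left _ _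
  have he2 : e ≤ d := min_le_right _ _
  refine ⟨1 - e, by linarith, by linarith, ?_⟩
  have hx : 0 < 1 - e := by linarith
  rw [div_lt_iff₀ (by positivity)]
  -- (1-e)^κ ≥ 1 - κ (e + 2 e^2)
  have h1 : -e - 2 * e ^ 2 ≤ Real.log (1 - e) := by
    have h2 : 1 - (1 - e)⁻¹ ≤ Real.log (1 - e) := Real.one_sub_inv_le_log_of_pos hx
    have h3 : -e - 2 * e ^ 2 ≤ 1 - (1 - e)⁻¹ := by
      have : (1 - e)⁻¹ ≤ 1 + e + 2 * e ^ 2 := by
        rw [inv_le_iff_one_le_mul₀ hx]
        nlinarith [mul_nonneg he0.le he0.le, mul_nonneg he0.le (mul_nonneg he0.le he0.le)]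
      linarith
    linarith
  have h4 : 1 + κ * (-e - 2 * e ^ 2) ≤ (1 - e) ^ κ := by
    rw [Real.rpow_def_of_pos hx]
    have := Real.add_one_le_exp (Real.log (1 - e) * κ)
    nlinarith
  nlinarith [mul_pos he0 he0, mul_pos he0 hd0]

/-- existence of a good rate for the upper tail -/
lemma exists_upper_rate (α κ : ℝ) (hα0 : 0 ≤ α) (h : α / 2 < κ) :
    ∃ x : ℝ, 1 ≤ x ∧ ((1 + x) / 2) ^ α / x ^ κ < 1 := by
  have hκ : 0 < κ := by linarith
  set d := κ - α / 2 with hd
  have hd0 : 0 < d := by linarith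
  -- x = 1 + e, with κ e / 2 < d
  set e : ℝ := d / κ with he
  have he0 : 0 < e := by positivity
  refine ⟨1 + e, by linarith, ?_⟩
  rw [div_lt_one (by positivity)]
  have h1 : ((1 + (1 + e)) / 2) ^ α = Real.exp (Real.log (1 + e / 2) * α) := by
    rw [← Real.rpow_def_of_pos (by positivity)]; congr 1; ring
  have h2 : (1 + e) ^ κ = Real.exp (Real.log (1 + e) * κ) := by
    rw [← Real.rpow_def_of_pos (by positivity)]
  rw [h1, h2, Real.exp_lt_exp]
  have h3 : Real.log (1 + e / 2) ≤ e / 2 := by
    have := Real.log_le_sub_one_of_pos (show 0 < 1 + e / 2 by positivity)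
    linarith
  have h4 : e / (1 + e) ≤ Real.log (1 + e) := by
    have := Real.one_sub_inv_le_log_of_pos (show 0 < 1 + e by positivity)
    have h5 : 1 - (1 + e)⁻¹ = e / (1 + e) := by field_simp; ring
    linarith
  have h6 : Real.log (1 + e / 2) * α ≤ e / 2 * α := mul_le_mul_of_nonneg_right h3 hα0
  have h7 : e / (1 + e) * κ ≤ Real.log (1 + e) * κ := mul_le_mul_of_nonneg_right h4 hκ.le
  have h9 : κ * e = d := by rw [he]; field_simp
  have h10 : α * e < 2 * d := by
    have : α * e ≤ (2 * κ) * e := mul_le_mul_of_nonneg_right (by linarith) he0.le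
    rcases eq_or_lt_of_le hα0 with h0 | h0
    · rw [← h0]; linarith
    · have : α * e < (2 * κ) * e := mul_lt_mul_of_pos_right (by linarith) he0
      linarith
  have h8 : e * α / 2 < e * κ / (1 + e) := by
    rw [div_lt_div_iff₀ (by norm_num) (by positivity)]
    have h11 : α * (1 + e) < 2 * κ := by rw [hd] at h10; linarith
    nlinarith
  have h12 : e / 2 * α = e * α / 2 := by ring
  have h13 : e / (1 + e) * κ = e * κ / (1 + e) := by ring
  linarith

end H239Schein
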