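import Mathlib
import Pool.Agent.H239R2.Tails
set_option autoImplicit false
open Finset

namespace H239Schein

lemma six_le {a b : ℕ} (ha : 6 ≤ a) (hb : 6 ≤ b) : 6 * (a + b) ≤ a * b + 36 := by
  obtain ⟨x, rfl⟩ := Nat.exists_eq_add_of_le ha
  obtain ⟨y, rfl⟩ := Nat.exists_eq_add_of_le hb
  nlinarith [Nat.zero_le (x * y)]

lemma choose_le_pow_of_le {n a D : ℕ} (hn : 1 ≤ n) (h : a ≤ D) : n.choose a ≤ n ^ D :=
  (Nat.choose_le_pow n a).trans (Nat.pow_le_pow_right hn h)

lemma choose_le_pow_of_sub {n a D : ℕ} (hn : 1 ≤ n) (ha : a ≤ n) (h : n - a ≤ D) :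
    n.choose a ≤ n ^ D := by
  rw [← Nat.choose_symm ha]
  exact choose_le_pow_of_le hn h

lemma comb1 (D n a b r : ℕ) (hn : 2 * D + 50 ≤ n) (h : a + b + r + 1 = n) (hr : r < D) :
    n.choose a * n.choose b ≤ 2 ^ (a * b) * n ^ (D + 13) := by
  have hn1 : 1 ≤ n := by omega
  by_cases ha : 6 ≤ a
  · by_cases hb : 6 ≤ b
    · have h1 := six_le ha hb
      have h2 : 2 * n ≤ a * b := by omega
      calc n.choose a * n.choose b ≤ 2 ^ n * 2 ^ n :=
            Nat.mul_le_mul (Nat.choose_le_two_pow n a) (Nat.choose_le_two_pow n b)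
        _ = 2 ^ (2 * n) := by rw [← pow_add]; congr 1; omega
        _ ≤ 2 ^ (a * b) := Nat.pow_le_pow_right (by norm_num) h2
        _ ≤ 2 ^ (a * b) * n ^ (D + 13) := Nat.le_mul_of_pos_right _ (by positivity)
    · calc n.choose a * n.choose b ≤ n ^ (D + 7) * n ^ 6 :=
            Nat.mul_le_mul (choose_le_pow_of_sub hn1 (by omega) (by omega))
              (choose_le_pow_of_le hn1 (by omega))
        _ = n ^ (D + 13) := by rw [← pow_add]
        _ ≤ 2 ^ (a * b) * n ^ (D + 13) := Nat.le_mul_of_pos_left _ (by positivity)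
  · calc n.choose a * n.choose b ≤ n ^ 6 * n ^ (D + 7) :=
            Nat.mul_le_mul (choose_le_pow_of_le hn1 (by omega))
              (choose_le_pow_of_sub hn1 (by omega) (by omega))
        _ = n ^ (D + 13) := by rw [← pow_add]; congr 1; omega
        _ ≤ 2 ^ (a * b) * n ^ (D + 13) := Nat.le_mul_of_pos_left _ (by positivity)

lemma comb2 (D m a b r : ℕ) (hn : 2 * D + 80 ≤ m) (h : a + b + r = m) (hr : r < D) (hb1 : 1 ≤ b) :
    m.choose a * (m + 1).choose b * 2 ^ (m + 1) ≤
      2 ^ (b * (a + 1)) * ((m + 1) ^ (D + 13) * 2 ^ (D + 7)) := by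
  have hn1 : 1 ≤ m := by omega
  by_cases ha : 6 ≤ a
  · by_cases hb : 6 ≤ b
    · have h1 := six_le ha hb
      have h2 : 3 * (m + 1) ≤ b * (a + 1) := by
        have : b * (a + 1) = a * b + b := by ring
        omega
      calc m.choose a * (m + 1).choose b * 2 ^ (m + 1) ≤ 2 ^ (m + 1) * 2 ^ (m + 1) * 2 ^ (m + 1) := by
            refine Nat.mul_le_mul_right _ (Nat.mul_le_mul ?_ (Nat.choose_le_two_pow _ b))
            exact (Nat.choose_le_two_pow m a).trans (Nat.pow_le_pow_right (by norm_num) (by omega))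
        _ = 2 ^ (3 * (m + 1)) := by rw [← pow_add, ← pow_add]; congr 1; omega
        _ ≤ 2 ^ (b * (a + 1)) := Nat.pow_le_pow_right (by norm_num) h2
        _ ≤ _ := Nat.le_mul_of_pos_right _ (by positivity)
    · have h3 : m + 1 ≤ b * (a + 1) + (D + 7) := by
        have : 1 * (a + 1) ≤ b * (a + 1) := Nat.mul_le_mul_right _ hb1
        omega
      calc m.choose a * (m + 1).choose b * 2 ^ (m + 1) ≤
            m ^ (D + 7) * (m + 1) ^ 6 * 2 ^ (b * (a + 1) + (D + 7)) := by
            refine Nat.mul_le_mul (Nat.mul_le_mul (choose_le_pow_of_sub hn1 (by omega) (by omega))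
              (choose_le_pow_of_le (by omega) (by omega))) (Nat.pow_le_pow_right (by norm_num) h3)
        _ ≤ (m + 1) ^ (D + 7) * (m + 1) ^ 6 * 2 ^ (b * (a + 1) + (D + 7)) := by
            refine Nat.mul_le_mul_right _ (Nat.mul_le_mul_right _ (Nat.pow_le_pow_left (by omega) _))
        _ = _ := by
            rw [pow_add 2 (b * (a + 1)) (D + 7), ← pow_add]; ring
  · have h3 : m + 1 ≤ b * (a + 1) + (D + 7) := by
      have : b * 1 ≤ b * (a + 1) := Nat.mul_le_mul_left _ (by omega)
      omega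
    calc m.choose a * (m + 1).choose b * 2 ^ (m + 1) ≤
            m ^ 6 * (m + 1) ^ (D + 7) * 2 ^ (b * (a + 1) + (D + 7)) := by
            refine Nat.mul_le_mul (Nat.mul_le_mul (choose_le_pow_of_le hn1 (by omega))
              (choose_le_pow_of_sub (by omega) (by omega) (by omega)))
              (Nat.pow_le_pow_right (by norm_num) h3)
        _ ≤ (m + 1) ^ 6 * (m + 1) ^ (D + 7) * 2 ^ (b * (a + 1) + (D + 7)) := by
            refine Nat.mul_le_mul_right _ (Nat.mul_le_mul_right _ (Nat.pow_le_pow_left (by omega) _))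
        _ = _ := by
            rw [pow_add 2 (b * (a + 1)) (D + 7), ← pow_add]; ring

/-- few small sets -/
lemma cnt_small_sets (m K : ℕ) : cnt (fun U : Finset (Fin m) => U.card ≤ K) ≤ (m + 1) ^ K := by
  classical
  have h1 : (m + 1) ^ K = (univ : Finset (Fin K → Option (Fin m))).card := by
    rw [card_univ, Fintype.card_fun, Fintype.card_option, Fintype.card_fin, Fintype.card_fin]
  rw [h1, cnt_eq]
  refine card_le_card_of_surjOn
    (fun g : Fin K → Option (Fin m) => univ.filter (fun i => ∃ l, g l = some i)) ?_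
  intro U hU
  simp only [coe_filter, mem_univ, true_and, Set.mem_ofPred_eq] at hU
  refine ⟨fun l => U.toList[(l : ℕ)]?, by simp, ?_⟩
  ext i
  simp only [mem_filter, mem_univ, true_and]
  constructor
  · rintro ⟨l, hl⟩
    exact mem_toList.1 (List.mem_of_getElem? hl)
  · intro hi
    obtain ⟨l, hl, h⟩ := List.getElem_of_mem (mem_toList.2 hi)
    have hl' : l < K := by rw [length_toList] at hl; omega
    exact ⟨⟨l, hl'⟩, by simp only; rw [List.getElem?_eq_getElem hl, h]⟩

end H239Schein
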