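import Mathlib
import Pool.Agent.H239R2.Cnt
set_option autoImplicit false
open Finset

namespace H239Schein

section
variable {R C : Type*} [Fintype R] [DecidableEq R] [Fintype C] [DecidableEq C]

/-- row support -/
def row (A : R → C → Bool) (i : R) : Finset C := univ.filter (fun c => A i c = true)

/-- transpose -/
def tr (A : R → C → Bool) : C → R → Bool := fun c i => A i c

omit [Fintype R] [DecidableEq R] [DecidableEq C] in
@[simp] lemma mem_row (A : R → C → Bool) (i : R) (c : C) : c ∈ row A i ↔ A i c = true := by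
  simp [row]

omit [Fintype R] [DecidableEq R] [Fintype C] [DecidableEq C] in
@[simp] lemma tr_tr (A : R → C → Bool) : tr (tr A) = A := rfl

omit [Fintype R] [DecidableEq R] [Fintype C] [DecidableEq C] in
@[simp] lemma tr_apply (A : R → C → Bool) (i : R) (c : C) : tr A c i = A i c := rfl

/-- transposition as an equivalence -/
def trEquiv (R C : Type*) : (R → C → Bool) ≃ (C → R → Bool) where
  toFun := tr
  invFun := tr
  left_inv _ := rfl
  right_inv _ := rfl

/-- `A` is covered exactly by `k` combinatorial rectangles -/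
def Cov (A : R → C → Bool) (k : ℕ) : Prop :=
  ∃ (U : Fin k → Finset R) (V : Fin k → Finset C), ∀ i c, A i c = true ↔ ∃ l, i ∈ U l ∧ c ∈ V l

/-- the ones of `A` in `T × S` -/
def pat (A : R → C → Bool) (T : Finset R) (S : Finset C) : Finset (R × C) :=
  (T ×ˢ S).filter (fun x => A x.1 x.2 = true)

omit [Fintype R] [DecidableEq R] [Fintype C] [DecidableEq C] in
@[simp] lemma mem_pat (A : R → C → Bool) (T : Finset R) (S : Finset C) (x : R × C) :
    x ∈ pat A T S ↔ (x.1 ∈ T ∧ x.2 ∈ S) ∧ A x.1 x.2 = true := by
  simp [pat]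

lemma card_pat (T : Finset R) (S : Finset C) (P : Finset (R × C)) :
    cnt (fun A : R → C → Bool => pat A T S = P) * 2 ^ (T.card * S.card) ≤
      2 ^ (Fintype.card R * Fintype.card C) := by
  classical
  have h1 : cnt (fun A : R → C → Bool => pat A T S = P) ≤
      (((T ×ˢ S)ᶜ : Finset (R × C)).powerset).card := by
    rw [cnt_eq]
    refine Finset.card_le_card_of_injOn
      (fun A => (univ.filter (fun x : R × C => A x.1 x.2 = true)) \ (T ×ˢ S)) ?_ ?_
    · intro A _
      simp only [coe_powerset, Set.mem_preimage, Set.mem_powerset_iff, Finset.coe_subset]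
      intro x hx
      simp only [mem_sdiff] at hx
      exact mem_compl.2 hx.2
    · intro A hA B hB hAB
      simp only [coe_filter, mem_univ, true_and, Set.mem_ofPred_eq] at hA hB
      funext i c
      by_cases hx : (i, c) ∈ T ×ˢ S
      · have h2 : pat A T S = pat B T S := hA.trans hB.symm
        have h3 : (i, c) ∈ pat A T S ↔ (i, c) ∈ pat B T S := by rw [h2]
        simp only [mem_product] at hx
        simp only [mem_pat, hx, true_and] at h3
        have h4 : (A i c = true ↔ B i c = true) := by simpa using h3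
        exact Bool.eq_iff_iff.2 h4
      · have h3 : ((i, c) ∈ (univ.filter (fun x : R × C => A x.1 x.2 = true)) \ (T ×ˢ S)) ↔
          ((i, c) ∈ (univ.filter (fun x : R × C => B x.1 x.2 = true)) \ (T ×ˢ S)) := by
          have h5 : (univ.filter (fun x : R × C => A x.1 x.2 = true)) \ (T ×ˢ S) =
            (univ.filter (fun x : R × C => B x.1 x.2 = true)) \ (T ×ˢ S) := hAB
          rw [h5]
        have h4 : (A i c = true ↔ B i c = true) := by simpa [hx] using h3
        exact Bool.eq_iff_iff.2 h4
  rw [card_powerset, card_compl, card_product, Fintype.card_prod] at h1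
  have h2 : T.card * S.card ≤ Fintype.card R * Fintype.card C :=
    Nat.mul_le_mul (card_le_univ T) (card_le_univ S)
  calc _ ≤ 2 ^ (Fintype.card R * Fintype.card C - T.card * S.card) * 2 ^ (T.card * S.card) :=
        Nat.mul_le_mul_right _ h1
    _ = 2 ^ (Fintype.card R * Fintype.card C) := by
        rw [← pow_add]; congr 1; omega

lemma card_union_pat (T : Finset R) (S : Finset C) (Q : Finset (Finset (R × C)))
    (X : (R → C → Bool) → Prop)
    (hX : ∀ A, X A → ∃ P ∈ Q, pat A T S = P ∩ (T ×ˢ S)) :
    cnt X * 2 ^ (T.card * S.card) ≤ Q.card * 2 ^ (Fintype.card R * Fintype.card C) := by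
  classical
  have h1 : cnt X ≤ ∑ P ∈ Q, cnt (fun A : R → C → Bool => pat A T S = P ∩ (T ×ˢ S)) := by
    refine le_trans (cnt_mono ?_) (cnt_exists_le Q _)
    exact hX
  calc cnt X * 2 ^ (T.card * S.card)
      ≤ (∑ P ∈ Q, cnt (fun A : R → C → Bool => pat A T S = P ∩ (T ×ˢ S))) *
        2 ^ (T.card * S.card) :=
        Nat.mul_le_mul_right _ h1
    _ = ∑ P ∈ Q, cnt (fun A : R → C → Bool => pat A T S = P ∩ (T ×ˢ S)) *
        2 ^ (T.card * S.card) := by rw [sum_mul]
    _ ≤ ∑ P ∈ Q, 2 ^ (Fintype.card R * Fintype.card C) :=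
        sum_le_sum (fun P _ => card_pat T S _)
    _ = Q.card * 2 ^ (Fintype.card R * Fintype.card C) := by rw [sum_const, smul_eq_mul]

/-- number of matrices which are constant `b` on `U × V`. -/
lemma card_const (b : Bool) (U : Finset R) (V : Finset C) :
    cnt (fun A : R → C → Bool => ∀ i ∈ U, ∀ c ∈ V, A i c = b) *
      2 ^ (U.card * V.card) ≤ 2 ^ (Fintype.card R * Fintype.card C) := by
  classical
  cases b with
  | true =>
    refine le_trans ?_ (card_pat U V (U ×ˢ V))
    refine Nat.mul_le_mul_right _ (cnt_mono ?_)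
    intro A hA
    ext ⟨i, c⟩
    simp only [mem_pat, mem_product]
    constructor
    · rintro ⟨h, _⟩; exact h
    · rintro ⟨h1, h2⟩; exact ⟨⟨h1, h2⟩, hA i h1 c h2⟩
  | false =>
    refine le_trans ?_ (card_pat U V ∅)
    refine Nat.mul_le_mul_right _ (cnt_mono ?_)
    intro A hA
    ext ⟨i, c⟩
    simp only [mem_pat, notMem_empty, iff_false]
    rintro ⟨⟨h1, h2⟩, h3⟩
    have := hA i h1 c h2
    rw [this] at h3
    exact absurd h3 (by simp)

/-- matrices with a constant rectangle of area at least `w`. -/
def BigRect (b : Bool) (w : ℕ) (A : R → C → Bool) : Prop :=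
  ∃ U : Finset R, ∃ V : Finset C, w ≤ U.card * V.card ∧ ∀ i ∈ U, ∀ c ∈ V, A i c = b

lemma card_bigRect (b : Bool) (w : ℕ) :
    cnt (BigRect (R := R) (C := C) b w) * 2 ^ w ≤
      2 ^ (Fintype.card R + Fintype.card C) * 2 ^ (Fintype.card R * Fintype.card C) := by
  classical
  have h1 : cnt (BigRect (R := R) (C := C) b w) ≤
      ∑ x ∈ ((univ : Finset (Finset R × Finset C)).filter
      (fun x => w ≤ x.1.card * x.2.card)), cnt
      (fun A : R → C → Bool => ∀ i ∈ x.1, ∀ c ∈ x.2, A i c = b) := by
    refine le_trans (cnt_mono ?_) (cnt_exists_le _ _)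
    rintro A ⟨U, V, h, h'⟩
    exact ⟨(U, V), by simpa using h, h'⟩
  calc cnt (BigRect (R := R) (C := C) b w) * 2 ^ w
      ≤ (∑ x ∈ ((univ : Finset (Finset R × Finset C)).filter
          (fun x => w ≤ x.1.card * x.2.card)),
          cnt (fun A : R → C → Bool => ∀ i ∈ x.1, ∀ c ∈ x.2, A i c = b)) * 2 ^ w :=
        Nat.mul_le_mul_right _ h1
    _ = ∑ x ∈ ((univ : Finset (Finset R × Finset C)).filter
          (fun x => w ≤ x.1.card * x.2.card)),
          cnt (fun A : R → C → Bool => ∀ i ∈ x.1, ∀ c ∈ x.2, A i c = b) * 2 ^ w := by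
        rw [sum_mul]
    _ ≤ ∑ x ∈ ((univ : Finset (Finset R × Finset C)).filter
          (fun x => w ≤ x.1.card * x.2.card)), 2 ^ (Fintype.card R * Fintype.card C) := by
        refine sum_le_sum (fun x hx => ?_)
        simp only [mem_filter, mem_univ, true_and] at hx
        refine le_trans ?_ (card_const b x.1 x.2)
        exact Nat.mul_le_mul_left _ (Nat.pow_le_pow_right (by norm_num) hx)
    _ ≤ ∑ x : Finset R × Finset C, 2 ^ (Fintype.card R * Fintype.card C) :=
        sum_le_sum_of_subset (filter_subset _ _)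
    _ = 2 ^ (Fintype.card R + Fintype.card C) * 2 ^ (Fintype.card R * Fintype.card C) := by
        rw [sum_const, smul_eq_mul, card_univ, Fintype.card_prod, Fintype.card_finset,
          Fintype.card_finset, pow_add]

end

/-- Line lemma. -/
lemma line_bound {ι X : Type*} [Fintype ι] [DecidableEq ι] [Fintype X]
    (S S' : (ι → X) → Prop) (i : ι) (w : ℕ)
    (h1 : ∀ A, S A → ∀ x, S' (Function.update A i x))
    (h2 : ∀ A, S' A → cnt (fun y => S (Function.update A i y)) ≤ w) :
    cnt S * Fintype.card X ≤ w * cnt S' := by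
  classical
  rw [← cnt_true (α := X), ← cnt_prod, cnt_eq S']
  have h3 : cnt (fun p : (ι → X) × X => S p.1 ∧ True) ≤
      cnt (fun p : (ι → X) × X => S' p.1 ∧ S (Function.update p.1 i p.2)) := by
    refine cnt_inj (fun p => (Function.update p.1 i p.2, p.1 i)) ?_ ?_
    · rintro ⟨A, x⟩ ⟨h, -⟩
      refine ⟨h1 A h x, ?_⟩
      simp only [Function.update_idem, Function.update_eq_self]
      exact h
    · rintro ⟨A, x⟩ ⟨B, y⟩ _ _ h
      simp only [Prod.mk.injEq] at h
      obtain ⟨h4, h5⟩ := h
      have h6 : x = y := by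
        have := congrFun h4 i
        simpa using this
      have h7 : A = B := by
        funext j
        by_cases hj : j = i
        · subst hj; exact h5
        · have := congrFun h4 j
          simpa [hj] using this
      simp [h6, h7]
  refine h3.trans ?_
  have h4 := cnt_prod_sum (fun (A : ι → X) (y : X) => S' A ∧ S (Function.update A i y))
  rw [h4]
  rw [← Finset.sum_filter_add_sum_filter_not univ S']
  have h5 : ∑ x ∈ univ.filter (fun x => ¬ S' x), cnt (fun y => S' x ∧ S (Function.update x i y)) = 0 := by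
    refine Finset.sum_eq_zero (fun A hA => ?_)
    simp only [mem_filter, mem_univ, true_and] at hA
    rw [cnt_eq]
    simp [hA]
  rw [h5, add_zero]
  calc _ ≤ ∑ _A ∈ univ.filter S', w := by
        refine sum_le_sum (fun A hA => ?_)
        simp only [mem_filter, mem_univ, true_and] at hA
        exact le_trans (cnt_mono fun y h => h.2) (h2 A hA)
    _ = w * (univ.filter S').card := by rw [sum_const, smul_eq_mul, mul_comm]

end H239Schein
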