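import Mathlib
import Pool.Agent.H239R2.Basic
import Pool.Agent.H239R2.Tails
set_option autoImplicit false
open Finset

namespace H239Schein

lemma seq_bound {m : ℕ} {X : Type*} [Fintype X] (P : (Fin m → X) → Fin m → Prop)
    (hP : ∀ A B i, (∀ j ≤ i, A j = B j) → (P A i ↔ P B i)) (w : ℕ)
    (hw : ∀ A i, cnt (fun y => P (Function.update A i y) i) ≤ w)
    (I : Finset (Fin m)) :
    cnt (fun A : Fin m → X => ∀ i ∈ I, P A i) * Fintype.card X ^ I.card ≤
      w ^ I.card * Fintype.card X ^ m := by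
  induction I using Finset.induction_on_max with
  | empty =>
    have := cnt_le_card (fun A : Fin m → X => ∀ i ∈ (∅ : Finset (Fin m)), P A i)
    simpa using this
  | insert a I' ha ih =>
    have haI : a ∉ I' := fun h => lt_irrefl _ (ha a h)
    rw [card_insert_of_notMem haI]
    set S : (Fin m → X) → Prop := fun A => ∀ i ∈ insert a I', P A i with hS
    set S' : (Fin m → X) → Prop := fun A => ∀ i ∈ I', P A i with hS'
    have h1 : cnt S * Fintype.card X ≤ w * cnt S' := by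
      refine line_bound S S' a w ?_ ?_
      · intro A hA x i hi
        have h2 := hA i (mem_insert_of_mem hi)
        refine (hP A _ i ?_).1 h2
        intro j hj
        have : j ≠ a := by
          have := ha i hi
          exact ne_of_lt (lt_of_le_of_lt hj this)
        simp [this]
      · intro A _
        refine le_trans (cnt_mono ?_) (hw A a)
        intro y hy
        exact hy a (mem_insert_self _ _)
    calc cnt S * Fintype.card X ^ (I'.card + 1)
        = (cnt S * Fintype.card X) * Fintype.card X ^ I'.card := by ring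
      _ ≤ (w * cnt S') * Fintype.card X ^ I'.card := Nat.mul_le_mul_right _ h1
      _ = w * (cnt S' * Fintype.card X ^ I'.card) := by ring
      _ ≤ w * (w ^ I'.card * Fintype.card X ^ m) := Nat.mul_le_mul_left _ ih
      _ = w ^ (I'.card + 1) * Fintype.card X ^ m := by ring

lemma seq_bound' {m : ℕ} {X : Type*} [Fintype X] (P : (Fin m → X) → Fin m → Prop)
    (hP : ∀ A B i, (∀ j ≤ i, A j = B j) → (P A i ↔ P B i)) (w : ℕ)
    (hw : ∀ A i, cnt (fun y => P (Function.update A i y) i) ≤ w)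
    (m0 : ℕ) :
    cnt (fun A : Fin m → X => m0 ≤ cnt (P A)) *
      Fintype.card X ^ m0 ≤ m.choose m0 * (w ^ m0 * Fintype.card X ^ m) := by
  classical
  have h1 : cnt (fun A : Fin m → X => m0 ≤ cnt (P A)) ≤
      ∑ I ∈ powersetCard m0 (univ : Finset (Fin m)),
        cnt (fun A : Fin m → X => ∀ i ∈ I, P A i) := by
    refine le_trans (cnt_mono ?_) (cnt_exists_le _ _)
    intro A hA
    rw [cnt_eq] at hA
    obtain ⟨I, hI, hIc⟩ := exists_subset_card_eq hA
    refine ⟨I, mem_powersetCard.2 ⟨subset_univ _, hIc⟩, ?_⟩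
    intro i hi
    have := hI hi
    simpa using this
  calc _ ≤ (∑ I ∈ powersetCard m0 (univ : Finset (Fin m)),
        cnt (fun A : Fin m → X => ∀ i ∈ I, P A i)) * Fintype.card X ^ m0 :=
        Nat.mul_le_mul_right _ h1
    _ = ∑ I ∈ powersetCard m0 (univ : Finset (Fin m)),
        cnt (fun A : Fin m → X => ∀ i ∈ I, P A i) * Fintype.card X ^ m0 := by
        rw [sum_mul]
    _ ≤ ∑ I ∈ powersetCard m0 (univ : Finset (Fin m)), w ^ m0 * Fintype.card X ^ m := by
        refine sum_le_sum (fun I hI => ?_)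
        rw [mem_powersetCard] at hI
        have := seq_bound P hP w hw I
        rwa [hI.2] at this
    _ = m.choose m0 * (w ^ m0 * Fintype.card X ^ m) := by
        rw [sum_const, card_powersetCard, card_univ, Fintype.card_fin, smul_eq_mul]

/-- the row `i` meets another row in more than `κ n` columns -/
def BadRow (κ : ℝ) {m n : ℕ} (A : Fin m → Fin n → Bool) (i : Fin m) : Prop :=
  ∃ j, j ≠ i ∧ κ * n < ((supp (A i) ∩ supp (A j)).card : ℝ)

/-- no row has more than `α n` ones -/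
def NoHub (α : ℝ) {m n : ℕ} (A : Fin m → Fin n → Bool) : Prop :=
  ∀ j, ((supp (A j)).card : ℝ) ≤ α * n

/-- ordered version of a bad row -/
def BadLt (α κ : ℝ) {m n : ℕ} (A : Fin m → Fin n → Bool) (i : Fin m) : Prop :=
  ∃ j, j < i ∧ ((supp (A j)).card : ℝ) ≤ α * n ∧ κ * n < ((supp (A i) ∩ supp (A j)).card : ℝ)

/-- ordered version of a bad row -/
def BadGt (α κ : ℝ) {m n : ℕ} (A : Fin m → Fin n → Bool) (i : Fin m) : Prop :=
  ∃ j, i < j ∧ ((supp (A j)).card : ℝ) ≤ α * n ∧ κ * n < ((supp (A i) ∩ supp (A j)).card : ℝ)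

lemma card_bad_lt (α κ x : ℝ) (hx1 : 1 ≤ x) (m n m0 : ℕ) :
    (cnt (fun A : Fin m → Fin n → Bool => m0 ≤ cnt (BadLt α κ A)) : ℝ)
      ≤ (m : ℝ) ^ (2 * m0) * (((1 + x) / 2) ^ α / x ^ κ) ^ (n * m0) * 2 ^ (n * m) := by
  set θ := ((1 + x) / 2) ^ α / x ^ κ with hθ
  have hx0 : 0 < x := by linarith
  have hθ0 : 0 < θ := by positivity
  set w : ℕ := ⌊(m : ℝ) * (2 * θ) ^ n⌋₊ with hw
  have hwr : (w : ℝ) ≤ (m : ℝ) * (2 * θ) ^ n := Nat.floor_le (by positivity)
  have h1 := seq_bound' (X := Fin n → Bool) (m := m) (fun A i => BadLt α κ A i) ?_ w ?_ m0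
  · have hX : Fintype.card (Fin n → Bool) = 2 ^ n := by simp
    rw [hX] at h1
    set N := cnt (fun A : Fin m → Fin n → Bool => m0 ≤ cnt (BadLt α κ A))
    have h2 : (N : ℝ) * (2 ^ n) ^ m0 ≤ (m.choose m0 : ℝ) * ((w : ℝ) ^ m0 * (2 ^ n) ^ m) := by
      exact_mod_cast h1
    have h3 : (m.choose m0 : ℝ) ≤ (m : ℝ) ^ m0 := by exact_mod_cast Nat.choose_le_pow m m0
    have h4 : (w : ℝ) ^ m0 ≤ ((m : ℝ) * (2 * θ) ^ n) ^ m0 :=
      pow_le_pow_left₀ (by positivity) hwr _
    have h5 : (N : ℝ) * (2 ^ n) ^ m0 ≤ (m : ℝ) ^ (2 * m0) * θ ^ (n * m0) * 2 ^ (n * m) * (2 ^ n) ^ m0 := by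
      calc (N : ℝ) * (2 ^ n) ^ m0 ≤ (m.choose m0 : ℝ) * ((w : ℝ) ^ m0 * (2 ^ n) ^ m) := h2
        _ ≤ (m : ℝ) ^ m0 * (((m : ℝ) * (2 * θ) ^ n) ^ m0 * (2 ^ n) ^ m) := by gcongr
        _ = _ := by
          rw [mul_pow, ← pow_mul, ← pow_mul, ← pow_mul, mul_pow]; ring
    exact le_of_mul_le_mul_right h5 (by positivity)
  · intro A B i hAB
    constructor
    · rintro ⟨j, hj, h⟩
      refine ⟨j, hj, ?_⟩
      rwa [← hAB j hj.le, ← hAB i le_rfl]
    · rintro ⟨j, hj, h⟩
      refine ⟨j, hj, ?_⟩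
      rwa [hAB j hj.le, hAB i le_rfl]
  · intro A i
    classical
    rw [hw]
    apply Nat.le_floor
    have h2 : cnt (fun y : Fin n → Bool => BadLt α κ (Function.update A i y) i) ≤
        ∑ j ∈ univ.filter (fun j : Fin m => ((supp (A j)).card : ℝ) ≤ α * n),
        cnt (fun y : Fin n → Bool => κ * n < ((supp y ∩ supp (A j)).card : ℝ)) := by
      refine le_trans (cnt_mono ?_) (cnt_exists_le _ _)
      rintro y ⟨j, hj, h, h'⟩
      have hji : j ≠ i := hj.ne
      simp only [Function.update_self, Function.update_of_ne hji] at h h'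
      exact ⟨j, by simpa using h, h'⟩
    have h3 : ∀ j ∈ univ.filter (fun j : Fin m => ((supp (A j)).card : ℝ) ≤ α * n),
        (cnt (fun y : Fin n → Bool => κ * n < ((supp y ∩ supp (A j)).card : ℝ)) : ℝ)
          ≤ (2 * θ) ^ n := by
      intro j hj
      simp only [mem_filter, mem_univ, true_and] at hj
      have h4 := upper_tail α κ x hx1 (supp (A j)) (by simpa using hj)
      rw [Fintype.card_fin] at h4
      rw [card_supp (fun N : Finset (Fin n) => κ * n < ((N ∩ supp (A j)).card : ℝ))]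
      exact h4
    calc (cnt (fun y : Fin n → Bool => BadLt α κ (Function.update A i y) i) : ℝ)
        ≤ ∑ j ∈ univ.filter (fun j : Fin m => ((supp (A j)).card : ℝ) ≤ α * n),
          (cnt (fun y : Fin n → Bool => κ * n < ((supp y ∩ supp (A j)).card : ℝ)) : ℝ) := by
          exact_mod_cast h2
      _ ≤ ∑ j ∈ univ.filter (fun j : Fin m => ((supp (A j)).card : ℝ) ≤ α * n), (2 * θ) ^ n :=
          sum_le_sum h3
      _ ≤ ∑ _j : Fin m, (2 * θ) ^ n :=
          sum_le_sum_of_subset_of_nonneg (filter_subset _ _) (fun _ _ _ => by positivity)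
      _ = (m : ℝ) * (2 * θ) ^ n := by simp

lemma card_bad_gt (α κ x : ℝ) (hx1 : 1 ≤ x) (m n m0 : ℕ) :
    (cnt (fun A : Fin m → Fin n → Bool => m0 ≤ cnt (BadGt α κ A)) : ℝ)
      ≤ (m : ℝ) ^ (2 * m0) * (((1 + x) / 2) ^ α / x ^ κ) ^ (n * m0) * 2 ^ (n * m) := by
  refine le_trans ?_ (card_bad_lt α κ x hx1 m n m0)
  norm_cast
  refine cnt_inj (fun A => A ∘ Fin.rev) ?_ ?_
  · intro A hA
    refine hA.trans ?_
    refine cnt_inj Fin.rev ?_ (fun a b _ _ h => Fin.rev_injective h)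
    rintro i ⟨j, hj, h⟩
    refine ⟨Fin.rev j, Fin.rev_lt_rev.2 hj, ?_⟩
    simpa using h
  · intro A B _ _ h
    funext i
    have := congrFun h (Fin.rev i)
    simpa using this

/-- few bad rows -/
lemma card_badRows (α κ x : ℝ) (hx1 : 1 ≤ x) (m n m0 : ℕ) :
    (cnt (fun A : Fin m → Fin n → Bool => NoHub α A ∧ 2 * m0 ≤ cnt (BadRow κ A) + 1) : ℝ)
      ≤ 2 * ((m : ℝ) ^ (2 * m0) * (((1 + x) / 2) ^ α / x ^ κ) ^ (n * m0) * 2 ^ (n * m)) := by
  have h0 := add_le_add (card_bad_lt α κ x hx1 m n m0) (card_bad_gt α κ x hx1 m n m0)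
  rw [← two_mul] at h0
  refine le_trans ?_ h0
  norm_cast
  refine le_trans (cnt_mono ?_) (cnt_or_le _ _)
  rintro A ⟨h1, h2⟩
  have h4 : cnt (BadRow κ A) ≤ cnt (BadLt α κ A) + cnt (BadGt α κ A) := by
    refine le_trans (cnt_mono ?_) (cnt_or_le _ _)
    rintro i ⟨j, hj, h⟩
    rcases lt_or_gt_of_ne hj with h4 | h4
    · exact Or.inl ⟨j, h4, h1 j, h⟩
    · exact Or.inr ⟨j, h4, h1 j, h⟩
  by_contra hcon
  push Not at hcon
  omega

end H239Schein
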