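import Mathlib
import Pool.Agent.H239R2.Basic
import Pool.Agent.H239R2.Tails
import Pool.Agent.H239R2.Bad
set_option autoImplicit false
open Finset

namespace H239Schein

section
variable {R C : Type*} [Fintype R] [DecidableEq R] [Fintype C] [DecidableEq C]

/-- a finite family of rectangles whose union is the set of ones of `A` -/
def IsCov (A : R → C → Bool) (L : Finset (Finset R × Finset C)) : Prop :=
  ∀ i c, A i c = true ↔ ∃ p ∈ L, i ∈ p.1 ∧ c ∈ p.2

/-- distinct nonempty row sets and column sets -/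
def Red (L : Finset (Finset R × Finset C)) : Prop :=
  (∀ p ∈ L, ∀ q ∈ L, p.1 = q.1 → p = q) ∧ (∀ p ∈ L, ∀ q ∈ L, p.2 = q.2 → p = q) ∧
    (∀ p ∈ L, p.1 ≠ ∅ ∧ p.2 ≠ ∅)

omit [Fintype R] [Fintype C] in
lemma isCov_of_cov {A : R → C → Bool} {k : ℕ} (h : Cov A k) :
    ∃ L, IsCov A L ∧ L.card ≤ k := by
  obtain ⟨U, V, h⟩ := h
  refine ⟨univ.image (fun l : Fin k => (U l, V l)), ?_, ?_⟩
  · intro i c
    rw [h i c]
    constructor
    · rintro ⟨l, h1, h2⟩
      exact ⟨(U l, V l), mem_image_of_mem _ (mem_univ _), h1, h2⟩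
    · rintro ⟨p, hp, h1, h2⟩
      rw [mem_image] at hp
      obtain ⟨l, _, rfl⟩ := hp
      exact ⟨l, h1, h2⟩
  · exact card_image_le.trans (by simp)

omit [Fintype R] [Fintype C] in
/-- padding a list to a tuple -/
lemma exists_tuple {α : Type*} [DecidableEq α] (L : Finset α) (q : ℕ) (hq : L.card ≤ q) (z : α) :
    ∃ g : Fin q → α, (∀ l, g l ∈ L ∨ g l = z) ∧ ∀ p ∈ L, ∃ l, g l = p := by
  refine ⟨fun l => L.toList.getD l z, ?_, ?_⟩
  · intro l
    by_cases h : (l : ℕ) < L.toList.length
    · left
      simp only [List.getD_eq_getElem _ _ h]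
      exact mem_toList.1 (List.getElem_mem h)
    · right
      exact List.getD_eq_default _ _ (not_lt.1 h)
  · intro p hp
    have hp' : p ∈ L.toList := mem_toList.2 hp
    obtain ⟨l, hl, h⟩ := List.getElem_of_mem hp'
    have hl' : l < q := by
      rw [length_toList] at hl; omega
    refine ⟨⟨l, hl'⟩, ?_⟩
    simp only [List.getD_eq_getElem _ _ hl]
    exact h

omit [Fintype R] [Fintype C] in
lemma cov_of_isCov {A : R → C → Bool} {k : ℕ} {L : Finset (Finset R × Finset C)}
    (h : IsCov A L) (hk : L.card ≤ k) : Cov A k := by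
  obtain ⟨g, h1, h2⟩ := exists_tuple L k hk (∅, ∅)
  refine ⟨fun l => (g l).1, fun l => (g l).2, ?_⟩
  intro i c
  rw [h i c]
  constructor
  · rintro ⟨p, hp, h3, h4⟩
    obtain ⟨l, rfl⟩ := h2 p hp
    exact ⟨l, h3, h4⟩
  · rintro ⟨l, h3, h4⟩
    rcases h1 l with h5 | h5
    · exact ⟨g l, h5, h3, h4⟩
    · simp only [h5] at h3
      simp at h3

omit [Fintype R] [Fintype C] in
/-- a family that is not reduced can be shortened -/
lemma exists_smaller {A : R → C → Bool} {L' : Finset (Finset R × Finset C)} (h1 : IsCov A L')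
    (hred : ¬ Red L') : ∃ L'', IsCov A L'' ∧ L''.card < L'.card := by
  classical
  by_contra hmin0
  have hmin : ∀ L'', IsCov A L'' → L'.card ≤ L''.card := by
    intro L'' h''
    by_contra h
    exact hmin0 ⟨L'', h'', by omega⟩
  apply hred
  refine ⟨?_, ?_, ?_⟩
  · intro p hp q hq hpq
    by_contra hne
    have h3 : IsCov A (insert (p.1, p.2 ∪ q.2) ((L'.erase p).erase q)) := by
      intro i c
      rw [h1 i c]
      constructor
      · rintro ⟨r, hr, hi, hc⟩
        by_cases hrp : r = p
        · refine ⟨_, mem_insert_self _ _, ?_⟩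
          subst hrp
          exact ⟨hi, mem_union_left _ hc⟩
        · by_cases hrq : r = q
          · refine ⟨_, mem_insert_self _ _, ?_⟩
            subst hrq
            exact ⟨by rw [hpq]; exact hi, mem_union_right _ hc⟩
          · exact ⟨r, mem_insert_of_mem (mem_erase.2 ⟨hrq, mem_erase.2 ⟨hrp, hr⟩⟩), hi, hc⟩
      · rintro ⟨r, hr, hi, hc⟩
        rw [mem_insert] at hr
        rcases hr with hr | hr
        · subst hr
          simp only [mem_union] at hc hi
          rcases hc with hc | hc
          · exact ⟨p, hp, hi, hc⟩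
          · exact ⟨q, hq, by rw [← hpq]; exact hi, hc⟩
        · exact ⟨r, mem_of_mem_erase (mem_of_mem_erase hr), hi, hc⟩
    have h4 := hmin _ h3
    have h5 : ((L'.erase p).erase q).card + 2 = L'.card := by
      rw [card_erase_of_mem (mem_erase.2 ⟨Ne.symm hne, hq⟩), card_erase_of_mem hp]
      have : 1 < L'.card := one_lt_card.2 ⟨p, hp, q, hq, hne⟩
      omega
    have h6 := card_insert_le (p.1, p.2 ∪ q.2) ((L'.erase p).erase q)
    omega
  · intro p hp q hq hpq
    by_contra hne
    have h3 : IsCov A (insert (p.1 ∪ q.1, p.2) ((L'.erase p).erase q)) := by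
      intro i c
      rw [h1 i c]
      constructor
      · rintro ⟨r, hr, hi, hc⟩
        by_cases hrp : r = p
        · refine ⟨_, mem_insert_self _ _, ?_⟩
          subst hrp
          exact ⟨mem_union_left _ hi, hc⟩
        · by_cases hrq : r = q
          · refine ⟨_, mem_insert_self _ _, ?_⟩
            subst hrq
            exact ⟨mem_union_right _ hi, by rw [hpq]; exact hc⟩
          · exact ⟨r, mem_insert_of_mem (mem_erase.2 ⟨hrq, mem_erase.2 ⟨hrp, hr⟩⟩), hi, hc⟩
      · rintro ⟨r, hr, hi, hc⟩
        rw [mem_insert] at hr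
        rcases hr with hr | hr
        · subst hr
          simp only [mem_union] at hc hi
          rcases hi with hi | hi
          · exact ⟨p, hp, hi, hc⟩
          · exact ⟨q, hq, hi, by rw [← hpq]; exact hc⟩
        · exact ⟨r, mem_of_mem_erase (mem_of_mem_erase hr), hi, hc⟩
    have h4 := hmin _ h3
    have h5 : ((L'.erase p).erase q).card + 2 = L'.card := by
      rw [card_erase_of_mem (mem_erase.2 ⟨Ne.symm hne, hq⟩), card_erase_of_mem hp]
      have : 1 < L'.card := one_lt_card.2 ⟨p, hp, q, hq, hne⟩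
      omega
    have h6 := card_insert_le (p.1 ∪ q.1, p.2) ((L'.erase p).erase q)
    omega
  · intro p hp
    by_contra hcon
    have hcon' : p.1 = ∅ ∨ p.2 = ∅ := by tauto
    have h3 : IsCov A (L'.erase p) := by
      intro i c
      rw [h1 i c]
      constructor
      · rintro ⟨r, hr, hi, hc⟩
        refine ⟨r, mem_erase.2 ⟨?_, hr⟩, hi, hc⟩
        rintro rfl
        rcases hcon' with h4 | h4
        · rw [h4] at hi; simp at hi
        · rw [h4] at hc; simp at hc
      · rintro ⟨r, hr, hi, hc⟩
        exact ⟨r, mem_of_mem_erase hr, hi, hc⟩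
    have h4 := hmin _ h3
    have h5 := card_erase_lt_of_mem hp
    omega

omit [Fintype R] [Fintype C] in
lemma exists_red {A : R → C → Bool} {L : Finset (Finset R × Finset C)} (h : IsCov A L) :
    ∃ L', IsCov A L' ∧ L'.card ≤ L.card ∧ Red L' := by
  classical
  have hex : ∃ k, ∃ L', IsCov A L' ∧ L'.card = k := ⟨_, L, h, rfl⟩
  obtain ⟨L', h1, h2⟩ := Nat.find_spec hex
  have hmin : ∀ L'', IsCov A L'' → L'.card ≤ L''.card := by
    intro L'' h''
    rw [h2]
    exact Nat.find_min' hex ⟨L'', h'', rfl⟩
  refine ⟨L', h1, hmin L h, ?_⟩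
  by_contra hred
  obtain ⟨L'', h3, h4⟩ := exists_smaller h1 hred
  have := hmin L'' h3
  omega

/-- union of the rectangles of a family -/
def uni (L : Finset (Finset R × Finset C)) : Finset (R × C) := L.biUnion (fun p => p.1 ×ˢ p.2)

omit [Fintype R] [Fintype C] in
@[simp] lemma mem_uni (L : Finset (Finset R × Finset C)) (x : R × C) :
    x ∈ uni L ↔ ∃ p ∈ L, x.1 ∈ p.1 ∧ x.2 ∈ p.2 := by
  simp [uni]

/-- all unions of at most `q` rectangles from `G` -/
def img (G : Finset (Finset R × Finset C)) (q : ℕ) : Finset (Finset (R × C)) :=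
  (Fintype.piFinset (fun _ : Fin q => G)).image
    (fun g => univ.biUnion (fun l => (g l).1 ×ˢ (g l).2))

omit [Fintype R] [Fintype C] in
lemma card_img (G : Finset (Finset R × Finset C)) (q : ℕ) : (img G q).card ≤ G.card ^ q := by
  refine card_image_le.trans ?_
  rw [Fintype.card_piFinset_const]

omit [Fintype R] [Fintype C] in
lemma uni_mem_img (G L : Finset (Finset R × Finset C)) (q : ℕ) (hL : L ⊆ G) (hq : L.card ≤ q)
    (h0 : ((∅, ∅) : Finset R × Finset C) ∈ G) : uni L ∈ img G q := by
  obtain ⟨g, h1, h2⟩ := exists_tuple L q hq (∅, ∅)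
  rw [img, mem_image]
  refine ⟨g, ?_, ?_⟩
  · rw [Fintype.mem_piFinset]
    intro l
    rcases h1 l with h | h
    · exact hL h
    · rw [h]; exact h0
  · ext x
    simp only [mem_biUnion, mem_univ, true_and, mem_product, mem_uni]
    constructor
    · rintro ⟨l, h3, h4⟩
      rcases h1 l with h | h
      · exact ⟨_, h, h3, h4⟩
      · rw [h] at h3; simp at h3
    · rintro ⟨p, hp, h3, h4⟩
      obtain ⟨l, rfl⟩ := h2 p hp
      exact ⟨l, h3, h4⟩

/-- rows without a star -/
def Tset (L : Finset (Finset R × Finset C)) : Finset R :=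
  univ.filter (fun i => ¬ ∃ p ∈ L, p.1 = {i})

/-- columns without a star -/
def Sset (L : Finset (Finset R × Finset C)) : Finset C :=
  univ.filter (fun c => ¬ ∃ p ∈ L, p.1.card ≠ 1 ∧ p.2 = {c})

/-- thick rectangles -/
def thick (L : Finset (Finset R × Finset C)) : Finset (Finset R × Finset C) :=
  L.filter (fun p => p.1.card ≠ 1 ∧ p.2.card ≠ 1)

omit [Fintype C] [DecidableEq C] in
lemma card_Tset (L : Finset (Finset R × Finset C)) (hL : Red L) :
    (Tset L).card + (L.filter (fun p => p.1.card = 1)).card = Fintype.card R := by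
  classical
  have h1 : (L.filter (fun p => p.1.card = 1)).card =
      (univ.filter (fun i : R => ∃ p ∈ L, p.1 = {i})).card := by
    refine card_bij' (i := fun p hp => (card_eq_one.1 (mem_filter.1 hp).2).choose)
      (j := fun i hi => ((mem_filter.1 hi).2).choose) ?_ ?_ ?_ ?_
    · intro p hp
      simp only [mem_filter, mem_univ, true_and]
      exact ⟨p, (mem_filter.1 hp).1, (card_eq_one.1 (mem_filter.1 hp).2).choose_spec⟩
    · intro i hi
      have := ((mem_filter.1 hi).2).choose_spec
      rw [mem_filter]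
      exact ⟨this.1, by rw [this.2]; simp⟩
    · intro p hp
      have h2 := (card_eq_one.1 (mem_filter.1 hp).2).choose_spec
      set i := (card_eq_one.1 (mem_filter.1 hp).2).choose
      have hi : ∃ p ∈ L, p.1 = {i} := ⟨p, (mem_filter.1 hp).1, h2⟩
      have h3 := hi.choose_spec
      exact hL.1 _ h3.1 _ (mem_filter.1 hp).1 (h3.2.trans h2.symm)
    · intro i hi
      have h2 := ((mem_filter.1 hi).2).choose_spec
      set p := ((mem_filter.1 hi).2).choose
      have hp : p.1.card = 1 := by rw [h2.2]; simp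
      have h3 := (card_eq_one.1 hp).choose_spec
      have h4 : ({i} : Finset R) = {(card_eq_one.1 hp).choose} := by rw [← h3, h2.2]
      exact (singleton_injective h4).symm
  rw [h1, Tset]
  have := Finset.card_filter_add_card_filter_not (s := (univ : Finset R))
    (fun i : R => ∃ p ∈ L, p.1 = {i})
  rw [card_univ] at this
  omega

omit [Fintype R] [DecidableEq R] in
lemma card_Sset (L : Finset (Finset R × Finset C)) (hL : Red L) :
    (Sset L).card + (L.filter (fun p => p.1.card ≠ 1 ∧ p.2.card = 1)).card = Fintype.card C := by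
  classical
  have h1 : (L.filter (fun p => p.1.card ≠ 1 ∧ p.2.card = 1)).card =
      (univ.filter (fun c : C => ∃ p ∈ L, p.1.card ≠ 1 ∧ p.2 = {c})).card := by
    refine card_bij' (i := fun p hp => (card_eq_one.1 (mem_filter.1 hp).2.2).choose)
      (j := fun i hi => ((mem_filter.1 hi).2).choose) ?_ ?_ ?_ ?_
    · intro p hp
      simp only [mem_filter, mem_univ, true_and]
      exact ⟨p, (mem_filter.1 hp).1, (mem_filter.1 hp).2.1,
        (card_eq_one.1 (mem_filter.1 hp).2.2).choose_spec⟩
    · intro i hi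
      have := ((mem_filter.1 hi).2).choose_spec
      rw [mem_filter]
      exact ⟨this.1, this.2.1, by rw [this.2.2]; simp⟩
    · intro p hp
      have h2 := (card_eq_one.1 (mem_filter.1 hp).2.2).choose_spec
      set i := (card_eq_one.1 (mem_filter.1 hp).2.2).choose
      have hi : ∃ p ∈ L, p.1.card ≠ 1 ∧ p.2 = {i} :=
        ⟨p, (mem_filter.1 hp).1, (mem_filter.1 hp).2.1, h2⟩
      have h3 := hi.choose_spec
      exact hL.2.1 _ h3.1 _ (mem_filter.1 hp).1 (h3.2.2.trans h2.symm)
    · intro i hi
      have h2 := ((mem_filter.1 hi).2).choose_spec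
      set p := ((mem_filter.1 hi).2).choose
      have hp : p.2.card = 1 := by rw [h2.2.2]; simp
      have h3 := (card_eq_one.1 hp).choose_spec
      have h4 : ({i} : Finset C) = {(card_eq_one.1 hp).choose} := by rw [← h3, h2.2.2]
      exact (singleton_injective h4).symm
  rw [h1, Sset]
  have := Finset.card_filter_add_card_filter_not (s := (univ : Finset C))
    (fun c : C => ∃ p ∈ L, p.1.card ≠ 1 ∧ p.2 = {c})
  rw [card_univ] at this
  omega

omit [Fintype R] [Fintype C] [DecidableEq R] [DecidableEq C] in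
lemma card_parts (L : Finset (Finset R × Finset C)) :
    (L.filter (fun p => p.1.card = 1)).card +
      (L.filter (fun p => p.1.card ≠ 1 ∧ p.2.card = 1)).card + (thick L).card = L.card := by
  classical
  have h1 := Finset.card_filter_add_card_filter_not (s := L) (fun p => p.1.card = 1)
  have h2 := Finset.card_filter_add_card_filter_not (s := L.filter (fun p => ¬ p.1.card = 1))
    (fun p => p.2.card = 1)
  rw [filter_filter, filter_filter] at h2
  rw [thick]
  simp only [ne_eq] at *
  omega

/-- on `T × S` only thick rectangles matter -/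
lemma pat_eq (A : R → C → Bool) (L : Finset (Finset R × Finset C)) (h : IsCov A L) :
    pat A (Tset L) (Sset L) = uni (thick L) ∩ (Tset L ×ˢ Sset L) := by
  ext ⟨i, c⟩
  simp only [mem_pat, mem_inter, mem_uni, mem_product]
  rw [and_comm]
  refine and_congr_left ?_
  rintro ⟨hi, hc⟩
  rw [h i c]
  simp only [Tset, Sset, mem_filter, mem_univ, true_and] at hi hc
  constructor
  · rintro ⟨p, hp, h1, h2⟩
    refine ⟨p, ?_, h1, h2⟩
    rw [thick, mem_filter]
    have h3 : p.1.card ≠ 1 := by
      intro h4
      obtain ⟨a, ha⟩ := card_eq_one.1 h4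
      rw [ha, mem_singleton] at h1
      subst h1
      exact hi ⟨p, hp, ha⟩
    refine ⟨hp, h3, ?_⟩
    intro h4
    obtain ⟨a, ha⟩ := card_eq_one.1 h4
    rw [ha, mem_singleton] at h2
    subst h2
    exact hc ⟨p, hp, h3, ha⟩
  · rintro ⟨p, hp, h1, h2⟩
    rw [thick, mem_filter] at hp
    exact ⟨p, hp.1, h1, h2⟩

end

end H239Schein
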