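import Mathlib
import Pool.Agent.H239R2.Struct
set_option autoImplicit false
open Finset

namespace H239Schein

/-- good rectangles -/
def IsGood (κ η : ℝ) (K : ℕ) {m n : ℕ} (p : Finset (Fin m) × Finset (Fin n)) : Prop :=
  (p.1.card ≤ K ∧ (p.2.card : ℝ) ≤ κ * n) ∨ (p.2.card ≤ K ∧ (p.1.card : ℝ) ≤ κ * m) ∨
    ((p.1.card : ℝ) ≤ η * n ∧ (p.2.card : ℝ) ≤ η * n)

/-- thin rectangles -/
def IsThin (K : ℕ) {m n : ℕ} (p : Finset (Fin m) × Finset (Fin n)) : Prop :=
  p.1.card ≤ K ∨ p.2.card ≤ K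

/-- set of good rectangles -/
noncomputable def goodSet (κ η : ℝ) (K m n : ℕ) : Finset (Finset (Fin m) × Finset (Fin n)) :=
  @Finset.filter _ (IsGood κ η K) (Classical.decPred _) univ

/-- set of thin rectangles -/
noncomputable def thinSet (K m n : ℕ) : Finset (Finset (Fin m) × Finset (Fin n)) :=
  @Finset.filter _ (IsThin K) (Classical.decPred _) univ

lemma mem_goodSet (κ η : ℝ) (K m n : ℕ) (p : Finset (Fin m) × Finset (Fin n)) :
    p ∈ goodSet κ η K m n ↔ IsGood κ η K p := by simp [goodSet]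

lemma mem_thinSet (K m n : ℕ) (p : Finset (Fin m) × Finset (Fin n)) :
    p ∈ thinSet K m n ↔ IsThin K p := by simp [thinSet]

lemma card_goodSet_eq (κ η : ℝ) (K m n : ℕ) :
    (goodSet κ η K m n).card = cnt (IsGood κ η K (m := m) (n := n)) := rfl

lemma card_thinSet_eq (K m n : ℕ) :
    (thinSet K m n).card = cnt (IsThin K (m := m) (n := n)) := rfl

lemma thick_cards {m n : ℕ} {L : Finset (Finset (Fin m) × Finset (Fin n))} (hL : Red L)
    {p : Finset (Fin m) × Finset (Fin n)} (hp : p ∈ thick L) :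
    1 < p.1.card ∧ 1 < p.2.card := by
  rw [thick, mem_filter] at hp
  obtain ⟨h1, h2, h3⟩ := hp
  obtain ⟨h4, h5⟩ := hL.2.2 p h1
  have h6 := card_pos.2 (nonempty_iff_ne_empty.2 h4)
  have h7 := card_pos.2 (nonempty_iff_ne_empty.2 h5)
  omega

lemma bad_subset {κ η : ℝ} {K m n : ℕ} (hK : 0 < K) (hη : 4 ≤ η * K)
    {A : Fin m → Fin n → Bool} (hbig : ¬ BigRect true (4 * n) A)
    {L : Finset (Finset (Fin m) × Finset (Fin n))} (hA : IsCov A L) (hL : Red L)
    {p : Finset (Fin m) × Finset (Fin n)} (hp : p ∈ thick L) (hg : ¬ IsGood κ η K p) :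
    (p.1.card ≤ K ∧ ∀ i ∈ p.1, BadRow κ A i) ∨ (p.2.card ≤ K ∧ ∀ c ∈ p.2, BadRow κ (tr A) c) := by
  obtain ⟨hp1, hp2⟩ := thick_cards hL hp
  have hpL : p ∈ L := (mem_filter.1 hp).1
  have hones : ∀ i ∈ p.1, ∀ c ∈ p.2, A i c = true := fun i hi c hc => (hA i c).2 ⟨p, hpL, hi, hc⟩
  simp only [IsGood, not_or, not_and] at hg
  obtain ⟨g1, g2, g3⟩ := hg
  by_cases h1 : p.1.card ≤ K
  · left
    refine ⟨h1, ?_⟩
    intro i hi
    obtain ⟨j, hj, hji⟩ := exists_mem_ne hp1 i
    refine ⟨j, hji, ?_⟩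
    have h2 := g1 h1
    push Not at h2
    refine h2.trans_le ?_
    have : p.2 ⊆ supp (A i) ∩ supp (A j) := by
      intro c hc
      simp only [mem_inter, mem_supp]
      exact ⟨hones i hi c hc, hones j hj c hc⟩
    exact_mod_cast card_le_card this
  · by_cases h2 : p.2.card ≤ K
    · right
      refine ⟨h2, ?_⟩
      intro c hc
      obtain ⟨d, hd, hdc⟩ := exists_mem_ne hp2 c
      refine ⟨d, hdc, ?_⟩
      have h3 := g2 h2
      push Not at h3
      refine h3.trans_le ?_
      have : p.1 ⊆ supp (tr A c) ∩ supp (tr A d) := by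
        intro i hi
        simp only [mem_inter, mem_supp, tr_apply]
        exact ⟨hones i hi c hc, hones i hi d hd⟩
      exact_mod_cast card_le_card this
    · exfalso
      push Not at h1 h2
      have h3 : p.1.card * p.2.card < 4 * n := by
        by_contra hcon
        push Not at hcon
        exact hbig ⟨p.1, p.2, hcon, hones⟩
      have hη0 : 0 < η := by
        by_contra hcon
        push Not at hcon
        have : η * K ≤ 0 := mul_nonpos_of_nonpos_of_nonneg hcon (Nat.cast_nonneg _)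
        linarith
      have h3r : (p.1.card : ℝ) * p.2.card < 4 * n := by exact_mod_cast h3
      have h1r : (K : ℝ) < p.1.card := by exact_mod_cast h1
      have h2r : (K : ℝ) < p.2.card := by exact_mod_cast h2
      have hKr : (0 : ℝ) < K := by exact_mod_cast hK
      have hn : (0:ℝ) ≤ n := Nat.cast_nonneg _
      have h4 : (p.1.card : ℝ) ≤ η * n := by
        by_contra hcon
        push Not at hcon
        have : η * n * K ≤ (p.1.card : ℝ) * p.2.card := by
          apply mul_le_mul hcon.le h2r.le hKr.le (by positivity)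
        nlinarith
      have h5 : (p.2.card : ℝ) ≤ η * n := by
        by_contra hcon
        push Not at hcon
        have : K * (η * n) ≤ (p.1.card : ℝ) * p.2.card := by
          apply mul_le_mul h1r.le hcon.le (by positivity) (by positivity)
        nlinarith
      exact g3 h4 h5

/-- the number of not good thick rectangles is bounded in terms of the number of bad rows and
columns. -/
lemma card_bad_thick {κ η : ℝ} {K m n : ℕ} (hK : 0 < K) (hη : 4 ≤ η * K)
    {A : Fin m → Fin n → Bool} (hbig : ¬ BigRect true (4 * n) A)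
    {L : Finset (Finset (Fin m) × Finset (Fin n))} (hA : IsCov A L) (hL : Red L) :
    ((thick L) \ goodSet κ η K m n).card ≤
      (2 ^ cnt (BadRow κ A) - 1) + (2 ^ cnt (BadRow κ (tr A)) - 1) := by
  classical
  set Z1 : Finset (Fin m) := univ.filter (fun i => BadRow κ A i)
  set Z2 : Finset (Fin n) := univ.filter (fun c => BadRow κ (tr A) c)
  have hsub : (thick L) \ goodSet κ η K m n ⊆
      (L.filter (fun p => p.1 ⊆ Z1)) ∪ (L.filter (fun p => p.2 ⊆ Z2)) := by
    intro p hp
    rw [mem_sdiff, mem_goodSet] at hp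
    have hpL : p ∈ L := (mem_filter.1 hp.1).1
    rcases bad_subset hK hη hbig hA hL hp.1 hp.2 with h | h
    · refine mem_union_left _ (mem_filter.2 ⟨hpL, fun i hi => ?_⟩)
      exact mem_filter.2 ⟨mem_univ _, h.2 i hi⟩
    · refine mem_union_right _ (mem_filter.2 ⟨hpL, fun i hi => ?_⟩)
      exact mem_filter.2 ⟨mem_univ _, h.2 i hi⟩
  have h1 : (L.filter (fun p => p.1 ⊆ Z1)).card ≤ 2 ^ cnt (BadRow κ A) - 1 := by
    have h2 : (L.filter (fun p => p.1 ⊆ Z1)).card ≤ (Z1.powerset.erase ∅).card := by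
      refine card_le_card_of_injOn (fun p => p.1) ?_ ?_
      · intro p hp
        simp only [coe_filter, Set.mem_ofPred_eq] at hp
        rw [mem_coe, mem_erase, mem_powerset]
        exact ⟨(hL.2.2 p hp.1).1, hp.2⟩
      · intro p hp q hq h
        simp only [coe_filter, Set.mem_ofPred_eq] at hp hq
        exact hL.1 p hp.1 q hq.1 h
    rw [card_erase_of_mem (empty_mem_powerset _), card_powerset] at h2
    rw [cnt_eq]; exact h2
  have h1' : (L.filter (fun p => p.2 ⊆ Z2)).card ≤ 2 ^ cnt (BadRow κ (tr A)) - 1 := by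
    have h2 : (L.filter (fun p => p.2 ⊆ Z2)).card ≤ (Z2.powerset.erase ∅).card := by
      refine card_le_card_of_injOn (fun p => p.2) ?_ ?_
      · intro p hp
        simp only [coe_filter, Set.mem_ofPred_eq] at hp
        rw [mem_coe, mem_erase, mem_powerset]
        exact ⟨(hL.2.2 p hp.1).2, hp.2⟩
      · intro p hp q hq h
        simp only [coe_filter, Set.mem_ofPred_eq] at hp hq
        exact hL.2.1 p hp.1 q hq.1 h
    rw [card_erase_of_mem (empty_mem_powerset _), card_powerset] at h2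
    rw [cnt_eq]; exact h2
  calc _ ≤ _ := card_le_card hsub
    _ ≤ _ := card_union_le _ _
    _ ≤ _ := add_le_add h1 h1'

/-- the event that on `T × S` the matrix is a union of at most `q` rectangles from `G` and at most
`j` rectangles from `H` -/
def Ev {m n : ℕ} (G H : Finset (Finset (Fin m) × Finset (Fin n)))
    (T : Finset (Fin m)) (S : Finset (Fin n)) (q j : ℕ) (A : Fin m → Fin n → Bool) : Prop :=
  ∃ Lg Lb : Finset (Finset (Fin m) × Finset (Fin n)), Lg ⊆ G ∧ Lb ⊆ H ∧ Lg.card ≤ q ∧ Lb.card ≤ j ∧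
    pat A T S = (uni Lg ∪ uni Lb) ∩ (T ×ˢ S)

lemma cnt_Ev {m n : ℕ} (G H : Finset (Finset (Fin m) × Finset (Fin n)))
    (hG : (∅, ∅) ∈ G) (hH : (∅, ∅) ∈ H)
    (T : Finset (Fin m)) (S : Finset (Fin n)) (q j : ℕ) :
    cnt (Ev G H T S q j) * 2 ^ (T.card * S.card) ≤ (G.card ^ q * H.card ^ j) * 2 ^ (m * n) := by
  classical
  have h1 := card_union_pat T S (image₂ (fun P Q => P ∪ Q) (img G q) (img H j)) (Ev G H T S q j) ?_
  · rw [Fintype.card_fin, Fintype.card_fin] at h1
    refine h1.trans (Nat.mul_le_mul_right _ ?_)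
    refine (card_image₂_le _ _ _).trans ?_
    exact Nat.mul_le_mul (card_img G q) (card_img H j)
  · rintro A ⟨Lg, Lb, h1, h2, h3, h4, h5⟩
    exact ⟨_, mem_image₂_of_mem (uni_mem_img G Lg q h1 h3 hG) (uni_mem_img H Lb j h2 h4 hH), h5⟩

/-- main structural statement -/
lemma struct_main {κ η : ℝ} {K m n k M : ℕ} (hK : 0 < K) (hη : 4 ≤ η * K)
    {A : Fin m → Fin n → Bool} (hbig : ¬ BigRect true (4 * n) A)
    {L : Finset (Finset (Fin m) × Finset (Fin n))} (hA : IsCov A L) (hL : Red L) (hk : L.card ≤ k)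
    (hM : (2 ^ cnt (BadRow κ A) - 1) + (2 ^ cnt (BadRow κ (tr A)) - 1) ≤ M) :
    ∃ j ≤ M, j + (m - (Tset L).card) + (n - (Sset L).card) ≤ k ∧
      Ev (goodSet κ η K m n) (thinSet K m n) (Tset L) (Sset L)
        (k - (m - (Tset L).card) - (n - (Sset L).card) - j) j A := by
  classical
  have h1 := card_Tset L hL
  have h2 := card_Sset L hL
  have h3 := card_parts L
  rw [Fintype.card_fin] at h1 h2
  set Lb := (thick L) \ goodSet κ η K m n with hLb
  set Lg := (thick L) ∩ goodSet κ η K m n with hLg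
  have h4 : Lg.card + Lb.card = (thick L).card := card_inter_add_card_sdiff _ _
  have h5 : Lb.card ≤ M := (card_bad_thick hK hη hbig hA hL).trans hM
  refine ⟨Lb.card, h5, by omega, Lg, Lb, inter_subset_right, ?_, by omega, le_rfl, ?_⟩
  · intro p hp
    rw [hLb, mem_sdiff, mem_goodSet] at hp
    rw [mem_thinSet]
    rcases bad_subset hK hη hbig hA hL hp.1 hp.2 with h | h
    · exact Or.inl h.1
    · exact Or.inr h.1
  · rw [pat_eq A L hA]
    congr 1
    ext x
    simp only [mem_union, mem_uni, hLg, hLb, mem_inter, mem_sdiff]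
    constructor
    · rintro ⟨p, hp, h⟩
      by_cases hg : p ∈ goodSet κ η K m n
      · exact Or.inl ⟨p, ⟨hp, hg⟩, h⟩
      · exact Or.inr ⟨p, ⟨hp, hg⟩, h⟩
    · rintro (⟨p, hp, h⟩ | ⟨p, hp, h⟩)
      · exact ⟨p, hp.1, h⟩
      · exact ⟨p, hp.1, h⟩

end H239Schein
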