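import Mathlib
import Pool.Agent.H239R2.Count
import Pool.Agent.H239R2.Comb
set_option autoImplicit false
open Finset Filter

namespace H239Schein

lemma card_thin (K m n : ℕ) (hmn : m ≤ n) : (thinSet K m n).card ≤ 2 * (n + 1) ^ K * 2 ^ n := by
  rw [card_thinSet_eq]
  have h1 : cnt (IsThin K (m := m) (n := n)) ≤
      cnt (fun p : Finset (Fin m) × Finset (Fin n) => p.1.card ≤ K ∧ True) +
      cnt (fun p : Finset (Fin m) × Finset (Fin n) => True ∧ p.2.card ≤ K) := by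
    refine le_trans (cnt_mono ?_) (cnt_or_le _ _)
    rintro p (h | h)
    · exact Or.inl ⟨h, trivial⟩
    · exact Or.inr ⟨trivial, h⟩
  rw [cnt_prod (fun U : Finset (Fin m) => U.card ≤ K) (fun _ : Finset (Fin n) => True),
    cnt_prod (fun _ : Finset (Fin m) => True) (fun U : Finset (Fin n) => U.card ≤ K),
    cnt_true, cnt_true, Fintype.card_finset, Fintype.card_finset, Fintype.card_fin,
    Fintype.card_fin] at h1
  calc _ ≤ _ := h1
    _ ≤ (n + 1) ^ K * 2 ^ n + 2 ^ n * (n + 1) ^ K := by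
        refine add_le_add (Nat.mul_le_mul_right _ ?_) (Nat.mul_le_mul ?_ ?_)
        · exact (cnt_small_sets m K).trans (Nat.pow_le_pow_left (by omega) _)
        · exact Nat.pow_le_pow_right (by norm_num) hmn
        · exact cnt_small_sets n K
    _ = _ := by ring

lemma rate_bound : (1 + (1/10 : ℝ)) / (1/10 : ℝ) ^ (1/50 : ℝ) ≤ 7/6 := by
  have h1 : (50/53 : ℝ) ≤ (1/10 : ℝ) ^ (1/50 : ℝ) := by
    have h2 : ((50/53 : ℝ) ^ (50 : ℕ)) ^ (1/50 : ℝ) = 50/53 := by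
      rw [← Real.rpow_natCast, ← Real.rpow_mul (by norm_num)]
      norm_num
    rw [← h2]
    exact Real.rpow_le_rpow (by positivity) (by norm_num) (by norm_num)
  rw [div_le_iff₀ (by positivity)]
  nlinarith

lemma cnt_eta (n : ℕ) :
    (cnt (fun N : Finset (Fin n) => (N.card : ℝ) ≤ (1/50) * n) : ℝ) ≤ (7/6 : ℝ) ^ n := by
  have h := lower_tail (C := Fin n) (1/50) (1/10) (by norm_num) (by norm_num)
  rw [Fintype.card_fin] at h
  exact h.trans (pow_le_pow_left₀ (by positivity) rate_bound n)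

lemma cnt_eta' (m n : ℕ) (hmn : m ≤ n) :
    (cnt (fun N : Finset (Fin m) => (N.card : ℝ) ≤ (1/50) * n) : ℝ) ≤ (7/6 : ℝ) ^ n := by
  refine le_trans ?_ (cnt_eta n)
  norm_cast
  refine cnt_inj (fun N => N.map (Fin.castLEEmb hmn)) ?_ ?_
  · intro N hN
    rw [card_map]; exact hN
  · intro N N' _ _ h
    exact map_injective _ h

lemma card_good (κ b : ℝ) (hb1 : 1 ≤ b) (hb : ∀ n : ℕ,
    (cnt (fun N : Finset (Fin n) => (N.card : ℝ) ≤ κ * n) : ℝ) ≤ b ^ n) (K m n : ℕ) (hmn : m ≤ n) :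
    ((goodSet κ (1/50) K m n).card : ℝ) ≤ 2 * ((n : ℝ) + 1) ^ K * b ^ n + ((7/6 : ℝ) ^ n) ^ 2 := by
  rw [card_goodSet_eq]
  have h1 : cnt (IsGood κ (1/50) K (m := m) (n := n)) ≤
      cnt (fun p : Finset (Fin m) × Finset (Fin n) => p.1.card ≤ K ∧ (p.2.card : ℝ) ≤ κ * n) +
      (cnt (fun p : Finset (Fin m) × Finset (Fin n) => (p.1.card : ℝ) ≤ κ * m ∧ p.2.card ≤ K) +
      cnt (fun p : Finset (Fin m) × Finset (Fin n) => (p.1.card : ℝ) ≤ (1/50) * n ∧
        (p.2.card : ℝ) ≤ (1/50) * n)) := by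
    refine le_trans (cnt_mono ?_) ((cnt_or_le _ _).trans (Nat.add_le_add_left (cnt_or_le _ _) _))
    rintro p (h | h | h)
    · exact Or.inl h
    · exact Or.inr (Or.inl ⟨h.2, h.1⟩)
    · exact Or.inr (Or.inr h)
  rw [cnt_prod (fun U : Finset (Fin m) => U.card ≤ K) (fun N : Finset (Fin n) => (N.card : ℝ) ≤ κ * n),
    cnt_prod (fun U : Finset (Fin m) => (U.card : ℝ) ≤ κ * m) (fun N : Finset (Fin n) => N.card ≤ K),
    cnt_prod (fun U : Finset (Fin m) => (U.card : ℝ) ≤ (1/50) * n)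
      (fun N : Finset (Fin n) => (N.card : ℝ) ≤ (1/50) * n)] at h1
  have h2 : (cnt (IsGood κ (1/50) K (m := m) (n := n)) : ℝ) ≤
      (cnt (fun U : Finset (Fin m) => U.card ≤ K) : ℝ) *
        cnt (fun N : Finset (Fin n) => (N.card : ℝ) ≤ κ * n) +
      ((cnt (fun U : Finset (Fin m) => (U.card : ℝ) ≤ κ * m) : ℝ) *
        cnt (fun N : Finset (Fin n) => N.card ≤ K) +
      (cnt (fun U : Finset (Fin m) => (U.card : ℝ) ≤ (1/50) * n) : ℝ) *
        cnt (fun N : Finset (Fin n) => (N.card : ℝ) ≤ (1/50) * n)) := by exact_mod_cast h1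
  have h3 : (cnt (fun U : Finset (Fin m) => U.card ≤ K) : ℝ) ≤ ((n : ℝ) + 1) ^ K := by
    have := (cnt_small_sets m K).trans (Nat.pow_le_pow_left (show m + 1 ≤ n + 1 by omega) K)
    exact_mod_cast this
  have h4 : (cnt (fun U : Finset (Fin n) => U.card ≤ K) : ℝ) ≤ ((n : ℝ) + 1) ^ K := by
    exact_mod_cast (cnt_small_sets n K)
  have h5 : (cnt (fun U : Finset (Fin m) => (U.card : ℝ) ≤ κ * m) : ℝ) ≤ b ^ n :=
    (hb m).trans (pow_le_pow_right₀ hb1 hmn)
  calc _ ≤ _ := h2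
    _ ≤ ((n : ℝ) + 1) ^ K * b ^ n + (b ^ n * ((n : ℝ) + 1) ^ K + (7/6 : ℝ) ^ n * (7/6 : ℝ) ^ n) := by
        gcongr
        · exact hb n
        · exact cnt_eta' m n hmn
        · exact cnt_eta n
    _ = _ := by ring

/-- existence of a rate for the number of good rectangles -/
lemma exists_good_rate (κ : ℝ) (hκ0 : 0 ≤ κ) (hκ : κ < 1/2) (K : ℕ) :
    ∃ ρ : ℝ, 0 < ρ ∧ ρ < 1 ∧ ∀ᶠ n : ℕ in atTop, ∀ m ≤ n,
      ((goodSet κ (1/50) K m n).card : ℝ) ≤ (2 * ρ) ^ n := by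
  obtain ⟨x, hx0, hx1, hx2⟩ := exists_lower_rate κ hκ0 hκ
  set b := (1 + x) / x ^ κ with hb
  have hb1 : 1 ≤ b := by
    rw [hb, one_le_div (by positivity)]
    have : x ^ κ ≤ 1 := Real.rpow_le_one hx0.le hx1 hκ0
    linarith
  have hbn : ∀ n : ℕ, (cnt (fun N : Finset (Fin n) => (N.card : ℝ) ≤ κ * n) : ℝ) ≤ b ^ n := by
    intro n
    have h := lower_tail (C := Fin n) κ x hx0 hx1
    rwa [Fintype.card_fin] at h
  -- choose g
  set c := max b (3/2) with hc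
  have hc2 : c < 2 := max_lt hx2 (by norm_num)
  have hc0 : 3/2 ≤ c := le_max_right _ _
  set g := (c + 2) / 2 with hg
  have hcg : c < g := by rw [hg]; linarith
  have hg2 : g < 2 := by rw [hg]; linarith
  have hg0 : 0 < g := by linarith
  refine ⟨g / 2, by positivity, by linarith, ?_⟩
  have h2g : 2 * (g / 2) = g := by ring
  rw [h2g]
  have hr : |c / g| < 1 := by
    rw [abs_of_nonneg (by positivity), div_lt_one hg0]; exact hcg
  have ht := (tendsto_pow_const_mul_const_pow_of_abs_lt_one K hr).const_mul (2 * 2 ^ K)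
  have ht2 := tendsto_pow_atTop_nhds_zero_of_abs_lt_one hr
  have ht3 := ht.add ht2
  rw [mul_zero, zero_add] at ht3
  have hev := ht3.eventually (eventually_le_nhds (show (0:ℝ) < 1 by norm_num))
  filter_upwards [hev, eventually_ge_atTop 1] with n hn hn1 m hmn
  have h1 := card_good κ b hb1 hbn K m n hmn
  refine h1.trans ?_
  have hn1r : (1:ℝ) ≤ n := by exact_mod_cast hn1
  have h2 : 2 * ((n : ℝ) + 1) ^ K * b ^ n + ((7/6 : ℝ) ^ n) ^ 2 ≤
      2 * (2 ^ K * (n : ℝ) ^ K) * c ^ n + c ^ n := by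
    have h3 : ((n : ℝ) + 1) ^ K ≤ 2 ^ K * (n : ℝ) ^ K := by
      rw [← mul_pow]
      exact pow_le_pow_left₀ (by positivity) (by linarith) K
    have h4 : b ^ n ≤ c ^ n := pow_le_pow_left₀ (by linarith) (le_max_left _ _) n
    have h5 : ((7/6 : ℝ) ^ n) ^ 2 ≤ c ^ n := by
      rw [← pow_mul, mul_comm, pow_mul]
      exact pow_le_pow_left₀ (by norm_num) (by norm_num; linarith) n
    gcongr
  refine h2.trans ?_
  have h6 : 2 * (2 ^ K * (n : ℝ) ^ K) * c ^ n + c ^ n =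
      (2 * 2 ^ K * ((n : ℝ) ^ K * (c / g) ^ n) + (c / g) ^ n) * g ^ n := by
    rw [div_pow]; field_simp
  rw [h6]
  calc _ ≤ 1 * g ^ n := by gcongr
    _ = g ^ n := one_mul _

end H239Schein
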