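import Mathlib
import Pool.Agent.H239R2.Sizes
set_option autoImplicit false
open Finset Filter

namespace H239Schein

lemma sum_by_card {m : ℕ} (f : ℕ → ℝ) :
    ∑ T : Finset (Fin m), f T.card = ∑ t ∈ range (m + 1), (m.choose t : ℝ) * f t := by
  have := Finset.sum_powerset_apply_card f (x := (univ : Finset (Fin m)))
  rw [powerset_univ] at this
  rw [this, card_univ, Fintype.card_fin]
  simp

lemma total_count (m n k M : ℕ) (G H : Finset (Finset (Fin m) × Finset (Fin n)))
    (hG : (∅, ∅) ∈ G) (hH : (∅, ∅) ∈ H) (W : ℕ → Prop)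
    (X : (Fin m → Fin n → Bool) → Prop) (Bnd : ℝ) (hB0 : 0 ≤ Bnd)
    (hX : ∀ A, X A → ∃ (T : Finset (Fin m)) (S : Finset (Fin n)), W (m - T.card) ∧ ∃ j ≤ M,
      j + (m - T.card) + (n - S.card) ≤ k ∧ Ev G H T S (k - (m - T.card) - (n - S.card) - j) j A)
    (hB : ∀ a b j, a ≤ m → W a → b ≤ n → j ≤ M → j + a + b ≤ k →
      (m.choose a : ℝ) * (n.choose b) * ((G.card : ℝ) ^ (k - a - b - j) * (H.card : ℝ) ^ j) *
        2 ^ (m * n) ≤ Bnd * 2 ^ ((m - a) * (n - b))) :
    (cnt X : ℝ) ≤ ((m : ℝ) + 1) * (n + 1) * (M + 1) * Bnd := by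
  classical
  set f : ℕ → ℕ → ℕ → ℝ := fun t s j =>
    if W (m - t) ∧ j + (m - t) + (n - s) ≤ k then
      ((G.card : ℝ) ^ (k - (m - t) - (n - s) - j) * (H.card : ℝ) ^ j) * 2 ^ (m * n) / 2 ^ (t * s)
    else 0 with hf
  have h1 : (cnt X : ℝ) ≤ ∑ T : Finset (Fin m), ∑ S : Finset (Fin n), ∑ j ∈ range (M + 1),
      f T.card S.card j := by
    have h2 : cnt X ≤ ∑ x ∈ (univ : Finset (Finset (Fin m))) ×ˢ ((univ : Finset (Finset (Fin n))) ×ˢ
        range (M + 1)), cnt (fun A : Fin m → Fin n → Bool =>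
          (W (m - x.1.card) ∧ x.2.2 + (m - x.1.card) + (n - x.2.1.card) ≤ k) ∧
          Ev G H x.1 x.2.1 (k - (m - x.1.card) - (n - x.2.1.card) - x.2.2) x.2.2 A) := by
      refine le_trans (cnt_mono ?_) (cnt_exists_le _ _)
      intro A hA
      obtain ⟨T, S, hW, j, hj, h3, h4⟩ := hX A hA
      refine ⟨(T, S, j), ?_, ⟨hW, h3⟩, h4⟩
      simp only [mem_product, mem_univ, true_and, mem_range]
      omega
    have h3 : (cnt X : ℝ) ≤ ∑ x ∈ (univ : Finset (Finset (Fin m))) ×ˢ
        ((univ : Finset (Finset (Fin n))) ×ˢ range (M + 1)), f x.1.card x.2.1.card x.2.2 := by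
      refine le_trans (Nat.cast_le.2 h2) ?_
      push_cast
      refine sum_le_sum (fun x _ => ?_)
      simp only [hf]
      split_ifs with hc
      · rw [le_div_iff₀ (by positivity)]
        have h4 := cnt_Ev G H hG hH x.1 x.2.1 (k - (m - x.1.card) - (n - x.2.1.card) - x.2.2) x.2.2
        have h5 : cnt (fun A : Fin m → Fin n → Bool =>
          (W (m - x.1.card) ∧ x.2.2 + (m - x.1.card) + (n - x.2.1.card) ≤ k) ∧
          Ev G H x.1 x.2.1 (k - (m - x.1.card) - (n - x.2.1.card) - x.2.2) x.2.2 A) ≤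
          cnt (Ev G H x.1 x.2.1 (k - (m - x.1.card) - (n - x.2.1.card) - x.2.2) x.2.2) :=
          cnt_mono (fun A h => h.2)
        have h6 := (Nat.mul_le_mul_right (2 ^ (x.1.card * x.2.1.card)) h5).trans h4
        exact_mod_cast h6
      · have : cnt (fun A : Fin m → Fin n → Bool =>
          (W (m - x.1.card) ∧ x.2.2 + (m - x.1.card) + (n - x.2.1.card) ≤ k) ∧
          Ev G H x.1 x.2.1 (k - (m - x.1.card) - (n - x.2.1.card) - x.2.2) x.2.2 A) = 0 := by
          rw [cnt_eq]
          rw [card_eq_zero, filter_eq_empty_iff]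
          intro A _ h
          exact hc h.1
        rw [this]; simp
    rw [sum_product] at h3
    simp_rw [sum_product] at h3
    exact h3
  have h2 : ∀ T : Finset (Fin m), ∑ S : Finset (Fin n), ∑ j ∈ range (M + 1), f T.card S.card j =
      ∑ s ∈ range (n + 1), (n.choose s : ℝ) * ∑ j ∈ range (M + 1), f T.card s j := by
    intro T
    exact sum_by_card (fun s => ∑ j ∈ range (M + 1), f T.card s j)
  simp_rw [h2] at h1
  rw [sum_by_card (fun t => ∑ s ∈ range (n + 1), (n.choose s : ℝ) * ∑ j ∈ range (M + 1), f t s j)] at h1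
  refine h1.trans ?_
  have h3 : ∀ t ∈ range (m + 1), (m.choose t : ℝ) * ∑ s ∈ range (n + 1), (n.choose s : ℝ) *
      ∑ j ∈ range (M + 1), f t s j ≤ ((n : ℝ) + 1) * (M + 1) * Bnd := by
    intro t ht
    rw [mem_range] at ht
    rw [mul_sum]
    have h4 : ∀ s ∈ range (n + 1), (m.choose t : ℝ) * ((n.choose s : ℝ) *
        ∑ j ∈ range (M + 1), f t s j) ≤ (M + 1) * Bnd := by
      intro s hs
      rw [mem_range] at hs
      rw [mul_sum, mul_sum]
      have h5 : ∀ j ∈ range (M + 1), (m.choose t : ℝ) * ((n.choose s : ℝ) * f t s j) ≤ Bnd := by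
        intro j hj
        rw [mem_range] at hj
        simp only [hf]
        split_ifs with hc
        · have h6 := hB (m - t) (n - s) j (by omega) hc.1 (by omega) (by omega) hc.2
          rw [Nat.choose_symm (by omega), Nat.choose_symm (by omega),
            show m - (m - t) = t by omega, show n - (n - s) = s by omega] at h6
          rw [mul_div_assoc', mul_div_assoc', div_le_iff₀ (by positivity)]
          calc _ = (m.choose t : ℝ) * (n.choose s) * ((G.card : ℝ) ^ (k - (m - t) - (n - s) - j) *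
                (H.card : ℝ) ^ j) * 2 ^ (m * n) := by ring
            _ ≤ _ := h6
        · simpa using hB0
      calc _ ≤ ∑ j ∈ range (M + 1), Bnd := sum_le_sum h5
        _ = (M + 1) * Bnd := by simp
    calc _ ≤ ∑ s ∈ range (n + 1), ((M : ℝ) + 1) * Bnd := sum_le_sum h4
      _ = _ := by simp; ring
  calc _ ≤ ∑ t ∈ range (m + 1), ((n : ℝ) + 1) * (M + 1) * Bnd := sum_le_sum h3
    _ = _ := by simp; ring

end H239Schein
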