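import Mathlib
import Pool.Agent.H239R2.Total
set_option autoImplicit false
open Finset Filter

namespace H239Schein

lemma empty_mem_good (κ : ℝ) (hκ : 0 ≤ κ) (η : ℝ) (K m n : ℕ) : (∅, ∅) ∈ goodSet κ η K m n := by
  rw [mem_goodSet]
  left
  simp only [card_empty, Nat.cast_zero, zero_le, true_and]
  positivity

lemma empty_mem_thin (K m n : ℕ) : (∅, ∅) ∈ thinSet K m n := by
  rw [mem_thinSet]; left; simp

lemma exists_pow_le {ρ : ℝ} (h1 : ρ < 1) {c : ℝ} (hc : 0 < c) : ∃ D : ℕ, ρ ^ D ≤ c := by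
  obtain ⟨D, hD⟩ := exists_pow_lt_of_lt_one hc h1
  exact ⟨D, hD.le⟩

lemma poly_aux (n M K E : ℕ) (hn : 2 ≤ n) :
    ((n : ℝ) + 1) * (n + 1) * (M + 1) * ((n:ℝ) ^ E * (2 * ((n:ℝ) + 1) ^ K) ^ M) ≤
      (n:ℝ) ^ (2 + 2 + (M + 1) + (E + (1 + 2 * K) * M)) := by
  have hnr : (2:ℝ) ≤ n := by exact_mod_cast hn
  have e1 : (n:ℝ) + 1 ≤ (n:ℝ) ^ 2 := by nlinarith
  have e2 : 2 * ((n:ℝ) + 1) ^ K ≤ (n:ℝ) ^ (1 + 2 * K) := by
    rw [pow_add, pow_one, pow_mul]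
    exact mul_le_mul hnr (pow_le_pow_left₀ (by positivity) e1 K) (by positivity) (by positivity)
  have e3 : (M:ℝ) + 1 ≤ (n:ℝ) ^ (M + 1) := by
    have h1 : M + 1 ≤ 2 ^ (M + 1) := Nat.lt_two_pow_self.le
    have h2 : (M:ℝ) + 1 ≤ 2 ^ (M + 1) := by exact_mod_cast h1
    exact h2.trans (pow_le_pow_left₀ (by norm_num) hnr _)
  rw [pow_add _ _ (E + (1 + 2 * K) * M), pow_add _ _ (M + 1), pow_add _ 2 2, pow_add _ E,
    pow_mul _ (1 + 2 * K) M]
  gcongr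

/-- Lemma D -/
lemma lemD (κ : ℝ) (hκ0 : 0 ≤ κ) (hκ : κ < 1/2) (M K : ℕ) (hK : 0 < K) (hKη : 4 ≤ (1/50 : ℝ) * K) :
    ∃ D : ℕ, ∀ᶠ n : ℕ in atTop,
    (cnt (fun A : Fin n → Fin n → Bool => Cov A (n - 1) ∧ ¬ BigRect true (4 * n) A ∧
      (2 ^ cnt (BadRow κ A) - 1) + (2 ^ cnt (BadRow κ (tr A)) - 1) ≤ M) : ℝ) * 2 ^ n ≤
      (n : ℝ) ^ D * 2 ^ (n * n) := by
  obtain ⟨ρ, hρ0, hρ1, hgood⟩ := exists_good_rate κ hκ0 hκ K
  obtain ⟨D0, hD0⟩ := exists_pow_le hρ1 (show (0:ℝ) < 1/4 by norm_num)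
  set D1 := M + D0 + 1 with hD1
  refine ⟨2 + 2 + (M + 1) + ((D1 + 13) + (1 + 2 * K) * M), ?_⟩
  filter_upwards [hgood, eventually_ge_atTop (2 * D1 + 50)] with n hn hn1
  have hn50 : 50 ≤ n := by omega
  have hnr : (50:ℝ) ≤ n := by exact_mod_cast hn50
  set h : ℝ := 2 * ((n:ℝ) + 1) ^ K with hh
  have hh1 : 1 ≤ h := by
    have : 1 ≤ ((n:ℝ) + 1) ^ K := one_le_pow₀ (by linarith)
    rw [hh]; linarith
  have hP1 : 1 ≤ (n:ℝ) ^ (D1 + 13) := one_le_pow₀ (by linarith)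
  have key := total_count n n (n - 1) M (goodSet κ (1/50) K n n) (thinSet K n n)
    (empty_mem_good κ hκ0 _ _ _ _) (empty_mem_thin _ _ _) (fun _ => True)
    (fun A : Fin n → Fin n → Bool => Cov A (n - 1) ∧ ¬ BigRect true (4 * n) A ∧
      (2 ^ cnt (BadRow κ A) - 1) + (2 ^ cnt (BadRow κ (tr A)) - 1) ≤ M)
    (((n:ℝ) ^ (D1 + 13) * h ^ M) * (2 ^ (n * n) / 2 ^ n)) (by positivity) ?_ ?_
  · -- conclude
    have h1 : (cnt (fun A : Fin n → Fin n → Bool => Cov A (n - 1) ∧ ¬ BigRect true (4 * n) A ∧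
      (2 ^ cnt (BadRow κ A) - 1) + (2 ^ cnt (BadRow κ (tr A)) - 1) ≤ M) : ℝ) * 2 ^ n ≤
      (((n : ℝ) + 1) * (n + 1) * (M + 1) * ((n:ℝ) ^ (D1 + 13) * h ^ M)) * 2 ^ (n * n) := by
      calc _ ≤ (((n : ℝ) + 1) * (n + 1) * (M + 1) *
            (((n:ℝ) ^ (D1 + 13) * h ^ M) * (2 ^ (n * n) / 2 ^ n))) * 2 ^ n := by
            exact mul_le_mul_of_nonneg_right key (by positivity)
        _ = _ := by field_simp
    refine h1.trans ?_
    exact mul_le_mul_of_nonneg_right (poly_aux n M K (D1 + 13) (by omega)) (by positivity)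
  · rintro A ⟨h1, h2, h3⟩
    obtain ⟨L0, h4, h5⟩ := isCov_of_cov h1
    obtain ⟨L, h6, h7, h8⟩ := exists_red h4
    obtain ⟨j, hj, h9, h10⟩ := struct_main hK hKη h2 h6 h8 (h7.trans h5) h3
    exact ⟨Tset L, Sset L, trivial, j, hj, h9, h10⟩
  · intro a b j ha _ hb hj hk
    obtain ⟨r, hr⟩ : ∃ r, a + b + r + 1 = n := ⟨n - 1 - a - b, by omega⟩
    have hq : n - 1 - a - b - j = r - j := by omega
    have hjr : j ≤ r := by omega
    rw [hq]
    obtain ⟨q, rfl⟩ := Nat.exists_eq_add_of_le hjr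
    rw [Nat.add_sub_cancel_left]
    have hG := hn n le_rfl
    have hH : ((thinSet K n n).card : ℝ) ≤ h * 2 ^ n := by
      have := card_thin K n n le_rfl
      rw [hh]; exact_mod_cast this
    have e1 : ((goodSet κ (1/50) K n n).card : ℝ) ^ q ≤ ρ ^ (n * q) * 2 ^ (n * q) := by
      calc _ ≤ ((2 * ρ) ^ n) ^ q := pow_le_pow_left₀ (by positivity) hG q
        _ = _ := by rw [← pow_mul, mul_pow, mul_comm]
    have e2 : ((thinSet K n n).card : ℝ) ^ j ≤ h ^ M * 2 ^ (n * j) := by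
      calc _ ≤ (h * 2 ^ n) ^ j := pow_le_pow_left₀ (by positivity) hH j
        _ = h ^ j * 2 ^ (n * j) := by rw [mul_pow, ← pow_mul]
        _ ≤ _ := by gcongr
    have e3 : (n.choose a : ℝ) * (n.choose b) * ρ ^ (n * q) ≤ (n:ℝ) ^ (D1 + 13) * 2 ^ (a * b) := by
      by_cases hqD : D0 ≤ q
      · have h1 : ρ ^ (n * q) ≤ (1/4) ^ n := by
          calc ρ ^ (n * q) ≤ ρ ^ (n * D0) :=
                pow_le_pow_of_le_one hρ0.le hρ1.le (Nat.mul_le_mul_left _ hqD)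
            _ = (ρ ^ D0) ^ n := by rw [← pow_mul, mul_comm]
            _ ≤ (1/4) ^ n := pow_le_pow_left₀ (by positivity) hD0 n
        have h2 : (n.choose a : ℝ) ≤ 2 ^ n := by exact_mod_cast Nat.choose_le_two_pow n a
        have h3 : (n.choose b : ℝ) ≤ 2 ^ n := by exact_mod_cast Nat.choose_le_two_pow n b
        calc (n.choose a : ℝ) * (n.choose b) * ρ ^ (n * q) ≤ 2 ^ n * 2 ^ n * (1/4) ^ n := by gcongr
          _ = 1 := by rw [← mul_pow, ← mul_pow]; norm_num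
          _ ≤ 1 * 1 := by norm_num
          _ ≤ _ := mul_le_mul hP1 (one_le_pow₀ (by norm_num)) (by norm_num) (by positivity)
      · push Not at hqD
        have h1 := comb1 D1 n a b (j + q) (by omega) (by omega) (by omega)
        have h2 : (n.choose a : ℝ) * (n.choose b) ≤ 2 ^ (a * b) * (n:ℝ) ^ (D1 + 13) := by
          exact_mod_cast h1
        calc (n.choose a : ℝ) * (n.choose b) * ρ ^ (n * q) ≤ (n.choose a : ℝ) * (n.choose b) * 1 := by
              gcongr; exact pow_le_one₀ hρ0.le hρ1.le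
          _ ≤ _ := by rw [mul_one, mul_comm ((n:ℝ) ^ (D1 + 13))]; exact h2
    have e4 : (n - a) * (n - b) + n = 0 + n * q + n * j + a * b + n + n := by
      have : (n - a) * (n - b) + n * a + n * b = n * n + a * b := by
        zify [ha, hb]
        ring
      have h5 : n * n = n * a + n * b + n * (j + q) + n := by
        have : n * (a + b + (j + q) + 1) = n * n := by rw [hr]
        rw [← this]; ring
      have h6 : n * (j + q) = n * j + n * q := by ring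
      omega
    have e5 : (2:ℝ) ^ ((n - a) * (n - b)) = 2 ^ (n * q) * 2 ^ (n * j) * 2 ^ (a * b) * 2 ^ n := by
      rw [← pow_add, ← pow_add, ← pow_add]; congr 1; omega
    calc _ ≤ (n.choose a : ℝ) * (n.choose b) * ((ρ ^ (n * q) * 2 ^ (n * q)) * (h ^ M * 2 ^ (n * j))) *
          2 ^ (n * n) := by gcongr
      _ = ((n.choose a : ℝ) * (n.choose b) * ρ ^ (n * q)) * (h ^ M * (2 ^ (n * q) * 2 ^ (n * j)) *
          2 ^ (n * n)) := by ring
      _ ≤ ((n:ℝ) ^ (D1 + 13) * 2 ^ (a * b)) * (h ^ M * (2 ^ (n * q) * 2 ^ (n * j)) *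
          2 ^ (n * n)) := mul_le_mul_of_nonneg_right e3 (by positivity)
      _ = _ := by rw [e5]; field_simp

end H239Schein
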