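import Mathlib
import Pool.Agent.H239R2.LemD
set_option autoImplicit false
open Finset Filter

namespace H239Schein

/-- `B` has a reduced cover by at most `m` rectangles in which some row has no star. -/
def NonStar {m n : ℕ} (B : Fin m → Fin n → Bool) : Prop :=
  ∃ L : Finset (Finset (Fin m) × Finset (Fin n)), IsCov B L ∧ Red L ∧ L.card ≤ m ∧
    (Tset L).Nonempty

/-- Lemma E -/
lemma lemE (κ : ℝ) (hκ0 : 0 ≤ κ) (hκ : κ < 1/2) (K : ℕ) (hK : 0 < K) (hKη : 4 ≤ (1/50 : ℝ) * K) :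
    ∃ θ : ℝ, 0 < θ ∧ θ < 1 ∧ ∃ (D : ℕ), ∀ᶠ m : ℕ in atTop,
    (cnt (fun B : Fin m → Fin (m + 1) → Bool => NonStar B ∧ ¬ BigRect true (4 * (m + 1)) B ∧
      cnt (BadRow κ B) = 0 ∧ cnt (BadRow κ (tr B)) = 0) : ℝ) ≤
      ((m : ℝ) + 1) ^ D * θ ^ m * 2 ^ (m * (m + 1)) := by
  obtain ⟨ρ, hρ0, hρ1, hgood⟩ := exists_good_rate κ hκ0 hκ K
  obtain ⟨D0, hD0⟩ := exists_pow_le hρ1 (show (0:ℝ) < 1/8 by norm_num)
  set θ := max ρ (1/2) with hθ
  have hθ0 : 0 < θ := lt_max_of_lt_left hρ0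
  have hθ1 : θ < 1 := max_lt hρ1 (by norm_num)
  refine ⟨θ, hθ0, hθ1, (2 + 2 + (0 + 1) + (((D0 + 13) + (D0 + 7)) + (1 + 2 * K) * 0)), ?_⟩
  have hgood' := (tendsto_add_atTop_nat 1).eventually hgood
  filter_upwards [hgood', eventually_ge_atTop (2 * D0 + 80)] with m hn hn1
  set n := m + 1 with hnm
  have hn80 : 80 ≤ m := by omega
  have hmr : (80:ℝ) ≤ m := by exact_mod_cast hn80
  have hnr : (n:ℝ) = m + 1 := by rw [hnm]; push_cast; ring
  have hnr2 : (2:ℝ) ≤ n := by rw [hnr]; linarith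
  have hP1 : 1 ≤ (n:ℝ) ^ (D0 + 13) * 2 ^ (D0 + 7) := by
    have h1 : 1 ≤ (n:ℝ) ^ (D0 + 13) := one_le_pow₀ (by linarith)
    have h2 : (1:ℝ) ≤ 2 ^ (D0 + 7) := one_le_pow₀ (by norm_num)
    nlinarith
  set P : ℝ := (n:ℝ) ^ (D0 + 13) * 2 ^ (D0 + 7) with hP
  have key := total_count m n m 0 (goodSet κ (1/50) K m n) (thinSet K m n)
    (empty_mem_good κ hκ0 _ _ _ _) (empty_mem_thin _ _ _) (fun a => a < m)
    (fun B : Fin m → Fin n → Bool => NonStar B ∧ ¬ BigRect true (4 * n) B ∧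
      cnt (BadRow κ B) = 0 ∧ cnt (BadRow κ (tr B)) = 0)
    (P * θ ^ m * 2 ^ (m * n)) (by positivity) ?_ ?_
  · refine key.trans ?_
    have h1 : ((m:ℝ) + 1) * (n + 1) * ((0:ℕ) + 1) * (P * θ ^ m * 2 ^ (m * n)) ≤
        (((n:ℝ) + 1) * (n + 1) * ((0:ℕ) + 1) * ((n:ℝ) ^ (D0 + 13 + (D0 + 7)) *
          (2 * ((n:ℝ) + 1) ^ K) ^ 0)) * (θ ^ m * 2 ^ (m * n)) := by
      have h2 : P ≤ (n:ℝ) ^ (D0 + 13 + (D0 + 7)) := by
        rw [hP, pow_add (n:ℝ) (D0 + 13) (D0 + 7)]
        exact mul_le_mul_of_nonneg_left (pow_le_pow_left₀ (by norm_num) hnr2 _) (by positivity)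
      rw [pow_zero, mul_one]
      calc _ = (((m:ℝ) + 1) * (n + 1) * ((0:ℕ) + 1) * P) * (θ ^ m * 2 ^ (m * n)) := by ring
        _ ≤ _ := by
          gcongr
          omega
    refine h1.trans ?_
    have h3 := poly_aux n 0 K (D0 + 13 + (D0 + 7)) (by omega)
    rw [← hnr]
    calc _ ≤ _ := mul_le_mul_of_nonneg_right h3 (by positivity)
      _ = _ := by ring
  · rintro B ⟨⟨L, h1, h2, h3, h4⟩, h5, h6, h7⟩
    obtain ⟨j, hj, h9, h10⟩ := struct_main (M := 0) hK hKη h5 h1 h2 h3 (by rw [h6, h7]; simp)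
    refine ⟨Tset L, Sset L, ?_, j, hj, h9, h10⟩
    have := card_pos.2 h4
    omega
  · intro a b j ha haW hb hj hk
    have hj0 : j = 0 := by omega
    subst hj0
    obtain ⟨r, hr⟩ : ∃ r, a + b + r = m := ⟨m - a - b, by omega⟩
    have hq : m - a - b - 0 = r := by omega
    rw [hq, pow_zero, mul_one]
    have hG := hn m (by omega)
    have e1 : ((goodSet κ (1/50) K m n).card : ℝ) ^ r ≤ ρ ^ (n * r) * 2 ^ (n * r) := by
      calc _ ≤ ((2 * ρ) ^ n) ^ r := pow_le_pow_left₀ (by positivity) hG r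
        _ = _ := by rw [← pow_mul, mul_pow, mul_comm]
    have hhalf : (1/2:ℝ) ^ n ≤ θ ^ m := by
      calc (1/2:ℝ) ^ n ≤ (1/2:ℝ) ^ m := pow_le_pow_of_le_one (by norm_num) (by norm_num) (by omega)
        _ ≤ θ ^ m := pow_le_pow_left₀ (by norm_num) (le_max_right _ _) m
    have e3 : (m.choose a : ℝ) * (n.choose b) * ρ ^ (n * r) ≤ P * θ ^ m * 2 ^ (b * (a + 1)) := by
      by_cases hqD : D0 ≤ r
      · have h1 : ρ ^ (n * r) ≤ (1/8) ^ n := by
          calc ρ ^ (n * r) ≤ ρ ^ (n * D0) :=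
                pow_le_pow_of_le_one hρ0.le hρ1.le (Nat.mul_le_mul_left _ hqD)
            _ = (ρ ^ D0) ^ n := by rw [← pow_mul, mul_comm]
            _ ≤ (1/8) ^ n := pow_le_pow_left₀ (by positivity) hD0 n
        have h2 : (m.choose a : ℝ) ≤ 2 ^ n := by
          have := (Nat.choose_le_two_pow m a).trans (Nat.pow_le_pow_right (show 0 < 2 by norm_num) (show m ≤ n by omega))
          exact_mod_cast this
        have h3 : (n.choose b : ℝ) ≤ 2 ^ n := by exact_mod_cast Nat.choose_le_two_pow n b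
        calc (m.choose a : ℝ) * (n.choose b) * ρ ^ (n * r) ≤ 2 ^ n * 2 ^ n * (1/8) ^ n := by gcongr
          _ = (1/2) ^ n := by rw [← mul_pow, ← mul_pow]; norm_num
          _ ≤ θ ^ m := hhalf
          _ = 1 * θ ^ m * 1 := by ring
          _ ≤ _ := by
            gcongr
            exact one_le_pow₀ (by norm_num)
      · push Not at hqD
        by_cases hb1 : 1 ≤ b
        · have h1 := comb2 D0 m a b r (by omega) hr hqD hb1
          have h2 : (m.choose a : ℝ) * (n.choose b) * 2 ^ n ≤ 2 ^ (b * (a + 1)) * P := by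
            rw [hP]; exact_mod_cast h1
          have h3 : (m.choose a : ℝ) * (n.choose b) ≤ 2 ^ (b * (a + 1)) * P * (1/2) ^ n := by
            have : ((1:ℝ)/2) ^ n = 1 / 2 ^ n := by rw [div_pow, one_pow]
            rw [this, mul_one_div, le_div_iff₀ (by positivity)]
            exact h2
          calc (m.choose a : ℝ) * (n.choose b) * ρ ^ (n * r) ≤ (m.choose a : ℝ) * (n.choose b) * 1 := by
                gcongr; exact pow_le_one₀ hρ0.le hρ1.le
            _ ≤ 2 ^ (b * (a + 1)) * P * (1/2) ^ n := by rw [mul_one]; exact h3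
            _ ≤ 2 ^ (b * (a + 1)) * P * θ ^ m := by gcongr
            _ = _ := by ring
        · have hb0 : b = 0 := by omega
          subst hb0
          have h1 : m.choose a ≤ m ^ D0 := choose_le_pow_of_sub (by omega) ha (by omega)
          have h2 : (m.choose a : ℝ) ≤ (n:ℝ) ^ (D0 + 13) := by
            have h3 : m.choose a ≤ n ^ (D0 + 13) :=
              h1.trans ((Nat.pow_le_pow_left (by omega) _).trans
                (Nat.pow_le_pow_right (by omega) (by omega)))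
            exact_mod_cast h3
          have h4 : ρ ^ (n * r) ≤ θ ^ m := by
            calc ρ ^ (n * r) ≤ ρ ^ m := by
                  apply pow_le_pow_of_le_one hρ0.le hρ1.le
                  have : n * 1 ≤ n * r := Nat.mul_le_mul_left _ (by omega)
                  omega
              _ ≤ θ ^ m := pow_le_pow_left₀ hρ0.le (le_max_left _ _) m
          have h5 : (1:ℝ) ≤ 2 ^ (D0 + 7) := one_le_pow₀ (by norm_num)
          calc (m.choose a : ℝ) * (n.choose 0) * ρ ^ (n * r) ≤ (n:ℝ) ^ (D0 + 13) * 1 * θ ^ m := by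
                gcongr
                simp
            _ ≤ (n:ℝ) ^ (D0 + 13) * 2 ^ (D0 + 7) * θ ^ m := by gcongr
            _ = _ := by rw [hP]; simp
    have e4 : (m - a) * (n - b) = n * r + b * (a + 1) := by
      have h1 : m - a = b + r := by omega
      have h2 : n - b = a + r + 1 := by omega
      rw [h1, h2]
      have h3 : n = a + b + r + 1 := by omega
      rw [h3]; ring
    calc _ ≤ (m.choose a : ℝ) * (n.choose b) * (ρ ^ (n * r) * 2 ^ (n * r)) * 2 ^ (m * n) := by gcongr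
      _ = ((m.choose a : ℝ) * (n.choose b) * ρ ^ (n * r)) * (2 ^ (n * r) * 2 ^ (m * n)) := by ring
      _ ≤ (P * θ ^ m * 2 ^ (b * (a + 1))) * (2 ^ (n * r) * 2 ^ (m * n)) :=
          mul_le_mul_of_nonneg_right e3 (by positivity)
      _ = _ := by rw [e4, pow_add]; ring

end H239Schein
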