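import Mathlib
import Pool.Agent.H239R2.LemE
set_option autoImplicit false
open Finset Filter

namespace H239Schein

lemma poly_exp (C : ℝ) (D : ℕ) (Θ c : ℝ) (h0 : 0 < Θ) (h : Θ < c) :
    ∀ᶠ m : ℕ in atTop, C * ((m:ℝ) + 1) ^ D * Θ ^ m ≤ c ^ m := by
  have hc : 0 < c := h0.trans h
  have hr : |Θ / c| < 1 := by
    rw [abs_of_nonneg (by positivity), div_lt_one hc]; exact h
  have ht := (tendsto_pow_const_mul_const_pow_of_abs_lt_one D hr).const_mul (|C| * 2 ^ D)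
  rw [mul_zero] at ht
  have hev := ht.eventually (eventually_le_nhds (show (0:ℝ) < 1 by norm_num))
  filter_upwards [hev, eventually_ge_atTop 1] with n hn hn1
  have hn1r : (1:ℝ) ≤ n := by exact_mod_cast hn1
  have h3 : ((n : ℝ) + 1) ^ D ≤ 2 ^ D * (n : ℝ) ^ D := by
    rw [← mul_pow]
    exact pow_le_pow_left₀ (by positivity) (by linarith) D
  calc C * ((n:ℝ) + 1) ^ D * Θ ^ n ≤ |C| * (2 ^ D * (n : ℝ) ^ D) * Θ ^ n := by
        gcongr; exact le_abs_self C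
    _ = (|C| * 2 ^ D * ((n : ℝ) ^ D * (Θ / c) ^ n)) * c ^ n := by
        rw [div_pow]; field_simp
    _ ≤ 1 * c ^ n := by gcongr
    _ = c ^ n := one_mul _

/-- matrices with a row satisfying `Q` -/
lemma cnt_exists_row {X : Type*} [Fintype X] (m : ℕ) (Q : X → Prop) :
    cnt (fun A : Fin m → X => ∃ j, Q (A j)) * Fintype.card X ≤
      m * (cnt Q * Fintype.card X ^ m) := by
  classical
  have h1 : cnt (fun A : Fin m → X => ∃ j, Q (A j)) ≤ ∑ j ∈ (univ : Finset (Fin m)),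
      cnt (fun A : Fin m → X => Q (A j)) := by
    refine le_trans (cnt_mono ?_) (cnt_exists_le _ _)
    rintro A ⟨j, hj⟩
    exact ⟨j, mem_univ _, hj⟩
  calc _ ≤ (∑ j ∈ (univ : Finset (Fin m)), cnt (fun A : Fin m → X => Q (A j))) * Fintype.card X :=
        Nat.mul_le_mul_right _ h1
    _ = ∑ j ∈ (univ : Finset (Fin m)), cnt (fun A : Fin m → X => Q (A j)) * Fintype.card X := by
        rw [sum_mul]
    _ ≤ ∑ j ∈ (univ : Finset (Fin m)), cnt Q * Fintype.card X ^ m := by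
        refine sum_le_sum (fun j _ => ?_)
        have := line_bound (fun A : Fin m → X => Q (A j)) (fun _ => True) j (cnt Q)
          (fun _ _ _ => trivial) (fun A _ => by
            refine le_of_eq ?_
            refine cnt_congr (fun y => ?_)
            simp)
        rw [cnt_true] at this
        simpa using this
    _ = _ := by simp

lemma cnt_not_noHub (α x : ℝ) (hx : 1 ≤ x) (m n : ℕ) :
    (cnt (fun A : Fin m → Fin n → Bool => ¬ NoHub α A) : ℝ) ≤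
      m * (((1 + x) / 2) ^ (1:ℝ) / x ^ α) ^ n * 2 ^ (n * m) := by
  have h1 := cnt_exists_row (X := Fin n → Bool) m (fun r => α * n < ((supp r).card : ℝ))
  have hX : Fintype.card (Fin n → Bool) = 2 ^ n := by simp
  rw [hX] at h1
  have h2 : (cnt (fun r : Fin n → Bool => α * n < ((supp r).card : ℝ)) : ℝ) ≤
      (2 * (((1 + x) / 2) ^ (1:ℝ) / x ^ α)) ^ n := by
    rw [card_supp (fun N : Finset (Fin n) => α * n < (N.card : ℝ))]
    have := upper_tail (C := Fin n) 1 α x hx univ (by simp)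
    rw [Fintype.card_fin] at this
    simpa using this
  have h3 : cnt (fun A : Fin m → Fin n → Bool => ¬ NoHub α A) =
      cnt (fun A : Fin m → Fin n → Bool => ∃ j, α * n < ((supp (A j)).card : ℝ)) := by
    refine cnt_congr (fun A => ?_)
    simp only [NoHub, not_forall, not_le]
  rw [h3]
  have h4 : (cnt (fun A : Fin m → Fin n → Bool => ∃ j, α * n < ((supp (A j)).card : ℝ)) : ℝ) * 2 ^ n ≤
      m * ((cnt (fun r : Fin n → Bool => α * n < ((supp r).card : ℝ)) : ℝ) * (2 ^ n) ^ m) := by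
    exact_mod_cast h1
  have h5 : (cnt (fun A : Fin m → Fin n → Bool => ∃ j, α * n < ((supp (A j)).card : ℝ)) : ℝ) * 2 ^ n ≤
      (m * (((1 + x) / 2) ^ (1:ℝ) / x ^ α) ^ n * 2 ^ (n * m)) * 2 ^ n := by
    calc _ ≤ _ := h4
      _ ≤ m * ((2 * (((1 + x) / 2) ^ (1:ℝ) / x ^ α)) ^ n * (2 ^ n) ^ m) := by gcongr
      _ = _ := by rw [mul_pow, ← pow_mul]; ring
  exact le_of_mul_le_mul_right h5 (by positivity)

lemma cnt_tr {m n : ℕ} (P : (Fin n → Fin m → Bool) → Prop) :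
    cnt (fun B : Fin m → Fin n → Bool => P (tr B)) = cnt P :=
  cnt_equiv (trEquiv (Fin m) (Fin n)) P

lemma cnt_big (m n : ℕ) (hmn : m ≤ n) (b : Bool) :
    (cnt (BigRect (R := Fin m) (C := Fin n) b (4 * n)) : ℝ) ≤ (1/4) ^ n * 2 ^ (m * n) := by
  have h := card_bigRect (R := Fin m) (C := Fin n) b (4 * n)
  rw [Fintype.card_fin, Fintype.card_fin] at h
  have h1 : (cnt (BigRect (R := Fin m) (C := Fin n) b (4 * n)) : ℝ) * 2 ^ (4 * n) ≤
      2 ^ (m + n) * 2 ^ (m * n) := by exact_mod_cast h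
  have h2 : (2:ℝ) ^ (m + n) ≤ 2 ^ (2 * n) := pow_le_pow_right₀ (by norm_num) (by omega)
  have h3 : ((1/4:ℝ) ^ n * 2 ^ (m * n)) * 2 ^ (4 * n) = 2 ^ (2 * n) * 2 ^ (m * n) := by
    have : (1/4:ℝ) ^ n * 2 ^ (4 * n) = 2 ^ (2 * n) := by
      rw [pow_mul, pow_mul, ← mul_pow]; norm_num
    calc _ = ((1/4:ℝ) ^ n * 2 ^ (4 * n)) * 2 ^ (m * n) := by ring
      _ = _ := by rw [this]
  have h4 : (cnt (BigRect (R := Fin m) (C := Fin n) b (4 * n)) : ℝ) * 2 ^ (4 * n) ≤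
      ((1/4:ℝ) ^ n * 2 ^ (m * n)) * 2 ^ (4 * n) := by
    rw [h3]
    exact h1.trans (mul_le_mul_of_nonneg_right h2 (by positivity))
  exact le_of_mul_le_mul_right h4 (by positivity)

/-- almost all `m × (m+1)` matrices have only star covers with `m` rectangles -/
lemma cnt_nonStar : ∃ c : ℝ, 0 < c ∧ c < 1 ∧ ∀ᶠ m : ℕ in atTop,
    (cnt (fun B : Fin m → Fin (m + 1) → Bool => NonStar B) : ℝ) ≤ c ^ m * 2 ^ (m * (m + 1)) := by
  obtain ⟨θ, hθ0, hθ1, D, hE⟩ := lemE (3/8) (by norm_num) (by norm_num) 200 (by norm_num) (by norm_num)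
  obtain ⟨x1, hx1, hx1'⟩ := exists_upper_rate 1 (7/10) (by norm_num) (by norm_num)
  obtain ⟨x2, hx2, hx2'⟩ := exists_upper_rate (7/10) (3/8) (by norm_num) (by norm_num)
  set θ1 := ((1 + x1) / 2) ^ (1:ℝ) / x1 ^ (7/10 : ℝ) with hθ1d
  set θ2 := ((1 + x2) / 2) ^ (7/10 : ℝ) / x2 ^ (3/8 : ℝ) with hθ2d
  have hx1p : 0 < x1 := by linarith
  have hx2p : 0 < x2 := by linarith
  have hθ1p : 0 < θ1 := by positivity
  have hθ2p : 0 < θ2 := by positivity
  set Θ := max (max θ (1/2)) (max θ1 θ2) with hΘ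
  have hΘ1 : Θ < 1 := max_lt (max_lt hθ1 (by norm_num)) (max_lt hx1' hx2')
  have hΘ0 : 0 < Θ := lt_max_of_lt_left (lt_max_of_lt_left hθ0)
  have hθΘ : θ ≤ Θ := (le_max_left _ _).trans (le_max_left _ _)
  have hhΘ : 1/2 ≤ Θ := (le_max_right _ _).trans (le_max_left _ _)
  have hθ1Θ : θ1 ≤ Θ := (le_max_left _ _).trans (le_max_right _ _)
  have hθ2Θ : θ2 ≤ Θ := (le_max_right _ _).trans (le_max_right _ _)
  set c := (Θ + 1) / 2 with hc
  refine ⟨c, by positivity, by rw [hc]; linarith, ?_⟩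
  have hpe := poly_exp 8 (D + 2) Θ c hΘ0 (by rw [hc]; linarith)
  filter_upwards [hE, hpe] with m hm hm2
  set n := m + 1 with hn
  have hnr : (n:ℝ) = m + 1 := by rw [hn]; push_cast; ring
  have hn1 : (1:ℝ) ≤ n := by rw [hnr]; have : (0:ℝ) ≤ m := Nat.cast_nonneg _; linarith
  -- decomposition
  have hdec : cnt (fun B : Fin m → Fin n → Bool => NonStar B) ≤
      cnt (fun B : Fin m → Fin n → Bool => NonStar B ∧ ¬ BigRect true (4 * n) B ∧
        cnt (BadRow (3/8) B) = 0 ∧ cnt (BadRow (3/8) (tr B)) = 0) +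
      (cnt (BigRect (R := Fin m) (C := Fin n) true (4 * n)) +
      (cnt (fun B : Fin m → Fin n → Bool => ¬ NoHub (7/10) B) +
      (cnt (fun B : Fin m → Fin n → Bool => ¬ NoHub (7/10) (tr B)) +
      (cnt (fun B : Fin m → Fin n → Bool => NoHub (7/10) B ∧ 2 * 1 ≤ cnt (BadRow (3/8) B) + 1) +
      cnt (fun B : Fin m → Fin n → Bool => NoHub (7/10) (tr B) ∧
        2 * 1 ≤ cnt (BadRow (3/8) (tr B)) + 1))))) := by
    refine le_trans (cnt_mono ?_) ((cnt_or_le _ _).trans (Nat.add_le_add_left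
      ((cnt_or_le _ _).trans (Nat.add_le_add_left ((cnt_or_le _ _).trans (Nat.add_le_add_left
      ((cnt_or_le _ _).trans (Nat.add_le_add_left (cnt_or_le _ _) _)) _)) _)) _))
    intro B hB
    by_cases h1 : BigRect true (4 * n) B
    · exact Or.inr (Or.inl h1)
    by_cases h2 : NoHub (7/10) B
    swap
    · exact Or.inr (Or.inr (Or.inl h2))
    by_cases h3 : NoHub (7/10) (tr B)
    swap
    · exact Or.inr (Or.inr (Or.inr (Or.inl h3)))
    by_cases h4 : cnt (BadRow (3/8) B) = 0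
    swap
    · exact Or.inr (Or.inr (Or.inr (Or.inr (Or.inl ⟨h2, by omega⟩))))
    by_cases h5 : cnt (BadRow (3/8) (tr B)) = 0
    swap
    · exact Or.inr (Or.inr (Or.inr (Or.inr (Or.inr ⟨h3, by omega⟩))))
    exact Or.inl ⟨hB, h1, h4, h5⟩
  have hdec' : (cnt (fun B : Fin m → Fin n → Bool => NonStar B) : ℝ) ≤
      cnt (fun B : Fin m → Fin n → Bool => NonStar B ∧ ¬ BigRect true (4 * n) B ∧
        cnt (BadRow (3/8) B) = 0 ∧ cnt (BadRow (3/8) (tr B)) = 0) +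
      (cnt (BigRect (R := Fin m) (C := Fin n) true (4 * n)) +
      (cnt (fun B : Fin m → Fin n → Bool => ¬ NoHub (7/10) B) +
      (cnt (fun B : Fin m → Fin n → Bool => ¬ NoHub (7/10) (tr B)) +
      (cnt (fun B : Fin m → Fin n → Bool => NoHub (7/10) B ∧ 2 * 1 ≤ cnt (BadRow (3/8) B) + 1) +
      cnt (fun B : Fin m → Fin n → Bool => NoHub (7/10) (tr B) ∧
        2 * 1 ≤ cnt (BadRow (3/8) (tr B)) + 1))))) := by exact_mod_cast hdec
  -- bounds
  have b1 : (cnt (fun B : Fin m → Fin n → Bool => NonStar B ∧ ¬ BigRect true (4 * n) B ∧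
        cnt (BadRow (3/8) B) = 0 ∧ cnt (BadRow (3/8) (tr B)) = 0) : ℝ) ≤
      ((m : ℝ) + 1) ^ D * θ ^ m * 2 ^ (m * n) := hm
  have b2 := cnt_big m n (by omega) true
  have b3 := cnt_not_noHub (7/10) x1 hx1 m n
  have b4 := cnt_not_noHub (7/10) x1 hx1 n m
  rw [← cnt_tr (m := m) (n := n)] at b4
  have b5 := card_badRows (7/10) (3/8) x2 hx2 m n 1
  have b6 := card_badRows (7/10) (3/8) x2 hx2 n m 1
  rw [← cnt_tr (m := m) (n := n)] at b6
  rw [← hθ1d] at b3 b4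
  rw [← hθ2d] at b5 b6
  set E : ℝ := 2 ^ (m * n) with hEdef
  have hEp : 0 < E := by positivity
  have hE1 : (2:ℝ) ^ (n * m) = E := by rw [hEdef, mul_comm]
  rw [hE1] at b3 b5
  -- common bound
  set Q : ℝ := ((m:ℝ) + 1) ^ (D + 2) * Θ ^ m * E with hQ
  have hm1 : (1:ℝ) ≤ (m:ℝ) + 1 := by rw [← hnr]; exact hn1
  have hpow : ∀ k, k ≤ D + 2 → ((m:ℝ) + 1) ^ k ≤ ((m:ℝ) + 1) ^ (D + 2) := fun k hk =>
    pow_le_pow_right₀ hm1 hk
  have q1 : ((m:ℝ) + 1) ^ D * θ ^ m * E ≤ Q := by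
    rw [hQ]; gcongr
    omega
  have q2 : (1/4:ℝ) ^ n * E ≤ Q := by
    rw [hQ]
    have h1 : (1/4:ℝ) ^ n ≤ Θ ^ m := by
      calc (1/4:ℝ) ^ n ≤ (1/4) ^ m := pow_le_pow_of_le_one (by norm_num) (by norm_num) (by omega)
        _ ≤ Θ ^ m := pow_le_pow_left₀ (by norm_num) (by linarith) m
    calc (1/4:ℝ) ^ n * E ≤ Θ ^ m * E := by gcongr
      _ = 1 * Θ ^ m * E := by ring
      _ ≤ _ := by gcongr; exact one_le_pow₀ hm1
  have hθ1le : θ1 ≤ 1 := hx1'.le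
  have hθ2le : θ2 ≤ 1 := hx2'.le
  have q3 : (m:ℝ) * θ1 ^ n * E ≤ Q := by
    rw [hQ]
    have h1 : θ1 ^ n ≤ Θ ^ m :=
      (pow_le_pow_of_le_one hθ1p.le hθ1le (by omega)).trans (pow_le_pow_left₀ hθ1p.le hθ1Θ m)
    have h2 : (m:ℝ) ≤ ((m:ℝ) + 1) ^ (D + 2) := by
      calc (m:ℝ) ≤ ((m:ℝ) + 1) ^ 1 := by rw [pow_one]; linarith
        _ ≤ _ := hpow 1 (by omega)
    gcongr
  have q4 : (n:ℝ) * θ1 ^ m * E ≤ Q := by
    rw [hQ]
    have h2 : (n:ℝ) ≤ ((m:ℝ) + 1) ^ (D + 2) := by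
      calc (n:ℝ) = ((m:ℝ) + 1) ^ 1 := by rw [pow_one, hnr]
        _ ≤ _ := hpow 1 (by omega)
    gcongr
  have q5 : 2 * ((m:ℝ) ^ (2 * 1) * θ2 ^ (n * 1) * E) ≤ 2 * Q := by
    rw [hQ, mul_one n]
    have h1 : θ2 ^ n ≤ Θ ^ m :=
      (pow_le_pow_of_le_one hθ2p.le hθ2le (by omega)).trans (pow_le_pow_left₀ hθ2p.le hθ2Θ m)
    have h2 : (m:ℝ) ^ (2 * 1) ≤ ((m:ℝ) + 1) ^ (D + 2) := by
      calc (m:ℝ) ^ (2 * 1) ≤ ((m:ℝ) + 1) ^ 2 :=
            pow_le_pow_left₀ (Nat.cast_nonneg _) (by linarith) 2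
        _ ≤ _ := hpow 2 (by omega)
    gcongr
  have q6 : 2 * ((n:ℝ) ^ (2 * 1) * θ2 ^ (m * 1) * E) ≤ 2 * Q := by
    rw [hQ, mul_one, mul_one]
    have h2 : (n:ℝ) ^ 2 ≤ ((m:ℝ) + 1) ^ (D + 2) := by
      rw [hnr]; exact hpow 2 (by omega)
    gcongr
  have hfin : 8 * Q ≤ c ^ m * E := by
    rw [hQ]
    calc _ = (8 * ((m:ℝ) + 1) ^ (D + 2) * Θ ^ m) * E := by ring
      _ ≤ c ^ m * E := by gcongr
  refine hdec'.trans (le_trans (add_le_add (b1.trans q1) (add_le_add (b2.trans q2)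
    (add_le_add (b3.trans q3) (add_le_add (b4.trans q4) (add_le_add (b5.trans q5)
    (b6.trans q6)))))) ?_)
  linarith

end H239Schein
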