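import Mathlib
import Pool.Agent.H239R2.NonStar
set_option autoImplicit false
open Finset Filter

namespace H239Schein

/-- `r` is a Boolean sum of rows of `B` -/
def InSpan {m n : ℕ} (B : Fin m → Fin n → Bool) (r : Fin n → Bool) : Prop :=
  ∃ J : Finset (Fin m), ∀ c, r c = true ↔ ∃ j ∈ J, B j c = true

/-- delete the entry `i` -/
def del {X : Type*} {m : ℕ} (i : Fin (m + 1)) (A : Fin (m + 1) → X) : Fin m → X :=
  fun j => A (i.succAbove j)

/-- row `i` is a Boolean sum of other rows -/
def RS {m n : ℕ} (i : Fin (m + 1)) (A : Fin (m + 1) → Fin n → Bool) : Prop :=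
  InSpan (del i A) (A i)

lemma cov_of_RS {m n : ℕ} (i : Fin (m + 1)) (A : Fin (m + 1) → Fin n → Bool) (h : RS i A) :
    Cov A m := by
  classical
  obtain ⟨J, hJ⟩ := h
  refine ⟨fun j => if j ∈ J then {i.succAbove j, i} else {i.succAbove j},
    fun j => supp (A (i.succAbove j)), ?_⟩
  intro k c
  rcases Fin.eq_self_or_eq_succAbove i k with rfl | ⟨j, rfl⟩
  · rw [hJ c]
    constructor
    · rintro ⟨j, hj, h⟩
      refine ⟨j, ?_, ?_⟩
      · simp [hj]
      · simpa [del] using h
    · rintro ⟨j, hj, h⟩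
      by_cases hjJ : j ∈ J
      · exact ⟨j, hjJ, by simpa [del] using h⟩
      · simp only [hjJ, if_false, mem_singleton] at hj
        exact absurd hj.symm (Fin.succAbove_ne _ _)
  · constructor
    · intro h
      refine ⟨j, ?_, by simpa using h⟩
      beta_reduce
      split_ifs <;> simp
    · rintro ⟨l, hl, h⟩
      have hlj : i.succAbove j = i.succAbove l := by
        beta_reduce at hl
        split_ifs at hl
        · simp only [mem_insert, mem_singleton] at hl
          rcases hl with hl | hl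
          · exact hl
          · exact absurd hl (Fin.succAbove_ne _ _)
        · simpa using hl
      rw [hlj]; simpa using h

lemma nonStar_of_small {m n : ℕ} {B : Fin m → Fin n → Bool}
    {L : Finset (Finset (Fin m) × Finset (Fin n))} (h : IsCov B L) (hL : L.card < m) :
    NonStar B := by
  obtain ⟨L3, h1, h2, h3⟩ := exists_red h
  refine ⟨L3, h1, h3, by omega, ?_⟩
  have h4 := card_Tset L3 h3
  rw [Fintype.card_fin] at h4
  have h5 : (L3.filter (fun p => p.1.card = 1)).card ≤ L3.card := card_filter_le _ _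
  rw [← card_pos]
  omega

lemma hub_case {m n : ℕ} (i : Fin (m + 1)) (A : Fin (m + 1) → Fin n → Bool) (h : Cov A m) :
    RS i A ∨ NonStar (del i A) := by
  classical
  obtain ⟨U, V, hUV⟩ := h
  set U' : Fin m → Finset (Fin m) := fun l => univ.filter (fun j => i.succAbove j ∈ U l) with hU'
  set L0 : Finset (Finset (Fin m) × Finset (Fin n)) :=
    univ.image (fun l : Fin m => (U' l, V l)) with hL0
  have hmem : ∀ l, (U' l, V l) ∈ L0 := fun l => mem_image_of_mem _ (mem_univ _)
  have hcov : IsCov (del i A) L0 := by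
    intro j c
    simp only [del]
    rw [hUV]
    constructor
    · rintro ⟨l, h1, h2⟩
      exact ⟨_, hmem l, by simpa [hU'] using h1, h2⟩
    · rintro ⟨p, hp, h1, h2⟩
      rw [hL0, mem_image] at hp
      obtain ⟨l, _, rfl⟩ := hp
      exact ⟨l, by simpa [hU'] using h1, h2⟩
  have hcard : L0.card ≤ m := card_image_le.trans (by simp)
  by_cases hred : Red L0
  swap
  · obtain ⟨L1, h1, h2⟩ := exists_smaller hcov hred
    exact Or.inr (nonStar_of_small h1 (by omega))
  by_cases hT : (Tset L0).Nonempty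
  · exact Or.inr ⟨L0, hcov, hred, hcard, hT⟩
  rw [not_nonempty_iff_eq_empty] at hT
  have h4 := card_Tset L0 hred
  rw [Fintype.card_fin, hT, card_empty, zero_add] at h4
  have h5 : L0.filter (fun p => p.1.card = 1) = L0 := by
    apply eq_of_subset_of_card_le (filter_subset _ _)
    rw [h4]; exact hcard
  have h6 : ∀ l, (U' l).card = 1 := by
    intro l
    have := hmem l
    rw [← h5, mem_filter] at this
    exact this.2
  left
  refine ⟨univ.filter (fun j => ∃ l, i ∈ U l ∧ U' l = {j}), ?_⟩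
  intro c
  rw [hUV]
  constructor
  · rintro ⟨l, h1, h2⟩
    obtain ⟨j, hj⟩ := card_eq_one.1 (h6 l)
    refine ⟨j, ?_, ?_⟩
    · simp only [mem_filter, mem_univ, true_and]
      exact ⟨l, h1, hj⟩
    · simp only [del]
      rw [hUV]
      refine ⟨l, ?_, h2⟩
      have : j ∈ U' l := by rw [hj]; simp
      simpa [hU'] using this
  · rintro ⟨j, hj, hc⟩
    simp only [mem_filter, mem_univ, true_and] at hj
    obtain ⟨l, h1, h2⟩ := hj
    simp only [del] at hc
    rw [hUV] at hc
    obtain ⟨l', h3, h7⟩ := hc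
    have h8 : j ∈ U' l' := by simpa [hU'] using h3
    obtain ⟨j', hj'⟩ := card_eq_one.1 (h6 l')
    have h9 : U' l' = {j} := by
      rw [hj'] at h8 ⊢
      rw [mem_singleton] at h8
      rw [h8]
    have h10 := hred.1 _ (hmem l') _ (hmem l) (by rw [h9, h2])
    have h11 : V l' = V l := congrArg Prod.snd h10
    exact ⟨l, h1, by rw [← h11]; exact h7⟩

/-- splitting off a row -/
lemma cnt_split {X : Type*} [Fintype X] {m : ℕ} (i : Fin (m + 1)) (P : X → (Fin m → X) → Prop) :
    cnt (fun A : Fin (m + 1) → X => P (A i) (del i A)) = cnt (fun x : X × (Fin m → X) => P x.1 x.2) := by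
  rw [← cnt_equiv (Fin.insertNthEquiv (fun _ : Fin (m + 1) => X) i)]
  refine cnt_congr (fun x => ?_)
  have h1 : (Fin.insertNthEquiv (fun _ : Fin (m + 1) => X) i) x i = x.1 := by
    simp [Fin.insertNthEquiv]
  have h2 : del i ((Fin.insertNthEquiv (fun _ : Fin (m + 1) => X) i) x) = x.2 := by
    funext j
    simp [Fin.insertNthEquiv, del]
  rw [h1, h2]

lemma cov_tr {m n k : ℕ} (A : Fin m → Fin n → Bool) : Cov (tr A) k ↔ Cov A k := by
  constructor
  · rintro ⟨U, V, h⟩
    refine ⟨V, U, fun i c => ?_⟩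
    rw [← tr_apply A, h]
    exact ⟨fun ⟨l, h1, h2⟩ => ⟨l, h2, h1⟩, fun ⟨l, h1, h2⟩ => ⟨l, h2, h1⟩⟩
  · rintro ⟨U, V, h⟩
    refine ⟨V, U, fun i c => ?_⟩
    rw [tr_apply A, h]
    exact ⟨fun ⟨l, h1, h2⟩ => ⟨l, h2, h1⟩, fun ⟨l, h1, h2⟩ => ⟨l, h2, h1⟩⟩

/-- number of pairs (matrix, element of its row space) -/
noncomputable def spanPairs (m n : ℕ) : ℕ :=
  cnt (fun x : (Fin n → Bool) × (Fin m → Fin n → Bool) => InSpan x.2 x.1)

lemma cnt_RS {m n : ℕ} (i : Fin (m + 1)) :
    cnt (fun A : Fin (m + 1) → Fin n → Bool => RS i A) = spanPairs m n :=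
  cnt_split i (fun r B => InSpan B r)

end H239Schein
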