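import Mathlib
import Pool.Agent.H239R2.Span
set_option autoImplicit false
open Finset Filter

namespace H239Schein

lemma cnt_span_le (m n : ℕ) (B : Fin m → Fin n → Bool) : cnt (InSpan B) ≤ 2 ^ n := by
  refine (cnt_le_card _).trans ?_
  simp

/-- the row space is small if there is no large zero rectangle -/
lemma cnt_span_small (m n : ℕ) (hmn : m ≤ n) (hn : 10000 ≤ n) (B : Fin m → Fin n → Bool)
    (h : ¬ BigRect false (4 * n) B) : (cnt (InSpan B) : ℝ) ≤ 2 * (7/6 : ℝ) ^ n := by
  classical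
  have h1 : cnt (InSpan B) ≤
      cnt (fun r : Fin n → Bool => (((supp r)ᶜ.card : ℕ) : ℝ) ≤ (1/50) * n) +
      cnt (fun r : Fin n → Bool => InSpan B r ∧
        ((univ.filter (fun j => supp (B j) ⊆ supp r)).card : ℝ) ≤ (1/50) * n) := by
    refine le_trans (cnt_mono ?_) (cnt_or_le _ _)
    intro r hr
    by_cases h2 : (((supp r)ᶜ.card : ℕ) : ℝ) ≤ (1/50) * n
    · exact Or.inl h2
    · right
      refine ⟨hr, ?_⟩
      by_contra h3
      push Not at h2 h3
      apply h
      refine ⟨univ.filter (fun j => supp (B j) ⊆ supp r), (supp r)ᶜ, ?_, ?_⟩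
      · have hnr : (10000:ℝ) ≤ n := by exact_mod_cast hn
        have h4 : (1/50 : ℝ) * n * ((1/50) * n) <
            ((univ.filter (fun j => supp (B j) ⊆ supp r)).card : ℝ) * (((supp r)ᶜ.card : ℕ) : ℝ) := by
          apply mul_lt_mul'' h3 h2 (by positivity) (by positivity)
        have h5 : (4:ℝ) * n ≤ (1/50 : ℝ) * n * ((1/50) * n) := by nlinarith
        have h6 : (4:ℝ) * n ≤ ((univ.filter (fun j => supp (B j) ⊆ supp r)).card : ℝ) *
          (((supp r)ᶜ.card : ℕ) : ℝ) := by linarith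
        exact_mod_cast h6
      · intro j hj c hc
        simp only [mem_filter, mem_univ, true_and] at hj
        rw [mem_compl] at hc
        by_contra h7
        apply hc
        apply hj
        simpa using h7
  have h2 : (cnt (fun r : Fin n → Bool => (((supp r)ᶜ.card : ℕ) : ℝ) ≤ (1/50) * n) : ℝ) ≤
      (7/6 : ℝ) ^ n := by
    refine le_trans ?_ (cnt_eta n)
    norm_cast
    refine cnt_inj (fun r => (supp r)ᶜ) (fun r hr => hr) ?_
    intro r s _ _ hrs
    exact supp_injective (compl_injective hrs)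
  have h3 : (cnt (fun r : Fin n → Bool => InSpan B r ∧
        ((univ.filter (fun j => supp (B j) ⊆ supp r)).card : ℝ) ≤ (1/50) * n) : ℝ) ≤
      (7/6 : ℝ) ^ n := by
    refine le_trans ?_ (cnt_eta' m n hmn)
    norm_cast
    refine cnt_inj (fun r => univ.filter (fun j => supp (B j) ⊆ supp r)) (fun r hr => hr.2) ?_
    rintro r s ⟨hr, _⟩ ⟨hs, _⟩ hrs
    have key : ∀ r s : Fin n → Bool, InSpan B r →
        univ.filter (fun j => supp (B j) ⊆ supp r) = univ.filter (fun j => supp (B j) ⊆ supp s) →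
        ∀ c, r c = true → s c = true := by
      rintro r s ⟨J, hJ⟩ hrs c hc
      obtain ⟨j, hj, hjc⟩ := (hJ c).1 hc
      have h4 : j ∈ univ.filter (fun j => supp (B j) ⊆ supp r) := by
        simp only [mem_filter, mem_univ, true_and]
        intro d hd
        rw [mem_supp] at hd ⊢
        exact (hJ d).2 ⟨j, hj, hd⟩
      rw [hrs] at h4
      simp only [mem_filter, mem_univ, true_and] at h4
      have := h4 ((mem_supp _ _).2 hjc)
      simpa using this
    funext c
    exact Bool.eq_iff_iff.2 ⟨key r s hr hrs c, key s r hs hrs.symm c⟩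
  have h4 := (Nat.cast_le (α := ℝ)).2 h1
  push_cast at h4
  linarith

lemma spanPairs_eq_sum (m n : ℕ) :
    spanPairs m n = ∑ B : Fin m → Fin n → Bool, cnt (InSpan B) := by
  unfold spanPairs
  rw [← cnt_prod_sum (fun (B : Fin m → Fin n → Bool) r => InSpan B r)]
  exact cnt_equiv (Equiv.prodComm _ _) (fun x : (Fin m → Fin n → Bool) × (Fin n → Bool) =>
    InSpan x.1 x.2)

open Classical in
/-- weighted sums over matrices split according to the existence of large zero rectangles -/
lemma sum_split {m n : ℕ} (w : ℕ) (P : (Fin m → Fin n → Bool) → Prop)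
    (g : (Fin m → Fin n → Bool) → ℝ) (a b : ℝ) (ha : 0 ≤ a) (hb : 0 ≤ b)
    (h1 : ∀ B, ¬ BigRect false w B → g B ≤ a) (h2 : ∀ B, g B ≤ b) :
    ∑ B ∈ univ.filter P, g B ≤
      a * cnt P + b * cnt (BigRect (R := Fin m) (C := Fin n) false w) := by
  rw [cnt_eq, cnt_eq]
  rw [← Finset.sum_filter_add_sum_filter_not (univ.filter P)
    (fun B : Fin m → Fin n → Bool => BigRect false w B)]
  rw [add_comm]
  refine add_le_add ?_ ?_
  · calc _ ≤ ∑ B ∈ (univ.filter P).filter (fun B => ¬ BigRect false w B), a := by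
          refine sum_le_sum (fun B hB => ?_)
          rw [mem_filter] at hB
          exact h1 B hB.2
      _ = a * ((univ.filter P).filter (fun B => ¬ BigRect false w B)).card := by
          rw [sum_const, nsmul_eq_mul, mul_comm]
      _ ≤ a * (univ.filter P).card := by
          refine mul_le_mul_of_nonneg_left ?_ ha
          exact_mod_cast card_filter_le _ _
  · calc _ ≤ ∑ B ∈ (univ.filter P).filter (fun B => BigRect false w B), b :=
          sum_le_sum (fun B _ => h2 B)
      _ = b * ((univ.filter P).filter (fun B => BigRect false w B)).card := by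
          rw [sum_const, nsmul_eq_mul, mul_comm]
      _ ≤ b * (univ.filter (fun B : Fin m → Fin n → Bool => BigRect false w B)).card := by
          refine mul_le_mul_of_nonneg_left ?_ hb
          have : (univ.filter P).filter (fun B => BigRect false w B) ⊆
              univ.filter (fun B : Fin m → Fin n → Bool => BigRect false w B) := by
            intro B hB
            rw [mem_filter] at hB ⊢
            exact ⟨mem_univ _, hB.2⟩
          exact_mod_cast card_le_card this

lemma spanPairs_le (m n : ℕ) (hmn : m ≤ n) (hn : 10000 ≤ n) :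
    (spanPairs m n : ℝ) ≤ 3 * (7/6 : ℝ) ^ n * 2 ^ (m * n) := by
  classical
  have h1 := sum_split (m := m) (n := n) (4 * n) (fun _ => True)
    (fun B => (cnt (InSpan B) : ℝ)) (2 * (7/6 : ℝ) ^ n) (2 ^ n) (by positivity) (by positivity)
    (fun B hB => cnt_span_small m n hmn hn B hB) (fun B => by exact_mod_cast cnt_span_le m n B)
  rw [cnt_true] at h1
  simp only [filter_true, Fintype.card_fun, Fintype.card_fin, Fintype.card_bool] at h1
  have h2 : (spanPairs m n : ℝ) = ∑ B : Fin m → Fin n → Bool, (cnt (InSpan B) : ℝ) := by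
    rw [spanPairs_eq_sum]; push_cast; rfl
  rw [h2]
  refine h1.trans ?_
  have h3 := cnt_big m n hmn false
  have h4 : (((2 ^ n) ^ m : ℕ) : ℝ) = 2 ^ (m * n) := by
    rw [← pow_mul, mul_comm n m]; norm_cast
  rw [h4]
  have h5 : (1:ℝ) ≤ (7/6 : ℝ) ^ n := one_le_pow₀ (by norm_num)
  calc _ ≤ 2 * (7/6 : ℝ) ^ n * 2 ^ (m * n) + 2 ^ n * ((1/4) ^ n * 2 ^ (m * n)) := by gcongr
    _ = (2 * (7/6 : ℝ) ^ n + (2 * (1/4)) ^ n) * 2 ^ (m * n) := by rw [mul_pow]; ring
    _ ≤ (2 * (7/6 : ℝ) ^ n + (7/6 : ℝ) ^ n) * 2 ^ (m * n) := by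
        gcongr
        norm_num
    _ = _ := by ring

/-- two equal rows -/
lemma cnt_eq_rows {X : Type*} [Fintype X] {m : ℕ} (i i' : Fin m) (h : i ≠ i') :
    cnt (fun A : Fin m → X => A i = A i') * Fintype.card X ≤ Fintype.card X ^ m := by
  have := line_bound (fun A : Fin m → X => A i = A i') (fun _ => True) i 1
    (fun _ _ _ => trivial) (fun A _ => by
      classical
      rw [cnt_eq, card_le_one]
      intro y hy z hz
      simp only [mem_filter, mem_univ, true_and, Function.update_self,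
        Function.update_of_ne h.symm] at hy hz
      rw [hy, hz])
  rw [cnt_true] at this
  simpa using this

/-- one-sided double dependence -/
lemma cnt_double_aux (m n : ℕ) (hmn : m + 1 ≤ n) (hn : 10000 ≤ n) (i : Fin (m + 2))
    (k : Fin (m + 1)) :
    (cnt (fun A : Fin (m + 2) → Fin n → Bool => RS k (del i A) ∧ InSpan (del i A) (A i)) : ℝ) ≤
      (6 * (49/36 : ℝ) ^ n + 1) * 2 ^ (m * n) := by
  classical
  rw [cnt_split i (fun r B => RS k B ∧ InSpan B r)]
  rw [← cnt_equiv (Equiv.prodComm (Fin (m + 1) → Fin n → Bool) (Fin n → Bool))]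
  have h0 := cnt_prod_sum (fun (B : Fin (m + 1) → Fin n → Bool) (r : Fin n → Bool) =>
    RS k B ∧ InSpan B r)
  have h1 : cnt (fun a : (Fin (m + 1) → Fin n → Bool) × (Fin n → Bool) =>
      RS k ((Equiv.prodComm (Fin (m + 1) → Fin n → Bool) (Fin n → Bool)) a).2 ∧
      InSpan ((Equiv.prodComm (Fin (m + 1) → Fin n → Bool) (Fin n → Bool)) a).2
        ((Equiv.prodComm (Fin (m + 1) → Fin n → Bool) (Fin n → Bool)) a).1) =
      ∑ B ∈ univ.filter (fun B : Fin (m + 1) → Fin n → Bool => RS k B), cnt (InSpan B) := by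
    refine h0.trans ?_
    rw [sum_filter]
    refine sum_congr rfl (fun B _ => ?_)
    split_ifs with hB
    · exact cnt_congr (fun r => by simp [hB])
    · rw [cnt_eq]; simp [hB]
  rw [h1]
  push_cast
  have h2 := sum_split (m := m + 1) (n := n) (4 * n) (fun B => RS k B)
    (fun B => (cnt (InSpan B) : ℝ)) (2 * (7/6 : ℝ) ^ n) (2 ^ n) (by positivity) (by positivity)
    (fun B hB => cnt_span_small (m + 1) n hmn hn B hB)
    (fun B => by exact_mod_cast cnt_span_le (m + 1) n B)
  refine h2.trans ?_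
  rw [cnt_RS]
  have h3 := cnt_big (m + 1) n hmn false
  have h4 := spanPairs_le m n (by omega) hn
  have h5 : (2:ℝ) ^ ((m + 1) * n) = 2 ^ (m * n) * 2 ^ n := by rw [← pow_add]; congr 1; ring
  rw [h5] at h3
  calc _ ≤ 2 * (7/6 : ℝ) ^ n * (3 * (7/6 : ℝ) ^ n * 2 ^ (m * n)) +
        2 ^ n * ((1/4) ^ n * (2 ^ (m * n) * 2 ^ n)) := by gcongr
    _ = (6 * ((7/6 : ℝ) * (7/6)) ^ n + (2 * (1/4) * 2) ^ n) * 2 ^ (m * n) := by
        simp only [mul_pow]; ring
    _ = _ := by norm_num

/-- rows `i ≠ i'` both dependent -/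
lemma cnt_two_rows (m n : ℕ) (hmn : m + 1 ≤ n) (hn : 10000 ≤ n) (i i' : Fin (m + 2)) (h : i ≠ i') :
    (cnt (fun A : Fin (m + 2) → Fin n → Bool => RS i A ∧ RS i' A) : ℝ) ≤
      2 ^ ((m + 1) * n) + 2 * ((6 * (49/36 : ℝ) ^ n + 1) * 2 ^ (m * n)) := by
  classical
  -- one sided inclusion
  have key : ∀ (i i' : Fin (m + 2)) (k : Fin (m + 1)), i' = i.succAbove k →
      ∀ A : Fin (m + 2) → Fin n → Bool, RS i A → RS i' A → (∃ c, A i c = true ∧ A i' c ≠ true) →
      RS k (del i A) ∧ InSpan (del i A) (A i) := by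
    rintro i i' k rfl A h1 h2 ⟨c0, hc0, hc0'⟩
    refine ⟨?_, h1⟩
    obtain ⟨J, hJ⟩ := h2
    refine ⟨univ.filter (fun l => ∃ j ∈ J, (i.succAbove k).succAbove j = i.succAbove (k.succAbove l)), ?_⟩
    intro c
    have h3 : del i A k c = A (i.succAbove k) c := rfl
    rw [h3, hJ c]
    constructor
    · rintro ⟨j, hj, hjc⟩
      simp only [del] at hjc
      -- the row used is not row i
      rcases Fin.eq_self_or_eq_succAbove i ((i.succAbove k).succAbove j) with h4 | ⟨l0, h4⟩
      · exfalso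
        apply hc0'
        rw [hJ c0]
        refine ⟨j, hj, ?_⟩
        simp only [del]
        rw [h4]; exact hc0
      · have h5 : l0 ≠ k := by
          rintro rfl
          exact Fin.succAbove_ne _ _ h4
        obtain ⟨l, hl⟩ := Fin.exists_succAbove_eq h5
        refine ⟨l, ?_, ?_⟩
        · simp only [mem_filter, mem_univ, true_and]
          exact ⟨j, hj, by rw [hl, h4]⟩
        · simp only [del]
          rw [hl, ← h4]; exact hjc
    · rintro ⟨l, hl, hlc⟩
      simp only [mem_filter, mem_univ, true_and] at hl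
      obtain ⟨j, hj, h4⟩ := hl
      refine ⟨j, hj, ?_⟩
      simp only [del] at hlc ⊢
      rw [h4]; exact hlc
  obtain ⟨k, hk⟩ := Fin.exists_succAbove_eq h.symm
  obtain ⟨k', hk'⟩ := Fin.exists_succAbove_eq h
  have h1 : cnt (fun A : Fin (m + 2) → Fin n → Bool => RS i A ∧ RS i' A) ≤
      cnt (fun A : Fin (m + 2) → Fin n → Bool => A i = A i') +
      (cnt (fun A : Fin (m + 2) → Fin n → Bool => RS k (del i A) ∧ InSpan (del i A) (A i)) +
      cnt (fun A : Fin (m + 2) → Fin n → Bool => RS k' (del i' A) ∧ InSpan (del i' A) (A i'))) := by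
    refine le_trans (cnt_mono ?_) ((cnt_or_le _ _).trans (Nat.add_le_add_left (cnt_or_le _ _) _))
    rintro A ⟨h1, h2⟩
    by_cases h3 : A i = A i'
    · exact Or.inl h3
    by_cases h4 : ∃ c, A i c = true ∧ A i' c ≠ true
    · exact Or.inr (Or.inl (key i i' k hk.symm A h1 h2 h4))
    by_cases h5 : ∃ c, A i' c = true ∧ A i c ≠ true
    · exact Or.inr (Or.inr (key i' i k' hk'.symm A h2 h1 h5))
    exfalso
    push Not at h4 h5
    apply h3
    funext c
    exact Bool.eq_iff_iff.2 ⟨h4 c, h5 c⟩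
  have h2 := cnt_eq_rows (X := Fin n → Bool) i i' h
  have h3 : (cnt (fun A : Fin (m + 2) → Fin n → Bool => A i = A i') : ℝ) ≤ 2 ^ ((m + 1) * n) := by
    have h4 : cnt (fun A : Fin (m + 2) → Fin n → Bool => A i = A i') * 2 ^ n ≤
        2 ^ ((m + 1) * n) * 2 ^ n := by
      have h5 : Fintype.card (Fin n → Bool) = 2 ^ n := by simp
      rw [h5] at h2
      refine h2.trans (le_of_eq ?_)
      rw [← pow_mul, ← pow_add]; congr 1; ring
    exact_mod_cast Nat.le_of_mul_le_mul_right h4 (by positivity)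
  have h4 := cnt_double_aux m n hmn hn i k
  have h5 := cnt_double_aux m n hmn hn i' k'
  have h6 := (Nat.cast_le (α := ℝ)).2 h1
  push_cast at h6
  linarith

/-- a dependent row and a dependent column -/
lemma cnt_row_col (m : ℕ) (hm : 10000 ≤ m) (i c : Fin (m + 1)) :
    (cnt (fun A : Fin (m + 1) → Fin (m + 1) → Bool => RS i A ∧ RS c (tr A)) : ℝ) ≤
      2 * (4 * (49/36 : ℝ) ^ m + 1) * 2 ^ (m * m) := by
  classical
  have h1 : cnt (fun A : Fin (m + 1) → Fin (m + 1) → Bool => RS i A ∧ RS c (tr A)) ≤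
      cnt (fun x : (Fin m → Fin m → Bool) × (Bool × ((Fin m → Bool) × (Fin m → Bool))) =>
        True ∧ (InSpan x.1 x.2.2.1 ∧ InSpan (tr x.1) x.2.2.2)) := by
    refine cnt_inj (fun A => (fun j => del c (A (i.succAbove j)),
      (A i c, (del c (A i), fun j => A (i.succAbove j) c)))) ?_ ?_
    · rintro A ⟨⟨J, hJ⟩, ⟨J', hJ'⟩⟩
      refine ⟨trivial, ⟨J, fun d => ?_⟩, ⟨J', fun j => ?_⟩⟩
      · exact hJ (c.succAbove d)
      · exact hJ' (i.succAbove j)
    · intro A B _ _ h
      simp only [Prod.mk.injEq] at h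
      obtain ⟨h1, h2, h3, h4⟩ := h
      funext k d
      rcases Fin.eq_self_or_eq_succAbove i k with rfl | ⟨j, rfl⟩
      · rcases Fin.eq_self_or_eq_succAbove c d with rfl | ⟨e, rfl⟩
        · exact h2
        · exact congrFun h3 e
      · rcases Fin.eq_self_or_eq_succAbove c d with rfl | ⟨e, rfl⟩
        · exact congrFun h4 j
        · exact congrFun (congrFun h1 j) e
  have h2 : cnt (fun x : (Fin m → Fin m → Bool) × (Bool × ((Fin m → Bool) × (Fin m → Bool))) =>
        True ∧ (InSpan x.1 x.2.2.1 ∧ InSpan (tr x.1) x.2.2.2)) =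
      ∑ B : Fin m → Fin m → Bool, 2 * (cnt (InSpan B) * cnt (InSpan (tr B))) := by
    rw [cnt_prod_sum (fun (B : Fin m → Fin m → Bool) (y : Bool × ((Fin m → Bool) × (Fin m → Bool))) =>
      True ∧ (InSpan B y.2.1 ∧ InSpan (tr B) y.2.2))]
    refine sum_congr rfl (fun B _ => ?_)
    rw [cnt_prod (fun _ : Bool => True) (fun z : (Fin m → Bool) × (Fin m → Bool) =>
      InSpan B z.1 ∧ InSpan (tr B) z.2), cnt_true, cnt_prod]
    simp
  have h3 := sum_split (m := m) (n := m) (4 * m) (fun _ => True)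
    (fun B => 2 * ((cnt (InSpan B) : ℝ) * cnt (InSpan (tr B))))
    (2 * ((2 * (7/6 : ℝ) ^ m) * (2 * (7/6 : ℝ) ^ m))) (2 * (2 ^ m * 2 ^ m))
    (by positivity) (by positivity) ?_ ?_
  · rw [cnt_true] at h3
    simp only [filter_true, Fintype.card_fun, Fintype.card_fin, Fintype.card_bool] at h3
    have h4 : (((2 ^ m) ^ m : ℕ) : ℝ) = 2 ^ (m * m) := by
      rw [← pow_mul]; norm_cast
    rw [h4] at h3
    have h5 := cnt_big m m le_rfl false
    have h6 := (Nat.cast_le (α := ℝ)).2 (h1.trans_eq h2)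
    push_cast at h6
    refine h6.trans (h3.trans ?_)
    calc _ ≤ 2 * ((2 * (7/6 : ℝ) ^ m) * (2 * (7/6 : ℝ) ^ m)) * 2 ^ (m * m) +
          2 * (2 ^ m * 2 ^ m) * ((1/4) ^ m * 2 ^ (m * m)) := by gcongr
      _ = (8 * ((7/6 : ℝ) * (7/6)) ^ m + 2 * (2 * 2 * (1/4)) ^ m) * 2 ^ (m * m) := by
          simp only [mul_pow]; ring
      _ = _ := by norm_num; ring
  · intro B hB
    have hB' : ¬ BigRect false (4 * m) (tr B) := by
      rintro ⟨U, V, h7, h8⟩
      exact hB ⟨V, U, by rw [mul_comm V.card]; exact h7, fun i hi c hc => h8 c hc i hi⟩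
    have e1 := cnt_span_small m m le_rfl hm B hB
    have e2 := cnt_span_small m m le_rfl hm (tr B) hB'
    gcongr
  · intro B
    have e1 : (cnt (InSpan B) : ℝ) ≤ 2 ^ m := by exact_mod_cast cnt_span_le m m B
    have e2 : (cnt (InSpan (tr B)) : ℝ) ≤ 2 ^ m := by exact_mod_cast cnt_span_le m m (tr B)
    gcongr

end H239Schein
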