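import Mathlib
import Pool.Agent.H239R2.Pairs
set_option autoImplicit false
open Finset Filter

namespace H239Schein

lemma cnt_pi {ι X : Type*} [Fintype ι] [DecidableEq ι] [Fintype X] (Q : ι → X → Prop) :
    cnt (fun f : ι → X => ∀ i, Q i (f i)) = ∏ i, cnt (Q i) := by
  classical
  simp_rw [cnt_eq]
  rw [← Fintype.card_piFinset]
  congr 1
  ext f
  simp

lemma cnt_not {α : Type*} [Fintype α] (P : α → Prop) :
    (cnt (fun a => ¬ P a) : ℝ) = (Fintype.card α : ℝ) - cnt P := by
  classical
  rw [cnt_eq, cnt_eq]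
  have := Finset.card_filter_add_card_filter_not (s := (univ : Finset α)) P
  rw [card_univ] at this
  have h : ((univ.filter P).card : ℝ) + (univ.filter (fun a => ¬ P a)).card = Fintype.card α := by
    exact_mod_cast this
  linarith

lemma cnt_pattern {n : ℕ} (D : Finset (Fin n)) (f : Fin n → Bool) :
    cnt (fun y : Fin n → Bool => ∀ d ∈ D, y d = f d) = 2 ^ (n - D.card) := by
  classical
  have h1 : cnt (fun y : Fin n → Bool => ∀ d ∈ D, y d = f d) =
      cnt (fun x : ({d // d ∈ D} → Bool) × ({d // ¬ d ∈ D} → Bool) =>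
        (x.1 = fun d : {d // d ∈ D} => f d) ∧ True) := by
    rw [← cnt_equiv (Equiv.piEquivPiSubtypeProd (fun d => d ∈ D) (fun _ : Fin n => Bool))]
    refine cnt_congr (fun y => ?_)
    simp only [Equiv.piEquivPiSubtypeProd_apply, and_true]
    constructor
    · intro h; funext d; exact h d d.2
    · intro h d hd; exact congrFun h ⟨d, hd⟩
  rw [h1, cnt_prod (fun x : {d // d ∈ D} → Bool => x = fun d : {d // d ∈ D} => f d)
    (fun _ : {d // ¬ d ∈ D} → Bool => True), cnt_true]
  have h2 : cnt (fun x : {d // d ∈ D} → Bool => x = fun d : {d // d ∈ D} => f d) = 1 := by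
    rw [cnt_eq, card_eq_one]
    exact ⟨fun d : {d // d ∈ D} => f d, by ext; simp⟩
  rw [h2, one_mul, Fintype.card_fun, Fintype.card_bool]
  congr 1
  rw [Fintype.card_subtype_compl, Fintype.card_fin, Fintype.card_coe]

/-- vanishing on `Z` -/
def Van {n : ℕ} (Z : Finset (Fin n)) (y : Fin n → Bool) : Prop := ∀ d ∈ Z, y d = false

lemma cnt_Van {n : ℕ} (Z : Finset (Fin n)) : cnt (Van Z) = 2 ^ (n - Z.card) :=
  cnt_pattern Z (fun _ => false)

lemma inSpan_iff {m n : ℕ} (B : Fin m → Fin n → Bool) (r : Fin n → Bool) :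
    InSpan B r ↔ ∀ c, r c = true → ∃ j, Van ((supp r)ᶜ) (B j) ∧ B j c = true := by
  classical
  constructor
  · rintro ⟨J, hJ⟩ c hc
    obtain ⟨j, hj, hjc⟩ := (hJ c).1 hc
    refine ⟨j, ?_, hjc⟩
    intro d hd
    rw [mem_compl, mem_supp] at hd
    by_contra h
    exact hd ((hJ d).2 ⟨j, hj, by simpa using h⟩)
  · intro h
    refine ⟨univ.filter (fun j => Van ((supp r)ᶜ) (B j)), fun c => ?_⟩
    simp only [mem_filter, mem_univ, true_and]
    constructor
    · intro hc; exact h c hc
    · rintro ⟨j, hj, hjc⟩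
      by_contra hc
      have := hj c (by rw [mem_compl, mem_supp]; exact hc)
      rw [this] at hjc
      exact absurd hjc (by simp)

/-- matrices without zero columns -/
lemma cnt_nonzero_cols {m n : ℕ} (J : Finset (Fin m)) (Z : Finset (Fin n)) :
    cnt (fun B : {j // j ∈ J} → Fin n → Bool => (∀ j, Van Z (B j)) ∧
      ∀ c, c ∉ Z → ∃ j, B j c = true) = (2 ^ J.card - 1) ^ (n - Z.card) := by
  classical
  have h1 : cnt (fun B : {j // j ∈ J} → Fin n → Bool => (∀ j, Van Z (B j)) ∧
      ∀ c, c ∉ Z → ∃ j, B j c = true) =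
      cnt (fun B : Fin n → {j // j ∈ J} → Bool => ∀ c,
        if c ∈ Z then (B c = fun _ => false) else ¬ (B c = fun _ => false)) := by
    rw [← cnt_equiv (trEquiv {j // j ∈ J} (Fin n))]
    refine cnt_congr (fun B => ?_)
    constructor
    · rintro ⟨h1, h2⟩ c
      split_ifs with hc
      · funext j; exact h1 j c hc
      · intro h
        obtain ⟨j, hj⟩ := h2 c hc
        have h3 := congrFun h j
        have h4 : (trEquiv {j // j ∈ J} (Fin n)) B c j = B j c := rfl
        rw [h4, hj] at h3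
        exact absurd h3 (by simp)
    · intro h
      refine ⟨fun j d hd => ?_, fun c hc => ?_⟩
      · have h1 := h d
        rw [if_pos hd] at h1
        exact congrFun h1 j
      · have h1 := h c
        rw [if_neg hc] at h1
        by_contra h2
        push Not at h2
        apply h1
        funext j
        have := h2 j
        simp only [ne_eq, Bool.not_eq_true] at this
        exact this
  rw [h1, cnt_pi (fun c (y : {j // j ∈ J} → Bool) =>
    if c ∈ Z then (y = fun _ => false) else ¬ (y = fun _ => false))]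
  have h2 : ∀ c, cnt (fun y : {j // j ∈ J} → Bool =>
      if c ∈ Z then (y = fun _ => false) else ¬ (y = fun _ => false)) =
      if c ∈ Z then 1 else 2 ^ J.card - 1 := by
    intro c
    split_ifs with hc
    · rw [cnt_eq, card_eq_one]
      exact ⟨fun _ => false, by ext; simp⟩
    · rw [cnt_eq]
      have : univ.filter (fun y : {j // j ∈ J} → Bool => ¬ (y = fun _ => false)) =
          univ.erase (fun _ => false) := by ext; simp
      rw [this, card_erase_of_mem (mem_univ _), card_univ, Fintype.card_fun, Fintype.card_bool,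
        Fintype.card_coe]
  simp_rw [h2]
  rw [prod_ite, prod_const, prod_const, one_pow, one_mul]
  congr 1
  rw [show (univ.filter (fun c => c ∉ Z)) = Zᶜ by ext; simp, card_compl, Fintype.card_fin]

lemma cnt_inSpan_fixed {m n : ℕ} (r : Fin n → Bool) :
    (cnt (fun B : Fin m → Fin n → Bool => InSpan B r) : ℝ) =
      ∑ j ∈ range (m + 1), (m.choose j : ℝ) *
        ((2 ^ n - 2 ^ (n - ((supp r)ᶜ).card)) ^ (m - j) * (2 ^ j - 1) ^ (n - ((supp r)ᶜ).card)) := by
  classical
  set Z := (supp r)ᶜ with hZ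
  have h1 : cnt (fun B : Fin m → Fin n → Bool => InSpan B r) =
      ∑ J : Finset (Fin m), cnt (fun B : Fin m → Fin n → Bool =>
        univ.filter (fun j => Van Z (B j)) = J ∧ InSpan B r) := by
    have := cnt_prod_sum (fun (J : Finset (Fin m)) (B : Fin m → Fin n → Bool) =>
      univ.filter (fun j => Van Z (B j)) = J ∧ InSpan B r)
    rw [← this]
    refine le_antisymm ?_ ?_
    · refine cnt_inj (fun B => (univ.filter (fun j => Van Z (B j)), B)) ?_ ?_
      · intro B hB; exact ⟨rfl, hB⟩
      · intro A B _ _ h; exact (Prod.mk.inj h).2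
    · refine cnt_inj (fun x => x.2) ?_ ?_
      · intro x hx; exact hx.2
      · rintro ⟨J, B⟩ ⟨J', B'⟩ ⟨h2, _⟩ ⟨h3, _⟩ h
        simp only at h h2 h3
        subst h
        rw [← h2, ← h3]
  have h2 : ∀ J : Finset (Fin m), (cnt (fun B : Fin m → Fin n → Bool =>
      univ.filter (fun j => Van Z (B j)) = J ∧ InSpan B r) : ℝ) =
      ((2 ^ n - 2 ^ (n - Z.card)) ^ (m - J.card) * (2 ^ J.card - 1) ^ (n - Z.card)) := by
    intro J
    have h3 : cnt (fun B : Fin m → Fin n → Bool =>
        univ.filter (fun j => Van Z (B j)) = J ∧ InSpan B r) =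
        cnt (fun x : ({j // j ∈ J} → Fin n → Bool) × ({j // ¬ j ∈ J} → Fin n → Bool) =>
          ((∀ j, Van Z (x.1 j)) ∧ ∀ c, c ∉ Z → ∃ j, x.1 j c = true) ∧
          ∀ j, ¬ Van Z (x.2 j)) := by
      rw [← cnt_equiv (Equiv.piEquivPiSubtypeProd (fun j => j ∈ J) (fun _ : Fin m => Fin n → Bool))]
      refine cnt_congr (fun B => ?_)
      simp only [Equiv.piEquivPiSubtypeProd_apply]
      rw [inSpan_iff]
      constructor
      · rintro ⟨h4, h5⟩
        have h6 : ∀ j, j ∈ J ↔ Van Z (B j) := by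
          intro j; rw [← h4]; simp
        refine ⟨⟨fun j => (h6 j).1 j.2, fun c hc => ?_⟩, fun j hj => j.2 ((h6 j).2 hj)⟩
        have hc' : r c = true := by
          by_contra h; apply hc; rw [hZ, mem_compl, mem_supp]; exact h
        obtain ⟨j, hj, hjc⟩ := h5 c hc'
        exact ⟨⟨j, (h6 j).2 hj⟩, hjc⟩
      · rintro ⟨⟨h4, h5⟩, h6⟩
        refine ⟨?_, ?_⟩
        · ext j
          simp only [mem_filter, mem_univ, true_and]
          constructor
          · intro h
            by_contra hj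
            exact h6 ⟨j, hj⟩ h
          · intro h; exact h4 ⟨j, h⟩
        · intro c hc
          obtain ⟨j, hj⟩ := h5 c (by rw [hZ, mem_compl, mem_supp]; simpa using hc)
          exact ⟨j, h4 j, hj⟩
    rw [h3, cnt_prod (fun B : {j // j ∈ J} → Fin n → Bool => (∀ j, Van Z (B j)) ∧
      ∀ c, c ∉ Z → ∃ j, B j c = true) (fun B : {j // ¬ j ∈ J} → Fin n → Bool => ∀ j, ¬ Van Z (B j)),
      cnt_nonzero_cols, cnt_pi (fun _ (y : Fin n → Bool) => ¬ Van Z y)]
    push_cast
    have h4 : ((2 ^ J.card - 1 : ℕ) : ℝ) = 2 ^ J.card - 1 := by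
      rw [Nat.cast_sub Nat.one_le_two_pow]; push_cast; ring
    rw [h4]
    have h5 : (cnt (fun y : Fin n → Bool => ¬ Van Z y) : ℝ) = 2 ^ n - 2 ^ (n - Z.card) := by
      rw [cnt_not, cnt_Van]; simp
    rw [h5, prod_const, card_univ, Fintype.card_subtype_compl, Fintype.card_fin, Fintype.card_coe]
    ring
  rw [h1]
  push_cast
  simp_rw [h2]
  exact sum_by_card (fun j => (((2:ℝ) ^ n - 2 ^ (n - Z.card)) ^ (m - j) *
    (2 ^ j - 1) ^ (n - Z.card)))

lemma spanPairs_eq_sum' (m n : ℕ) :
    spanPairs m n = ∑ r : Fin n → Bool, cnt (fun B : Fin m → Fin n → Bool => InSpan B r) := by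
  unfold spanPairs
  exact cnt_prod_sum (fun (r : Fin n → Bool) (B : Fin m → Fin n → Bool) => InSpan B r)

/-- the exact formula for `spanPairs` -/
lemma spanPairs_formula (m n : ℕ) : (spanPairs m n : ℝ) =
    ∑ z ∈ range (n + 1), ∑ j ∈ range (m + 1), (n.choose z : ℝ) * (m.choose j) *
      (2 ^ n - 2 ^ (n - z)) ^ (m - j) * (2 ^ j - 1) ^ (n - z) := by
  classical
  rw [spanPairs_eq_sum']
  push_cast
  simp_rw [cnt_inSpan_fixed]
  set F : ℕ → ℝ := fun z => ∑ j ∈ range (m + 1), (m.choose j : ℝ) *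
        ((2 ^ n - 2 ^ (n - z)) ^ (m - j) * (2 ^ j - 1) ^ (n - z)) with hF
  have h1 : ∑ r : Fin n → Bool, F ((supp r)ᶜ).card = ∑ Z : Finset (Fin n), F Z.card := by
    refine Fintype.sum_equiv (suppEquiv.trans ⟨compl, compl, compl_compl, compl_compl⟩) _ _ ?_
    intro r
    rfl
  refine h1.trans ?_
  rw [sum_by_card]
  refine sum_congr rfl (fun z _ => ?_)
  rw [hF, mul_sum]
  refine sum_congr rfl (fun j _ => ?_)
  ring

/-- lower bound for the number of `B` having `r` in the row space -/
lemma cnt_inSpan_ge {m n : ℕ} (r : Fin n → Bool) :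
    (2:ℝ) ^ (m * n) * (1 - n * (1 - (1/2) ^ (((supp r)ᶜ).card + 1)) ^ m) ≤
      (cnt (fun B : Fin m → Fin n → Bool => InSpan B r) : ℝ) := by
  classical
  set Z := (supp r)ᶜ with hZ
  have h1 : (cnt (fun B : Fin m → Fin n → Bool => ¬ InSpan B r) : ℝ) ≤
      n * ((1 - (1/2) ^ (Z.card + 1)) * 2 ^ n) ^ m := by
    have h2 : cnt (fun B : Fin m → Fin n → Bool => ¬ InSpan B r) ≤
        ∑ c ∈ supp r, cnt (fun B : Fin m → Fin n → Bool => ∀ j, ¬ (Van Z (B j) ∧ B j c = true)) := by
      refine le_trans (cnt_mono ?_) (cnt_exists_le _ _)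
      intro B hB
      rw [inSpan_iff] at hB
      push Not at hB
      obtain ⟨c, hc, h⟩ := hB
      refine ⟨c, (mem_supp _ _).2 hc, fun j hj => ?_⟩
      exact h j hj.1 hj.2
    have h3 : ∀ c ∈ supp r, (cnt (fun B : Fin m → Fin n → Bool => ∀ j, ¬ (Van Z (B j) ∧ B j c = true)) : ℝ)
        = ((1 - (1/2) ^ (Z.card + 1)) * 2 ^ n) ^ m := by
      intro c hc
      have hcZ : c ∉ Z := by rw [hZ, mem_compl, not_not]; exact hc
      rw [cnt_pi (fun _ (y : Fin n → Bool) => ¬ (Van Z y ∧ y c = true))]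
      push_cast
      rw [prod_const, card_univ, Fintype.card_fin, cnt_not]
      have h4 : cnt (fun y : Fin n → Bool => Van Z y ∧ y c = true) = 2 ^ (n - (insert c Z).card) := by
        rw [← cnt_pattern (insert c Z) (fun d => decide (d = c))]
        refine cnt_congr (fun y => ?_)
        constructor
        · rintro ⟨h5, h6⟩ d hd
          rw [mem_insert] at hd
          rcases hd with rfl | hd
          · simpa using h6
          · have : d ≠ c := by rintro rfl; exact hcZ hd
            simp [this, h5 d hd]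
        · intro h
          refine ⟨fun d hd => ?_, ?_⟩
          · have : d ≠ c := by rintro rfl; exact hcZ hd
            have h5 := h d (mem_insert_of_mem hd)
            simpa [this] using h5
          · have h5 := h c (mem_insert_self _ _)
            simpa using h5
      have h7 : (insert c Z).card ≤ n := by
        have := card_le_univ (insert c Z)
        rwa [Fintype.card_fin] at this
      rw [card_insert_of_notMem hcZ] at h7
      rw [h4, card_insert_of_notMem hcZ]
      congr 1
      have h8 : (2:ℝ) ^ n = 2 ^ (n - (Z.card + 1)) * 2 ^ (Z.card + 1) := by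
        rw [← pow_add]; congr 1; omega
      simp only [Fintype.card_fun, Fintype.card_bool, Fintype.card_fin]
      push_cast
      rw [h8]
      have h9 : ((1:ℝ)/2) ^ (Z.card + 1) * 2 ^ (Z.card + 1) = 1 := by
        rw [← mul_pow]; norm_num
      linear_combination ((2:ℝ) ^ (n - (Z.card + 1))) * h9
    have h10 := (Nat.cast_le (α := ℝ)).2 h2
    push_cast at h10
    rw [sum_congr rfl h3, sum_const, nsmul_eq_mul] at h10
    refine h10.trans ?_
    have h11 : ((supp r).card : ℝ) ≤ n := by
      have := card_le_univ (supp r)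
      rw [Fintype.card_fin] at this
      exact_mod_cast this
    have h12 : (0:ℝ) ≤ 1 - (1/2) ^ (Z.card + 1) := by
      have : ((1:ℝ)/2) ^ (Z.card + 1) ≤ 1 := pow_le_one₀ (by norm_num) (by norm_num)
      linarith
    gcongr
  have h2 := cnt_not (fun B : Fin m → Fin n → Bool => InSpan B r)
  rw [h2] at h1
  simp only [Fintype.card_fun, Fintype.card_bool, Fintype.card_fin] at h1
  push_cast at h1
  rw [← pow_mul, mul_pow, ← pow_mul, mul_comm n m] at h1
  linarith

/-- superpolynomial lower bound for `spanPairs` -/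
lemma spanPairs_ge (z : ℕ) : ∀ᶠ m : ℕ in atTop,
    ((m + 1).choose z : ℝ) * (2 ^ (m * (m + 1)) / 2) ≤ spanPairs m (m + 1) := by
  classical
  have hq0 : (0:ℝ) < 1 - (1/2) ^ (z + 1) := by
    have : ((1:ℝ)/2) ^ (z + 1) < 1 := pow_lt_one₀ (by norm_num) (by norm_num) (by omega)
    linarith
  have hq1 : (1:ℝ) - (1/2) ^ (z + 1) < 1 := by
    have : (0:ℝ) < (1/2) ^ (z + 1) := by positivity
    linarith
  have hpe := poly_exp 2 1 (1 - (1/2) ^ (z + 1)) 1 hq0 hq1
  filter_upwards [hpe] with m hm
  rw [one_pow, pow_one] at hm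
  have h1 : ∀ r : Fin (m + 1) → Bool, ((supp r)ᶜ).card = z →
      (2:ℝ) ^ (m * (m + 1)) / 2 ≤ cnt (fun B : Fin m → Fin (m + 1) → Bool => InSpan B r) := by
    intro r hr
    refine le_trans ?_ (cnt_inSpan_ge r)
    rw [hr]
    have : ((m + 1 : ℕ) : ℝ) * (1 - (1/2) ^ (z + 1)) ^ m ≤ 1/2 := by push_cast; linarith
    have h2 : (0:ℝ) < 2 ^ (m * (m + 1)) := by positivity
    nlinarith
  rw [spanPairs_eq_sum']
  push_cast
  have h2 : ((m + 1).choose z : ℝ) = (univ.filter (fun r : Fin (m + 1) → Bool => ((supp r)ᶜ).card = z)).card := by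
    rw [← cnt_eq]
    have : cnt (fun r : Fin (m + 1) → Bool => ((supp r)ᶜ).card = z) =
        cnt (fun N : Finset (Fin (m + 1)) => N.card = z) :=
      cnt_equiv (suppEquiv.trans ⟨compl, compl, compl_compl, compl_compl⟩)
        (fun N : Finset (Fin (m + 1)) => N.card = z)
    rw [this, cnt_eq]
    have h3 : univ.filter (fun N : Finset (Fin (m + 1)) => N.card = z) = powersetCard z univ := by
      ext N; simp [mem_powersetCard]
    rw [h3, card_powersetCard, card_univ, Fintype.card_fin]
  rw [h2]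
  calc _ = ∑ r ∈ univ.filter (fun r : Fin (m + 1) → Bool => ((supp r)ᶜ).card = z),
        (2:ℝ) ^ (m * (m + 1)) / 2 := by rw [sum_const, nsmul_eq_mul]
    _ ≤ ∑ r ∈ univ.filter (fun r : Fin (m + 1) → Bool => ((supp r)ᶜ).card = z),
        (cnt (fun B : Fin m → Fin (m + 1) → Bool => InSpan B r) : ℝ) := by
        refine sum_le_sum (fun r hr => ?_)
        simp only [mem_filter, mem_univ, true_and] at hr
        exact h1 r hr
    _ ≤ _ := sum_le_sum_of_subset_of_nonneg (filter_subset _ _) (fun _ _ _ => by positivity)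

end H239Schein
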