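import Mathlib
import Pool.Agent.H239R2.Formula
set_option autoImplicit false
open Finset Filter

namespace H239Schein

lemma bonferroni {α ι : Type*} [Fintype α] [Fintype ι] [DecidableEq ι] (P : ι → α → Prop) :
    ∑ k, cnt (P k) ≤ cnt (fun a => ∃ k, P k a) +
      ∑ x ∈ (univ : Finset ι).offDiag, cnt (fun a => P x.1 a ∧ P x.2 a) := by
  classical
  simp_rw [cnt_eq, card_filter]
  rw [sum_comm, sum_comm (s := (univ : Finset ι).offDiag), ← sum_add_distrib]
  refine sum_le_sum (fun a _ => ?_)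
  set F := univ.filter (fun k => P k a) with hF
  have h1 : ∑ k, (if P k a then 1 else 0) = F.card := by rw [hF, card_filter]
  have h2 : ∑ x ∈ (univ : Finset ι).offDiag, (if P x.1 a ∧ P x.2 a then 1 else 0) =
      F.offDiag.card := by
    rw [← card_filter]
    congr 1
    ext x
    simp [hF, mem_offDiag]
    tauto
  rw [h1, h2, offDiag_card]
  rcases Nat.eq_zero_or_pos F.card with h0 | h0
  · rw [h0]; simp
  · have h3 : ∃ k, P k a := by
      obtain ⟨k, hk⟩ := card_pos.1 h0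
      exact ⟨k, by simpa [hF] using hk⟩
    rw [if_pos h3]
    rcases Nat.lt_or_ge F.card 2 with h4 | h4
    · omega
    · have : F.card * 2 ≤ F.card * F.card := Nat.mul_le_mul_left _ h4
      omega

lemma lower_bound : ∀ᶠ m : ℕ in atTop,
    2 * ((m:ℝ) + 1) * spanPairs m (m + 1) ≤
      (cnt (fun A : Fin (m + 1) → Fin (m + 1) → Bool => Cov A m) : ℝ) +
        8 * ((m:ℝ) + 1) ^ 2 * 2 ^ (m * (m + 1)) := by
  classical
  have e1 := poly_exp 12 0 (49/72) (3/4) (by norm_num) (by norm_num)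
  have e2 := poly_exp 4 0 (1/2) (3/4) (by norm_num) (by norm_num)
  have e3 : ∀ᶠ m : ℕ in atTop, (3/4 : ℝ) ^ m ≤ 1/4 := by
    have := (tendsto_pow_atTop_nhds_zero_of_lt_one (show (0:ℝ) ≤ 3/4 by norm_num) (by norm_num))
    exact this.eventually (eventually_le_nhds (by norm_num))
  filter_upwards [e1, e2, e3, eventually_ge_atTop 10000] with m h1 h2 h3 hm
  obtain ⟨m', rfl⟩ : ∃ m', m = m' + 1 := ⟨m - 1, by omega⟩
  rw [pow_zero, mul_one] at h1 h2
  set m := m' + 1 with hm'
  set n := m + 1 with hn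
  have hnr : (n:ℝ) = m + 1 := by rw [hn]; push_cast; ring
  set E : ℝ := 2 ^ (m * n) with hE
  have hE0 : 0 < E := by positivity
  -- the events
  set P : (Fin n ⊕ Fin n) → (Fin n → Fin n → Bool) → Prop := fun k A =>
    match k with
    | Sum.inl i => RS (m := m) (n := n) i A
    | Sum.inr c => RS (m := m) (n := n) c (tr A) with hP
  have hb := bonferroni P
  have hsum : ∑ k, cnt (P k) = 2 * n * spanPairs m n := by
    rw [Fintype.sum_sum_type]
    have h4 : ∀ i : Fin n, cnt (P (Sum.inl i)) = spanPairs m n := fun i =>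
      cnt_RS (m := m) (n := n) i
    have h5 : ∀ i : Fin n, cnt (P (Sum.inr i)) = spanPairs m n := fun i => by
      have := cnt_tr (m := n) (n := n) (fun A : Fin n → Fin n → Bool => RS (m := m) (n := n) i A)
      exact this.trans (cnt_RS (m := m) (n := n) i)
    simp only [h4, h5, sum_const, card_univ, Fintype.card_fin, smul_eq_mul]
    ring
  have hex : cnt (fun A => ∃ k, P k A) ≤ cnt (fun A : Fin n → Fin n → Bool => Cov A m) := by
    refine cnt_mono ?_
    rintro A ⟨k, hk⟩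
    rcases k with i | c
    · exact cov_of_RS (m := m) i A hk
    · exact (cov_tr A).1 (cov_of_RS (m := m) c (tr A) hk)
  -- pair bounds
  have hrr : ∀ i i' : Fin n, i ≠ i' → (cnt (fun A : Fin n → Fin n → Bool =>
      RS (m := m) (n := n) i A ∧ RS (m := m) (n := n) i' A) : ℝ) ≤ 2 * E := by
    intro i i' hii
    have h4 := cnt_two_rows m' n (by omega) (by omega) i i' hii
    refine h4.trans ?_
    have h5 : E = 2 ^ (m' * n) * 2 ^ n := by rw [hE, ← pow_add]; congr 1; rw [hm']; ring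
    have h6 : (2:ℝ) ^ ((m' + 1) * n) = E := by rw [hE]
    rw [h6]
    have h7 : 2 * ((6 * (49/36 : ℝ) ^ n + 1) * 2 ^ (m' * n)) ≤ E := by
      rw [h5]
      have h8 : 2 * (6 * (49/36 : ℝ) ^ n + 1) ≤ 2 ^ n := by
        have h9 : (49/36 : ℝ) ^ n = (49/72) ^ n * 2 ^ n := by rw [← mul_pow]; norm_num
        have h10 : (1:ℝ) = (1/2) ^ n * 2 ^ n := by rw [← mul_pow]; norm_num
        have h11 : (49/72 : ℝ) ^ n ≤ (49/72) ^ m :=
          pow_le_pow_of_le_one (by norm_num) (by norm_num) (by omega)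
        have h12 : (1/2 : ℝ) ^ n ≤ (1/2) ^ m :=
          pow_le_pow_of_le_one (by norm_num) (by norm_num) (by omega)
        have h13 : 12 * (49/72 : ℝ) ^ n + 2 * (1/2) ^ n ≤ 1 := by
          have : (0:ℝ) ≤ (1/2) ^ m := by positivity
          linarith
        calc 2 * (6 * (49/36 : ℝ) ^ n + 1) = 12 * (49/36 : ℝ) ^ n + 2 * 1 := by ring
          _ = (12 * (49/72 : ℝ) ^ n + 2 * (1/2) ^ n) * 2 ^ n := by
            rw [h9]; linear_combination 2 * h10
          _ ≤ 1 * 2 ^ n := by gcongr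
          _ = 2 ^ n := one_mul _
      calc 2 * ((6 * (49/36 : ℝ) ^ n + 1) * 2 ^ (m' * n)) =
          (2 * (6 * (49/36 : ℝ) ^ n + 1)) * 2 ^ (m' * n) := by ring
        _ ≤ 2 ^ n * 2 ^ (m' * n) := by gcongr
        _ = _ := by ring
    linarith
  have hcc : ∀ i i' : Fin n, i ≠ i' → (cnt (fun A : Fin n → Fin n → Bool =>
      RS (m := m) (n := n) i (tr A) ∧ RS (m := m) (n := n) i' (tr A)) : ℝ) ≤ 2 * E := by
    intro i i' hii
    have h4 := cnt_tr (m := n) (n := n) (fun A : Fin n → Fin n → Bool =>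
      RS (m := m) (n := n) i A ∧ RS (m := m) (n := n) i' A)
    rw [h4]
    exact hrr i i' hii
  have hrc : ∀ i c : Fin n, (cnt (fun A : Fin n → Fin n → Bool =>
      RS (m := m) (n := n) i A ∧ RS (m := m) (n := n) c (tr A)) : ℝ) ≤ 2 * E := by
    intro i c
    have h4 := cnt_row_col m hm i c
    refine h4.trans ?_
    have h5 : E = 2 ^ (m * m) * 2 ^ m := by rw [hE, ← pow_add]; congr 1
    rw [h5]
    have h8 : 2 * (4 * (49/36 : ℝ) ^ m + 1) ≤ 2 ^ m := by
      have h9 : (49/36 : ℝ) ^ m = (49/72) ^ m * 2 ^ m := by rw [← mul_pow]; norm_num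
      have h10 : (1:ℝ) = (1/2) ^ m * 2 ^ m := by rw [← mul_pow]; norm_num
      have h13 : 8 * (49/72 : ℝ) ^ m + 2 * (1/2) ^ m ≤ 1 := by
        have : (0:ℝ) ≤ (1/2) ^ m := by positivity
        have : (0:ℝ) ≤ (49/72) ^ m := by positivity
        linarith
      calc 2 * (4 * (49/36 : ℝ) ^ m + 1) = 8 * (49/36 : ℝ) ^ m + 2 * 1 := by ring
        _ = (8 * (49/72 : ℝ) ^ m + 2 * (1/2) ^ m) * 2 ^ m := by
          rw [h9]; linear_combination 2 * h10
        _ ≤ 1 * 2 ^ m := by gcongr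
        _ = 2 ^ m := one_mul _
    have h14 : (0:ℝ) < 2 ^ (m * m) := by positivity
    have h15 : (0:ℝ) < 2 ^ m * 2 ^ (m * m) := by positivity
    have h16 := mul_le_mul_of_nonneg_right h8 h14.le
    refine h16.trans ?_
    rw [mul_comm ((2:ℝ) ^ (m * m)) (2 ^ m)]
    generalize (2:ℝ) ^ m * 2 ^ (m * m) = X at h15 ⊢
    linarith
  have hpair : ∀ x ∈ (univ : Finset (Fin n ⊕ Fin n)).offDiag,
      (cnt (fun a => P x.1 a ∧ P x.2 a) : ℝ) ≤ 2 * E := by
    rintro ⟨x, y⟩ hxy
    rw [mem_offDiag] at hxy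
    have hne : x ≠ y := hxy.2.2
    rcases x with i | c <;> rcases y with i' | c'
    · exact hrr i i' (fun h => hne (by rw [h]))
    · exact hrc i c'
    · have h4 : cnt (fun a => P (Sum.inr c) a ∧ P (Sum.inl i') a) =
          cnt (fun A : Fin n → Fin n → Bool =>
            RS (m := m) (n := n) i' A ∧ RS (m := m) (n := n) c (tr A)) :=
        cnt_congr (fun A => and_comm)
      simp only
      rw [h4]
      exact hrc i' c
    · exact hcc c c' (fun h => hne (by rw [h]))
  have hb' := (Nat.cast_le (α := ℝ)).2 hb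
  rw [hsum] at hb'
  push_cast at hb'
  have h4 : ∑ x ∈ (univ : Finset (Fin n ⊕ Fin n)).offDiag, (cnt (fun a => P x.1 a ∧ P x.2 a) : ℝ) ≤
      8 * (n:ℝ) ^ 2 * E := by
    calc _ ≤ ∑ x ∈ (univ : Finset (Fin n ⊕ Fin n)).offDiag, 2 * E := sum_le_sum hpair
      _ = ((univ : Finset (Fin n ⊕ Fin n)).offDiag.card : ℝ) * (2 * E) := by
          rw [sum_const, nsmul_eq_mul]
      _ ≤ ((2 * n * (2 * n) : ℕ) : ℝ) * (2 * E) := by
          gcongr
          rw [offDiag_card, card_univ, Fintype.card_sum, Fintype.card_fin]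
          have : n + n = 2 * n := by ring
          rw [this]
          omega
      _ = 8 * (n:ℝ) ^ 2 * E := by push_cast; ring
  have h5 := (Nat.cast_le (α := ℝ)).2 hex
  rw [← hnr]
  linarith

end H239Schein
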