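import Mathlib
import Pool.Agent.H239R2.Formula
set_option autoImplicit false
open Finset Filter

namespace H239Schein

/-- rows with almost all entries equal to one are rare -/
lemma hub_rate (h : ℝ) (hh : 1 < h) : ∃ α : ℝ, 0 ≤ α ∧ α < 1 ∧ ∀ n : ℕ,
    (cnt (fun r : Fin n → Bool => α * n < ((supp r).card : ℝ)) : ℝ) ≤ h ^ n := by
  classical
  set y : ℝ := min 1 ((h - 1) / 2) with hy
  have hy0 : 0 < y := lt_min one_pos (by linarith)
  have hy1 : y ≤ 1 := min_le_left _ _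
  have hyh : 1 + y < h := by
    have : y ≤ (h - 1) / 2 := min_le_right _ _
    linarith
  have hc : Tendsto (fun β : ℝ => y ^ β) (nhds 0) (nhds 1) := by
    have h1 := (Real.continuous_const_rpow hy0.ne').tendsto 0
    rwa [Real.rpow_zero] at h1
  have hlt : (1 + y) / h < 1 := by rw [div_lt_one (by linarith)]; exact hyh
  have hev := hc.eventually (lt_mem_nhds hlt)
  rw [Metric.eventually_nhds_iff] at hev
  obtain ⟨ε, hε, hev⟩ := hev
  set β := min (ε / 2) (1/2) with hβ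
  have hβ0 : 0 < β := lt_min (by positivity) (by norm_num)
  have hβ1 : β ≤ 1/2 := min_le_right _ _
  have hβε : β < ε := lt_of_le_of_lt (min_le_left _ _) (by linarith)
  have h2 : (1 + y) / h < y ^ β := hev (by rw [Real.dist_eq, sub_zero, abs_of_pos hβ0]; exact hβε)
  refine ⟨1 - β, by linarith, by linarith, fun n => ?_⟩
  have h3 := lower_tail (C := Fin n) β y hy0 hy1
  rw [Fintype.card_fin] at h3
  have h4 : cnt (fun r : Fin n → Bool => (1 - β) * n < ((supp r).card : ℝ)) ≤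
      cnt (fun N : Finset (Fin n) => (N.card : ℝ) ≤ β * n) := by
    refine cnt_inj (fun r => (supp r)ᶜ) (fun r hr => ?_)
      (fun r s _ _ hrs => supp_injective (compl_injective hrs))
    rw [card_compl, Fintype.card_fin]
    have h5 : (supp r).card ≤ n := by
      have := card_le_univ (supp r)
      rwa [Fintype.card_fin] at this
    rw [Nat.cast_sub h5]
    linarith
  calc _ ≤ (cnt (fun N : Finset (Fin n) => (N.card : ℝ) ≤ β * n) : ℝ) := by exact_mod_cast h4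
    _ ≤ ((1 + y) / y ^ β) ^ n := h3
    _ ≤ h ^ n := by
        refine pow_le_pow_left₀ (by positivity) ?_ n
        rw [div_le_iff₀ (by positivity)]
        rw [div_lt_iff₀ (by linarith)] at h2
        linarith

/-- upper bound for the number of matrices with a cover by `n-1` rectangles -/
lemma upper_bound : ∃ D : ℕ, ∀ᶠ m : ℕ in atTop,
    (cnt (fun A : Fin (m + 1) → Fin (m + 1) → Bool => Cov A m) : ℝ) ≤
      2 * ((m:ℝ) + 1) * spanPairs m (m + 1) + ((m:ℝ) + 1) ^ D * 2 ^ (m * (m + 1)) := by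
  classical
  obtain ⟨c, hc0, hc1, hNS⟩ := cnt_nonStar
  -- choose h with 1 < h < 1/c
  set h := (1 + 1 / c) / 2 with hh
  have hc1' : 1 < 1 / c := by rw [lt_div_iff₀ hc0]; linarith
  have hh1 : 1 < h := by rw [hh]; linarith
  have hhc : h * c < 1 := by
    rw [hh]
    have : 1 / c * c = 1 := by field_simp
    nlinarith
  obtain ⟨α, hα0, hα1, hα⟩ := hub_rate h hh1
  set κ := (α + 1) / 4 with hκ
  have hκ0 : 0 ≤ κ := by rw [hκ]; linarith
  have hκ1 : κ < 1/2 := by rw [hκ]; linarith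
  have hακ : α / 2 < κ := by rw [hκ]; linarith
  obtain ⟨x, hx, hx'⟩ := exists_upper_rate α κ hα0 hακ
  set θ := ((1 + x) / 2) ^ α / x ^ κ with hθ
  have hxp : 0 < x := by linarith
  have hθ0 : 0 < θ := by positivity
  obtain ⟨m0, hm0⟩ := exists_pow_le hx' (show (0:ℝ) < 1/8 by norm_num)
  obtain ⟨D, hD⟩ := lemD κ hκ0 hκ1 (2 * 2 ^ (2 * m0)) 200 (by norm_num) (by norm_num)
  refine ⟨D + 2 * m0 + 4, ?_⟩
  have hD' := (tendsto_add_atTop_nat 1).eventually hD
  have hpe := poly_exp (2 * h) 1 (h * c) 1 (by positivity) hhc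
  have hpe2 := poly_exp 4 0 (1/4) 1 (by norm_num) (by norm_num)
  filter_upwards [hNS, hD', hpe, hpe2, eventually_ge_atTop 4] with m hm1 hm2 hm3 hm4 hm5
  have hmr : (4:ℝ) ≤ m := by exact_mod_cast hm5
  set n := m + 1 with hn
  have hnr : (n:ℝ) = m + 1 := by rw [hn]; push_cast; ring
  -- decomposition
  have hdec : cnt (fun A : Fin n → Fin n → Bool => Cov A m) ≤
      cnt (fun A : Fin n → Fin n → Bool => ∃ i ∈ (univ : Finset (Fin n)), RS (m := m) (n := n) i A) +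
      (cnt (fun A : Fin n → Fin n → Bool => ∃ i ∈ (univ : Finset (Fin n)), RS (m := m) (n := n) i (tr A)) +
      (cnt (fun A : Fin n → Fin n → Bool => ∃ i ∈ (univ : Finset (Fin n)),
        α * n < ((supp (A i)).card : ℝ) ∧ NonStar (del (m := m) i A)) +
      (cnt (fun A : Fin n → Fin n → Bool => ∃ i ∈ (univ : Finset (Fin n)),
        α * n < ((supp (tr A i)).card : ℝ) ∧ NonStar (del (m := m) i (tr A))) +
      (cnt (BigRect (R := Fin n) (C := Fin n) true (4 * n)) +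
      (cnt (fun A : Fin n → Fin n → Bool => NoHub α A ∧ 2 * m0 ≤ cnt (BadRow κ A) + 1) +
      (cnt (fun A : Fin n → Fin n → Bool => NoHub α (tr A) ∧ 2 * m0 ≤ cnt (BadRow κ (tr A)) + 1) +
      cnt (fun A : Fin n → Fin n → Bool => Cov A (n - 1) ∧ ¬ BigRect true (4 * n) A ∧
        (2 ^ cnt (BadRow κ A) - 1) + (2 ^ cnt (BadRow κ (tr A)) - 1) ≤ 2 * 2 ^ (2 * m0)))))))) := by
    refine le_trans (cnt_mono ?_) ((cnt_or_le _ _).trans (Nat.add_le_add_left
      ((cnt_or_le _ _).trans (Nat.add_le_add_left ((cnt_or_le _ _).trans (Nat.add_le_add_left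
      ((cnt_or_le _ _).trans (Nat.add_le_add_left ((cnt_or_le _ _).trans (Nat.add_le_add_left
      ((cnt_or_le _ _).trans (Nat.add_le_add_left (cnt_or_le _ _) _)) _)) _)) _)) _)) _))
    intro A hA
    have hA' : Cov (tr A) m := (cov_tr A).2 hA
    by_cases h1 : ∃ i ∈ (univ : Finset (Fin n)), RS (m := m) (n := n) i A
    · exact Or.inl h1
    by_cases h2 : ∃ i ∈ (univ : Finset (Fin n)), RS (m := m) (n := n) i (tr A)
    · exact Or.inr (Or.inl h2)
    right; right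
    by_cases h3 : NoHub α A
    swap
    · left
      simp only [NoHub, not_forall, not_le] at h3
      obtain ⟨i, hi⟩ := h3
      rcases hub_case (m := m) i A hA with h4 | h4
      · exact absurd ⟨i, mem_univ _, h4⟩ h1
      · exact ⟨i, mem_univ _, hi, h4⟩
    right
    by_cases h4 : NoHub α (tr A)
    swap
    · left
      simp only [NoHub, not_forall, not_le] at h4
      obtain ⟨i, hi⟩ := h4
      rcases hub_case (m := m) i (tr A) hA' with h5 | h5
      · exact absurd ⟨i, mem_univ _, h5⟩ h2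
      · exact ⟨i, mem_univ _, hi, h5⟩
    right
    by_cases h5 : BigRect true (4 * n) A
    · exact Or.inl h5
    right
    by_cases h6 : 2 * m0 ≤ cnt (BadRow κ A) + 1
    · exact Or.inl ⟨h3, h6⟩
    right
    by_cases h7 : 2 * m0 ≤ cnt (BadRow κ (tr A)) + 1
    · exact Or.inl ⟨h4, h7⟩
    right
    refine ⟨hA, h5, ?_⟩
    have e1 : 2 ^ cnt (BadRow κ A) ≤ 2 ^ (2 * m0) := Nat.pow_le_pow_right (by norm_num) (by omega)
    have e2 : 2 ^ cnt (BadRow κ (tr A)) ≤ 2 ^ (2 * m0) := Nat.pow_le_pow_right (by norm_num) (by omega)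
    omega
  -- the bounds
  set E : ℝ := 2 ^ (m * n) with hE
  have hE0 : 0 < E := by positivity
  have hnn : (2:ℝ) ^ (n * n) = 2 ^ n * E := by rw [hE, ← pow_add]; congr 1; rw [hn]; ring
  have b1 : (cnt (fun A : Fin n → Fin n → Bool => ∃ i ∈ (univ : Finset (Fin n)),
      RS (m := m) (n := n) i A) : ℝ) ≤ n * spanPairs m n := by
    have h1 := cnt_exists_le (univ : Finset (Fin n)) (fun i (A : Fin n → Fin n → Bool) =>
      RS (m := m) (n := n) i A)
    have h2 : ∀ i ∈ (univ : Finset (Fin n)), cnt (fun A : Fin n → Fin n → Bool =>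
      RS (m := m) (n := n) i A) = spanPairs m n := fun i _ => cnt_RS (m := m) (n := n) i
    rw [sum_congr rfl h2, sum_const, card_univ, Fintype.card_fin, smul_eq_mul] at h1
    exact_mod_cast h1
  have b2 : (cnt (fun A : Fin n → Fin n → Bool => ∃ i ∈ (univ : Finset (Fin n)),
      RS (m := m) (n := n) i (tr A)) : ℝ) ≤ n * spanPairs m n := by
    have h1 := cnt_tr (m := n) (n := n) (fun A : Fin n → Fin n → Bool => ∃ i ∈ (univ : Finset (Fin n)),
      RS (m := m) (n := n) i A)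
    rw [h1]; exact b1
  have b3 : (cnt (fun A : Fin n → Fin n → Bool => ∃ i ∈ (univ : Finset (Fin n)),
        α * n < ((supp (A i)).card : ℝ) ∧ NonStar (del (m := m) i A)) : ℝ) ≤
      n * (h ^ n * (c ^ m * E)) := by
    have h1 := cnt_exists_le (univ : Finset (Fin n)) (fun i (A : Fin n → Fin n → Bool) =>
      α * n < ((supp (A i)).card : ℝ) ∧ NonStar (del (m := m) i A))
    have h2 : ∀ i ∈ (univ : Finset (Fin n)), cnt (fun A : Fin n → Fin n → Bool =>
      α * n < ((supp (A i)).card : ℝ) ∧ NonStar (del (m := m) i A)) =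
      cnt (fun r : Fin n → Bool => α * n < ((supp r).card : ℝ)) *
        cnt (fun B : Fin m → Fin n → Bool => NonStar B) := by
      intro i _
      rw [← cnt_prod]
      exact cnt_split (m := m) i (fun (r : Fin n → Bool) (B : Fin m → Fin n → Bool) =>
        α * n < ((supp r).card : ℝ) ∧ NonStar B)
    rw [sum_congr rfl h2, sum_const, card_univ, Fintype.card_fin, smul_eq_mul] at h1
    have h3 := (Nat.cast_le (α := ℝ)).2 h1
    push_cast at h3
    refine h3.trans ?_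
    have h4 := hα n
    gcongr
  have b4 : (cnt (fun A : Fin n → Fin n → Bool => ∃ i ∈ (univ : Finset (Fin n)),
        α * n < ((supp (tr A i)).card : ℝ) ∧ NonStar (del (m := m) i (tr A))) : ℝ) ≤
      n * (h ^ n * (c ^ m * E)) := by
    have h1 := cnt_tr (m := n) (n := n) (fun A : Fin n → Fin n → Bool => ∃ i ∈ (univ : Finset (Fin n)),
      α * n < ((supp (A i)).card : ℝ) ∧ NonStar (del (m := m) i A))
    rw [h1]; exact b3
  have b5 := cnt_big n n le_rfl true
  have b6 := card_badRows α κ x hx n n m0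
  have b7 : (cnt (fun A : Fin n → Fin n → Bool => NoHub α (tr A) ∧ 2 * m0 ≤ cnt (BadRow κ (tr A)) + 1) : ℝ)
      ≤ 2 * ((n : ℝ) ^ (2 * m0) * (((1 + x) / 2) ^ α / x ^ κ) ^ (n * m0) * 2 ^ (n * n)) := by
    have h1 := cnt_tr (m := n) (n := n) (fun A : Fin n → Fin n → Bool =>
      NoHub α A ∧ 2 * m0 ≤ cnt (BadRow κ A) + 1)
    rw [h1]; exact b6
  have b8 : (cnt (fun A : Fin n → Fin n → Bool => Cov A (n - 1) ∧ ¬ BigRect true (4 * n) A ∧
        (2 ^ cnt (BadRow κ A) - 1) + (2 ^ cnt (BadRow κ (tr A)) - 1) ≤ 2 * 2 ^ (2 * m0)) : ℝ) ≤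
      (n:ℝ) ^ D * E := by
    have h1 : (cnt (fun A : Fin n → Fin n → Bool => Cov A (n - 1) ∧ ¬ BigRect true (4 * n) A ∧
        (2 ^ cnt (BadRow κ A) - 1) + (2 ^ cnt (BadRow κ (tr A)) - 1) ≤ 2 * 2 ^ (2 * m0)) : ℝ) * 2 ^ n ≤
        ((n:ℝ) ^ D * E) * 2 ^ n := by
      calc _ ≤ (n:ℝ) ^ D * 2 ^ (n * n) := hm2
        _ = _ := by rw [hnn]; ring
    exact le_of_mul_le_mul_right h1 (by positivity)
  -- estimates in terms of E
  have q3 : (n:ℝ) * (h ^ n * (c ^ m * E)) ≤ 1/2 * E := by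
    rw [pow_one, one_pow] at hm3
    have h1 : (n:ℝ) * (h ^ n * (c ^ m * E)) = (1/2) * (2 * h * ((m:ℝ) + 1) * (h * c) ^ m) * E := by
      rw [hnr, hn, pow_succ, mul_pow]; ring
    rw [h1]
    have h2 : (1/2:ℝ) * (2 * h * ((m:ℝ) + 1) * (h * c) ^ m) ≤ 1/2 := by linarith
    gcongr
  have q5 : ((1/4:ℝ) ^ n * 2 ^ (n * n)) ≤ 1 * E := by
    rw [hnn]
    calc (1/4:ℝ) ^ n * (2 ^ n * E) = ((1/4) * 2) ^ n * E := by rw [mul_pow]; ring
      _ ≤ 1 * E := by
        gcongr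
        exact pow_le_one₀ (by norm_num) (by norm_num)
  have q6 : 2 * ((n : ℝ) ^ (2 * m0) * (((1 + x) / 2) ^ α / x ^ κ) ^ (n * m0) * 2 ^ (n * n)) ≤
      (n:ℝ) ^ (2 * m0) * E := by
    rw [← hθ]
    have h1 : θ ^ (n * m0) ≤ (1/8) ^ n := by
      calc θ ^ (n * m0) = (θ ^ m0) ^ n := by rw [← pow_mul, mul_comm]
        _ ≤ (1/8) ^ n := pow_le_pow_left₀ (by positivity) hm0 n
    rw [pow_zero, mul_one, one_pow] at hm4
    calc 2 * ((n : ℝ) ^ (2 * m0) * θ ^ (n * m0) * 2 ^ (n * n)) ≤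
          2 * ((n : ℝ) ^ (2 * m0) * (1/8) ^ n * (2 ^ n * E)) := by rw [hnn]; gcongr
      _ = (2 * ((1/8) * 2) ^ n) * ((n:ℝ) ^ (2 * m0) * E) := by rw [mul_pow]; ring
      _ ≤ 1 * ((n:ℝ) ^ (2 * m0) * E) := by
          gcongr
          have h2 : ((1/8:ℝ) * 2) ^ n ≤ (1/4) ^ m := by
            have : (1/8:ℝ) * 2 = 1/4 := by norm_num
            rw [this]
            exact pow_le_pow_of_le_one (by norm_num) (by norm_num) (by omega)
          linarith
      _ = _ := one_mul _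
  -- conclusion
  have hdec' := (Nat.cast_le (α := ℝ)).2 hdec
  push_cast at hdec'
  have hn1 : (1:ℝ) ≤ n := by rw [hnr]; linarith
  have r1 : (n:ℝ) ^ D ≤ (n:ℝ) ^ (D + 2 * m0 + 3) := pow_le_pow_right₀ hn1 (by omega)
  have r2 : (n:ℝ) ^ (2 * m0) ≤ (n:ℝ) ^ (D + 2 * m0 + 3) := pow_le_pow_right₀ hn1 (by omega)
  have r3 : (1:ℝ) ≤ (n:ℝ) ^ (D + 2 * m0 + 3) := one_le_pow₀ hn1
  have r4 : 5 * (n:ℝ) ^ (D + 2 * m0 + 3) ≤ (n:ℝ) ^ (D + 2 * m0 + 4) := by
    rw [pow_succ' (n:ℝ) (D + 2 * m0 + 3)]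
    have h5n : (5:ℝ) ≤ n := by rw [hnr]; linarith
    exact mul_le_mul_of_nonneg_right h5n (by positivity)
  rw [← hnr]
  have hfin : (cnt (fun A : Fin n → Fin n → Bool => Cov A m) : ℝ) ≤
      n * spanPairs m n + (n * spanPairs m n + (1/2 * E + (1/2 * E + (1 * E +
      ((n:ℝ) ^ (2 * m0) * E + ((n:ℝ) ^ (2 * m0) * E + (n:ℝ) ^ D * E)))))) := by
    refine hdec'.trans ?_
    exact add_le_add b1 (add_le_add b2 (add_le_add (b3.trans q3) (add_le_add (b4.trans q3)
      (add_le_add (b5.trans q5) (add_le_add (b6.trans q6) (add_le_add (b7.trans q6) b8))))))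
  refine hfin.trans ?_
  have s1 : (n:ℝ) ^ D * E ≤ (n:ℝ) ^ (D + 2 * m0 + 3) * E := mul_le_mul_of_nonneg_right r1 hE0.le
  have s2 : (n:ℝ) ^ (2 * m0) * E ≤ (n:ℝ) ^ (D + 2 * m0 + 3) * E := mul_le_mul_of_nonneg_right r2 hE0.le
  have s3 : 1 * E ≤ (n:ℝ) ^ (D + 2 * m0 + 3) * E := mul_le_mul_of_nonneg_right r3 hE0.le
  have s4 : 5 * (n:ℝ) ^ (D + 2 * m0 + 3) * E ≤ (n:ℝ) ^ (D + 2 * m0 + 4) * E :=
    mul_le_mul_of_nonneg_right r4 hE0.le
  linarith

end H239Schein
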