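import Mathlib
import Pool.Agent.H239R2.Upper
import Pool.Agent.H239R2.Lower
set_option autoImplicit false
open Finset Filter Topology

namespace H239Schein

/-- number of `(m+1) × (m+1)` matrices covered by `m` rectangles -/
noncomputable def covCnt (m : ℕ) : ℕ := cnt (fun A : Fin (m + 1) → Fin (m + 1) → Bool => Cov A m)

lemma choose_big (D z : ℕ) (hz : D + 2 ≤ z) :
    Tendsto (fun m : ℕ => ((m:ℝ) + 1) ^ D / ((m + 1).choose z : ℝ)) atTop (𝓝 0) := by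
  have h1 : ∀ᶠ m : ℕ in atTop, ((m:ℝ) + 1) ^ D / ((m + 1).choose z : ℝ) ≤
      (2 ^ z * (z.factorial : ℝ)) * (1 / ((m:ℝ) + 1)) := by
    filter_upwards [eventually_ge_atTop (2 * z)] with m hm
    have h2 := Nat.pow_le_choose (α := ℝ) z (m + 1)
    have h3 : ((m:ℝ) + 1) / 2 ≤ ((m + 1 + 1 - z : ℕ) : ℝ) := by
      rw [Nat.cast_sub (by omega)]
      push_cast
      have : (2 * z : ℝ) ≤ m := by exact_mod_cast hm
      linarith
    have h4 : (((m:ℝ) + 1) / 2) ^ z / z.factorial ≤ ((m + 1).choose z : ℝ) := by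
      refine le_trans ?_ h2
      gcongr
    have h5 : (0:ℝ) < (((m:ℝ) + 1) / 2) ^ z / z.factorial := by positivity
    have h6 : (0:ℝ) < ((m + 1).choose z : ℝ) := lt_of_lt_of_le h5 h4
    rw [div_le_iff₀ h6]
    have h7 : ((m:ℝ) + 1) ^ D ≤ (2 ^ z * (z.factorial : ℝ)) * (1 / ((m:ℝ) + 1)) *
        ((((m:ℝ) + 1) / 2) ^ z / z.factorial) := by
      have h8 : (2 ^ z * (z.factorial : ℝ)) * (1 / ((m:ℝ) + 1)) *
        ((((m:ℝ) + 1) / 2) ^ z / z.factorial) = ((m:ℝ) + 1) ^ (z - 1) := by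
        obtain ⟨y, hy⟩ : ∃ y, z = y + 1 := ⟨z - 1, by omega⟩
        have hy' : z - 1 = y := by omega
        rw [hy']
        have h9 : (z.factorial : ℝ) ≠ 0 := by positivity
        have h10 : ((m:ℝ) + 1) ≠ 0 := by positivity
        rw [div_pow]
        have h11 : (2:ℝ) ^ z ≠ 0 := by positivity
        rw [hy]
        have h12 : ((m:ℝ) + 1) ^ (y + 1) = ((m:ℝ) + 1) ^ y * ((m:ℝ) + 1) := pow_succ _ _
        rw [← hy]
        calc _ = ((2:ℝ) ^ z * (1 / 2 ^ z)) * (((z.factorial : ℝ)) * (1 / z.factorial)) *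
              ((1 / ((m:ℝ) + 1)) * ((m:ℝ) + 1) ^ z) := by ring
          _ = _ := by
            rw [mul_one_div_cancel h11, mul_one_div_cancel h9, hy, h12]
            field_simp
      rw [h8]
      apply pow_le_pow_right₀ (by linarith [(Nat.cast_nonneg m : (0:ℝ) ≤ m)]) (by omega)
    refine h7.trans ?_
    gcongr
  have h2 : Tendsto (fun m : ℕ => (2 ^ z * (z.factorial : ℝ)) * (1 / ((m:ℝ) + 1))) atTop (𝓝 0) := by
    have := (tendsto_one_div_add_atTop_nhds_zero_nat (𝕜 := ℝ)).const_mul (2 ^ z * (z.factorial : ℝ))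
    rwa [mul_zero] at this
  refine tendsto_of_tendsto_of_tendsto_of_le_of_le' tendsto_const_nhds h2 ?_ h1
  exact Eventually.of_forall (fun m => by positivity)

lemma spanPairs_pos (m : ℕ) : 0 < spanPairs m (m + 1) := by
  classical
  unfold spanPairs
  rw [cnt_eq, card_pos]
  refine ⟨(fun _ => false, fun _ _ => false), ?_⟩
  simp only [mem_filter, mem_univ, true_and]
  exact ⟨∅, by simp⟩

theorem ratio_tendsto : Tendsto (fun m : ℕ => (covCnt m : ℝ) /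
    (2 * ((m:ℝ) + 1) * spanPairs m (m + 1))) atTop (𝓝 1) := by
  obtain ⟨D, hU⟩ := upper_bound
  set D' := D + 3 with hD'
  have hL := lower_bound
  have hS := spanPairs_ge (D' + 2)
  have h8 : ∀ᶠ m : ℕ in atTop, D' + 10 ≤ m := eventually_ge_atTop (D' + 10)
  have ht := choose_big D' (D' + 2) le_rfl
  rw [tendsto_iff_norm_sub_tendsto_zero]
  refine squeeze_zero' (Eventually.of_forall fun m => norm_nonneg _) ?_ ht
  filter_upwards [hU, hL, hS, h8] with m hU hL hS h8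
  have hS0 : (0:ℝ) < spanPairs m (m + 1) := by exact_mod_cast spanPairs_pos m
  have hm0 : (8:ℝ) ≤ m := by
    have : 8 ≤ m := by omega
    exact_mod_cast this
  set S : ℝ := ((spanPairs m (m + 1) : ℕ) : ℝ) with hSdef
  set c : ℝ := ((covCnt m : ℕ) : ℝ) with hc
  have hU' : c ≤ 2 * ((m:ℝ) + 1) * S + ((m:ℝ) + 1) ^ D * 2 ^ (m * (m + 1)) := hU
  have hL' : 2 * ((m:ℝ) + 1) * S ≤ c + 8 * ((m:ℝ) + 1) ^ 2 * 2 ^ (m * (m + 1)) := hL
  have hG : (0:ℝ) < 2 ^ (m * (m + 1)) := by positivity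
  set G : ℝ := 2 ^ (m * (m + 1)) with hGdef
  have hB : (0:ℝ) < ((m + 1).choose (D' + 2) : ℝ) := by
    have : 0 < (m + 1).choose (D' + 2) := Nat.choose_pos (by omega)
    exact_mod_cast this
  set B : ℝ := (((m + 1).choose (D' + 2) : ℕ) : ℝ) with hBdef
  have h9 : ((m:ℝ) + 1) ^ D ≤ ((m:ℝ) + 1) ^ D' := pow_le_pow_right₀ (by linarith) (by omega)
  have h10 : 8 * ((m:ℝ) + 1) ^ 2 ≤ ((m:ℝ) + 1) ^ D' := by
    calc 8 * ((m:ℝ) + 1) ^ 2 ≤ ((m:ℝ) + 1) * ((m:ℝ) + 1) ^ 2 := by gcongr; linarith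
      _ = ((m:ℝ) + 1) ^ 3 := by ring
      _ ≤ ((m:ℝ) + 1) ^ D' := pow_le_pow_right₀ (by linarith) (by omega)
  have h11 : |c - 2 * ((m:ℝ) + 1) * S| ≤ ((m:ℝ) + 1) ^ D' * G := by
    rw [abs_le]
    constructor
    · have : 8 * ((m:ℝ) + 1) ^ 2 * G ≤ ((m:ℝ) + 1) ^ D' * G := by gcongr
      linarith
    · have : ((m:ℝ) + 1) ^ D * G ≤ ((m:ℝ) + 1) ^ D' * G := by gcongr
      linarith
  have h12 : 0 < 2 * ((m:ℝ) + 1) * S := by positivity
  have h13 : c / (2 * ((m:ℝ) + 1) * S) - 1 = (c - 2 * ((m:ℝ) + 1) * S) / (2 * ((m:ℝ) + 1) * S) := by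
    field_simp
  rw [h13, Real.norm_eq_abs, abs_div, abs_of_pos h12, div_le_div_iff₀ h12 hB]
  have h14 : G * B ≤ 2 * ((m:ℝ) + 1) * S := by
    have : B * (G / 2) ≤ S := hS
    nlinarith
  calc |c - 2 * ((m:ℝ) + 1) * S| * B ≤ (((m:ℝ) + 1) ^ D' * G) * B := by gcongr
    _ = ((m:ℝ) + 1) ^ D' * (G * B) := by ring
    _ ≤ _ := by gcongr

end H239Schein
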