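import Mathlib
import Pool.Agent.H239R2.Asym
set_option autoImplicit false
open Finset Filter Topology

namespace H239Schein

/-- summand -/
noncomputable def tm (n z j : ℕ) : ℝ :=
  (n.choose z : ℝ) * ((n - 1).choose j) * (1 / 2) ^ (j * z) * (1 - (1 / 2) ^ j) ^ (n - z) *
    (1 - (1 / 2) ^ z) ^ (n - 1 - j)

/-- double sum -/
noncomputable def Ef (n : ℕ) : ℝ := ∑ z ∈ range (n + 1), ∑ j ∈ range n, tm n z j

lemma spanPairs_Ef (m : ℕ) : (spanPairs m (m + 1) : ℝ) = 2 ^ (m * (m + 1)) * Ef (m + 1) := by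
  rw [spanPairs_formula, Ef, mul_sum]
  refine sum_congr rfl (fun z hz => ?_)
  rw [mul_sum]
  refine sum_congr rfl (fun j hj => ?_)
  rw [mem_range] at hz hj
  rw [tm]
  rw [show m + 1 - 1 = m from rfl]
  have h1 : (2:ℝ) ^ (m + 1) - 2 ^ (m + 1 - z) = 2 ^ (m + 1) * (1 - (1/2) ^ z) := by
    have h2 : (2:ℝ) ^ (m + 1) = 2 ^ (m + 1 - z) * 2 ^ z := by rw [← pow_add]; congr 1; omega
    have h3 : (2:ℝ) ^ z * (1/2) ^ z = 1 := by rw [← mul_pow]; norm_num
    rw [h2]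
    linear_combination ((2:ℝ) ^ (m + 1 - z)) * h3
  have h2 : (2:ℝ) ^ j - 1 = 2 ^ j * (1 - (1/2) ^ j) := by
    have h3 : (2:ℝ) ^ j * (1/2) ^ j = 1 := by rw [← mul_pow]; norm_num
    linear_combination h3
  rw [h1, h2, mul_pow, mul_pow, ← pow_mul, ← pow_mul]
  have h4 : (2:ℝ) ^ (m * (m + 1)) * (1/2) ^ (j * z) =
      2 ^ ((m + 1) * (m - j)) * 2 ^ (j * (m + 1 - z)) := by
    have h5 : m * (m + 1) = ((m + 1) * (m - j) + j * (m + 1 - z)) + j * z := by
      obtain ⟨a, rfl⟩ : ∃ a, m = j + a := ⟨m - j, by omega⟩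
      obtain ⟨b, hb⟩ : ∃ b, j + a + 1 = z + b := ⟨j + a + 1 - z, by omega⟩
      have e1 : j + a - j = a := by omega
      have e2 : j + a + 1 - z = b := by omega
      rw [e1, e2, hb]
      ring
    rw [h5, pow_add, pow_add]
    have h6 : (2:ℝ) ^ (j * z) * (1/2) ^ (j * z) = 1 := by rw [← mul_pow]; norm_num
    linear_combination (2 ^ ((m + 1) * (m - j)) * 2 ^ (j * (m + 1 - z)) : ℝ) * h6
  linear_combination (-((m + 1).choose z : ℝ) * (m.choose j) * (1 - (1/2) ^ z) ^ (m - j) *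
    (1 - (1/2) ^ j) ^ (m + 1 - z)) * h4

lemma Ef_pos (m : ℕ) : 0 < Ef (m + 1) := by
  have h1 := spanPairs_Ef m
  have h2 : (0:ℝ) < spanPairs m (m + 1) := by exact_mod_cast spanPairs_pos m
  rw [h1] at h2
  exact (pos_iff_pos_of_mul_pos h2).1 (by positivity)

lemma half_pow_bounds (k : ℕ) : (0:ℝ) ≤ (1/2) ^ k ∧ ((1:ℝ)/2) ^ k ≤ 1 ∧ (0:ℝ) ≤ 1 - (1/2) ^ k ∧
    (1:ℝ) - (1/2) ^ k ≤ 1 := by
  have h1 : (0:ℝ) ≤ (1/2) ^ k := by positivity
  have h2 : ((1:ℝ)/2) ^ k ≤ 1 := pow_le_one₀ (by norm_num) (by norm_num)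
  exact ⟨h1, h2, by linarith, by linarith⟩

lemma binom_one (n : ℕ) (x : ℝ) : ∑ z ∈ range (n + 1), (n.choose z : ℝ) * x ^ z * (1 - x) ^ (n - z) = 1 := by
  have h := add_pow x (1 - x) n
  rw [show x + (1 - x) = 1 by ring, one_pow] at h
  refine Eq.trans ?_ h.symm
  refine sum_congr rfl (fun z _ => ?_)
  ring

/-- upper bound for the double sum -/
lemma Ef_le (n : ℕ) (hn : 1 ≤ n) :
    Ef n ≤ 5 * (n:ℝ) ^ 2 * (2:ℝ) ^ ((Real.logb 2 n) ^ 2) := by
  set L := Real.logb 2 n with hL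
  have hn0 : (0:ℝ) < n := by exact_mod_cast hn
  have hn1 : (1:ℝ) ≤ n := by exact_mod_cast hn
  have hL0 : 0 ≤ L := Real.logb_nonneg (by norm_num) hn1
  have h2L : (2:ℝ) ^ L = n := Real.rpow_logb (by norm_num) (by norm_num) hn0
  set Q : ℝ := (2:ℝ) ^ (L ^ 2) with hQ
  have hQ0 : 0 < Q := by positivity
  have hpow : ∀ k : ℕ, (n:ℝ) ^ k = (2:ℝ) ^ (L * k) := by
    intro k
    rw [Real.rpow_mul (by norm_num), h2L, Real.rpow_natCast]
  have hpow' : ∀ k : ℕ, (k:ℝ) ≤ L → (n:ℝ) ^ k ≤ Q := by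
    intro k hk
    rw [hpow, hQ]
    apply Real.rpow_le_rpow_of_exponent_le (by norm_num)
    nlinarith
  have hch : ∀ k : ℕ, (n.choose k : ℝ) ≤ (n:ℝ) ^ k := fun k => by
    exact_mod_cast Nat.choose_le_pow n k
  have hch' : ∀ k : ℕ, ((n - 1).choose k : ℝ) ≤ (n:ℝ) ^ k := fun k => by
    have h1 : (n - 1).choose k ≤ n ^ k :=
      (Nat.choose_le_pow _ _).trans (Nat.pow_le_pow_left (by omega) k)
    exact_mod_cast h1
  have hterm : ∀ z j : ℕ, tm n z j ≤
      Q * ((n.choose z : ℝ) * ((1/2) ^ j) ^ z * (1 - (1/2) ^ j) ^ (n - z)) +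
      Q * (((n - 1).choose j : ℝ) * ((1/2) ^ z) ^ j * (1 - (1/2) ^ z) ^ (n - 1 - j)) + Q := by
    intro z j
    obtain ⟨a1, a2, a3, a4⟩ := half_pow_bounds j
    obtain ⟨b1, b2, b3, b4⟩ := half_pow_bounds z
    obtain ⟨c1, c2, c3, c4⟩ := half_pow_bounds (j * z)
    have hx : (1 - (1/2 : ℝ) ^ j) ^ (n - z) ≤ 1 := pow_le_one₀ a3 a4
    have hy : (1 - (1/2 : ℝ) ^ z) ^ (n - 1 - j) ≤ 1 := pow_le_one₀ b3 b4
    have hx0 : 0 ≤ (1 - (1/2 : ℝ) ^ j) ^ (n - z) := pow_nonneg a3 _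
    have hy0 : 0 ≤ (1 - (1/2 : ℝ) ^ z) ^ (n - 1 - j) := pow_nonneg b3 _
    set X := (1 - (1/2 : ℝ) ^ j) ^ (n - z) with hX
    set Y := (1 - (1/2 : ℝ) ^ z) ^ (n - 1 - j) with hY
    have t1 : 0 ≤ Q * ((n.choose z : ℝ) * ((1/2) ^ j) ^ z * X) := by positivity
    have t2 : 0 ≤ Q * (((n - 1).choose j : ℝ) * ((1/2) ^ z) ^ j * Y) := by positivity
    rw [tm]
    by_cases hj : (j:ℝ) ≤ L
    · have h1 : ((n - 1).choose j : ℝ) ≤ Q := (hch' j).trans (hpow' j hj)
      have h2 : (n.choose z : ℝ) * ((n - 1).choose j) * (1 / 2) ^ (j * z) * X * Y ≤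
          Q * ((n.choose z : ℝ) * ((1/2) ^ j) ^ z * X) := by
        calc (n.choose z : ℝ) * ((n - 1).choose j) * (1 / 2) ^ (j * z) * X * Y
            ≤ (n.choose z : ℝ) * Q * (1 / 2) ^ (j * z) * X * 1 := by gcongr
          _ = _ := by rw [pow_mul]; ring
      linarith
    · by_cases hz : (z:ℝ) ≤ L
      · have h1 : (n.choose z : ℝ) ≤ Q := (hch z).trans (hpow' z hz)
        have h2 : (n.choose z : ℝ) * ((n - 1).choose j) * (1 / 2) ^ (j * z) * X * Y ≤
            Q * (((n - 1).choose j : ℝ) * ((1/2) ^ z) ^ j * Y) := by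
          calc (n.choose z : ℝ) * ((n - 1).choose j) * (1 / 2) ^ (j * z) * X * Y
              ≤ Q * ((n - 1).choose j) * (1 / 2) ^ (j * z) * 1 * Y := by gcongr
            _ = _ := by rw [mul_comm j z, pow_mul]; ring
        linarith
      · push Not at hj hz
        have h2 : (n.choose z : ℝ) * ((n - 1).choose j) * (1 / 2) ^ (j * z) * X * Y ≤ Q := by
          calc (n.choose z : ℝ) * ((n - 1).choose j) * (1 / 2) ^ (j * z) * X * Y
              ≤ (n:ℝ) ^ z * (n:ℝ) ^ j * (1 / 2) ^ (j * z) * 1 * 1 := by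
                gcongr
                · exact hch z
                · exact hch' j
            _ = (2:ℝ) ^ (L * z) * (2:ℝ) ^ (L * j) * (2:ℝ) ^ (-((j:ℝ) * z)) := by
                rw [hpow, hpow, mul_one, mul_one]
                congr 1
                rw [Real.rpow_neg (by norm_num), one_div, inv_pow]
                congr 1
                rw [← Nat.cast_mul, Real.rpow_natCast]
            _ = (2:ℝ) ^ (L * z + L * j + -((j:ℝ) * z)) := by
                rw [← Real.rpow_add (by norm_num), ← Real.rpow_add (by norm_num)]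
            _ ≤ Q := by
                rw [hQ]
                apply Real.rpow_le_rpow_of_exponent_le (by norm_num)
                nlinarith
        linarith
  have hsum : Ef n ≤ ∑ z ∈ range (n + 1), ∑ j ∈ range n,
      (Q * ((n.choose z : ℝ) * ((1/2) ^ j) ^ z * (1 - (1/2) ^ j) ^ (n - z)) +
      Q * (((n - 1).choose j : ℝ) * ((1/2) ^ z) ^ j * (1 - (1/2) ^ z) ^ (n - 1 - j)) + Q) := by
    unfold Ef
    exact sum_le_sum (fun z _ => sum_le_sum (fun j _ => hterm z j))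
  refine hsum.trans ?_
  simp_rw [sum_add_distrib]
  have s1 : ∑ z ∈ range (n + 1), ∑ j ∈ range n,
      Q * ((n.choose z : ℝ) * ((1/2) ^ j) ^ z * (1 - (1/2) ^ j) ^ (n - z)) = n * Q := by
    rw [sum_comm]
    calc _ = ∑ j ∈ range n, Q := by
          refine sum_congr rfl (fun j _ => ?_)
          rw [← mul_sum, binom_one, mul_one]
      _ = _ := by rw [sum_const, card_range, nsmul_eq_mul]
  have s2 : ∑ z ∈ range (n + 1), ∑ j ∈ range n,
      Q * (((n - 1).choose j : ℝ) * ((1/2) ^ z) ^ j * (1 - (1/2) ^ z) ^ (n - 1 - j)) =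
      ((n:ℝ) + 1) * Q := by
    calc _ = ∑ z ∈ range (n + 1), Q := by
          refine sum_congr rfl (fun z _ => ?_)
          have h1 := binom_one (n - 1) ((1/2) ^ z)
          rw [Nat.sub_add_cancel hn] at h1
          rw [← mul_sum, h1, mul_one]
      _ = _ := by rw [sum_const, card_range, nsmul_eq_mul]; push_cast; ring
  have s3 : ∑ z ∈ range (n + 1), ∑ j ∈ range n, Q = ((n:ℝ) + 1) * (n * Q) := by
    simp only [sum_const, card_range, nsmul_eq_mul]
    push_cast; ring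
  rw [s1, s2, s3]
  have : n * Q + ((n:ℝ) + 1) * Q + ((n:ℝ) + 1) * (n * Q) = ((n:ℝ)^2 + 3 * n + 1) * Q := by ring
  rw [this]
  gcongr
  nlinarith

end H239Schein
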