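import Mathlib
import Pool.Agent.H239R2.LogAsym
set_option autoImplicit false
open Finset Filter Topology

namespace H239Schein

lemma choose_ge (z : ℕ) : ∀ n : ℕ, z ≤ n → (n:ℝ) ^ z ≤ (z:ℝ) ^ z * n.choose z := by
  induction z with
  | zero => intro n _; simp
  | succ z ih =>
    intro n hn
    obtain ⟨k, rfl⟩ : ∃ k, n = k + 1 := ⟨n - 1, by omega⟩
    have hk : z ≤ k := by omega
    have h1 := ih k hk
    have h2 : ((k:ℝ) + 1) * (k.choose z) = ((k + 1).choose (z + 1)) * ((z:ℝ) + 1) := by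
      exact_mod_cast Nat.add_one_mul_choose_eq k z
    have h3 : ((k:ℝ) + 1) ^ z ≤ ((z:ℝ) + 1) ^ z * k.choose z := by
      rcases Nat.eq_zero_or_pos z with rfl | hz
      · simp
      · have hz0 : (0:ℝ) < z := by exact_mod_cast hz
        have h4 : ((k:ℝ) + 1) * z ≤ k * (z + 1) := by
          have : (z:ℝ) ≤ k := by exact_mod_cast hk
          linarith
        have h5 : (((k:ℝ) + 1) * z) ^ z ≤ (k * (z + 1)) ^ z :=
          pow_le_pow_left₀ (by positivity) h4 z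
        rw [mul_pow, mul_pow] at h5
        have h6 : (0:ℝ) < (z:ℝ) ^ z := by positivity
        have h7 : ((k:ℝ) + 1) ^ z * (z:ℝ) ^ z ≤ (((z:ℝ) + 1) ^ z * k.choose z) * (z:ℝ) ^ z := by
          calc ((k:ℝ) + 1) ^ z * (z:ℝ) ^ z ≤ (k:ℝ) ^ z * (z + 1) ^ z := h5
            _ ≤ ((z:ℝ) ^ z * k.choose z) * (z + 1) ^ z := by gcongr
            _ = _ := by ring
        exact le_of_mul_le_mul_right h7 h6
    push_cast
    calc ((k:ℝ) + 1) ^ (z + 1) = ((k:ℝ) + 1) ^ z * (k + 1) := pow_succ _ _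
      _ ≤ (((z:ℝ) + 1) ^ z * k.choose z) * (k + 1) := by gcongr
      _ = ((z:ℝ) + 1) ^ z * (((k:ℝ) + 1) * k.choose z) := by ring
      _ = ((z:ℝ) + 1) ^ z * (((k + 1).choose (z + 1)) * ((z:ℝ) + 1)) := by rw [h2]
      _ = _ := by ring

lemma spanPairs_ge' (m z : ℕ) (hm : 2 * ((m:ℝ) + 1) * (1 - (1/2) ^ (z + 1)) ^ m ≤ 1) :
    ((m + 1).choose z : ℝ) * (2 ^ (m * (m + 1)) / 2) ≤ spanPairs m (m + 1) := by
  classical
  have h1 : ∀ r : Fin (m + 1) → Bool, ((supp r)ᶜ).card = z →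
      (2:ℝ) ^ (m * (m + 1)) / 2 ≤ cnt (fun B : Fin m → Fin (m + 1) → Bool => InSpan B r) := by
    intro r hr
    refine le_trans ?_ (cnt_inSpan_ge r)
    rw [hr]
    have : ((m + 1 : ℕ) : ℝ) * (1 - (1/2) ^ (z + 1)) ^ m ≤ 1/2 := by push_cast; linarith
    have h2 : (0:ℝ) < 2 ^ (m * (m + 1)) := by positivity
    nlinarith
  rw [spanPairs_eq_sum']
  push_cast
  have h2 : ((m + 1).choose z : ℝ) = (univ.filter (fun r : Fin (m + 1) → Bool => ((supp r)ᶜ).card = z)).card := by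
    rw [← cnt_eq]
    have : cnt (fun r : Fin (m + 1) → Bool => ((supp r)ᶜ).card = z) =
        cnt (fun N : Finset (Fin (m + 1)) => N.card = z) :=
      cnt_equiv (suppEquiv.trans ⟨compl, compl, compl_compl, compl_compl⟩)
        (fun N : Finset (Fin (m + 1)) => N.card = z)
    rw [this, cnt_eq]
    have h3 : univ.filter (fun N : Finset (Fin (m + 1)) => N.card = z) = powersetCard z univ := by
      ext N; simp [mem_powersetCard]
    rw [h3, card_powersetCard, card_univ, Fintype.card_fin]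
  rw [h2]
  calc _ = ∑ r ∈ univ.filter (fun r : Fin (m + 1) → Bool => ((supp r)ᶜ).card = z),
        (2:ℝ) ^ (m * (m + 1)) / 2 := by rw [sum_const, nsmul_eq_mul]
    _ ≤ ∑ r ∈ univ.filter (fun r : Fin (m + 1) → Bool => ((supp r)ᶜ).card = z),
        (cnt (fun B : Fin m → Fin (m + 1) → Bool => InSpan B r) : ℝ) := by
        refine sum_le_sum (fun r hr => ?_)
        simp only [mem_filter, mem_univ, true_and] at hr
        exact h1 r hr
    _ ≤ _ := sum_le_sum_of_subset_of_nonneg (filter_subset _ _) (fun _ _ _ => by positivity)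

/-- lower bound for the double sum -/
lemma Ef_ge (n : ℕ) (hn : 2 ^ 16 ≤ n) :
    (Real.logb 2 n) ^ 2 - 2 * Real.logb 2 n * Real.logb 2 (Real.logb 2 n) - 4 * Real.logb 2 n - 1 ≤
      Real.logb 2 (Ef n) := by
  obtain ⟨m, rfl⟩ : ∃ m, n = m + 1 := ⟨n - 1, by omega⟩
  set n := m + 1 with hn'
  set ℓ := Nat.log 2 n with hℓ
  set lam := Nat.log 2 ℓ with hlam
  have hn0 : n ≠ 0 := by omega
  have a1 : 2 ^ ℓ ≤ n := Nat.pow_log_le_self 2 hn0
  have a2 : n < 2 ^ (ℓ + 1) := Nat.lt_pow_succ_log_self (by norm_num) n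
  have hℓ16 : 16 ≤ ℓ := by
    by_contra h
    have : 2 ^ (ℓ + 1) ≤ 2 ^ 16 := Nat.pow_le_pow_right (by norm_num) (by omega)
    omega
  clear hn
  have b1 : 2 ^ lam ≤ ℓ := Nat.pow_log_le_self 2 (by omega)
  have b2 : ℓ < 2 ^ (lam + 1) := Nat.lt_pow_succ_log_self (by norm_num) ℓ
  have b3 : lam + 5 ≤ ℓ := by
    by_contra h
    have h1 : ℓ - 4 ≤ lam := by omega
    have h2 : 2 ^ (ℓ - 4) ≤ ℓ := (Nat.pow_le_pow_right (by norm_num) h1).trans b1
    have h3 : ∀ k : ℕ, k + 16 < 2 ^ (k + 12) := by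
      intro k
      induction k with
      | zero => norm_num
      | succ k ih => rw [show k + 1 + 12 = (k + 12) + 1 by ring, pow_succ]; omega
    have h4 := h3 (ℓ - 16)
    have e1 : ℓ - 16 + 16 = ℓ := by omega
    have e2 : ℓ - 16 + 12 = ℓ - 4 := by omega
    rw [e1, e2] at h4
    omega
  obtain ⟨z, hz⟩ : ∃ z, ℓ = lam + 3 + z := ⟨ℓ - lam - 3, by omega⟩
  have hz2 : 2 ≤ z := by omega
  -- the real logarithm
  set L := Real.logb 2 n with hL
  have hnr : (0:ℝ) < n := by exact_mod_cast (Nat.pos_of_ne_zero hn0)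
  have c1 : (ℓ:ℝ) ≤ L := by
    rw [hL, Real.le_logb_iff_rpow_le (by norm_num) hnr, Real.rpow_natCast]
    exact_mod_cast a1
  have c2 : L < ℓ + 1 := by
    rw [hL, Real.logb_lt_iff_lt_rpow (by norm_num) hnr]
    have : (2:ℝ) ^ ((ℓ:ℝ) + 1) = ((2 ^ (ℓ + 1) : ℕ) : ℝ) := by
      rw [show ((ℓ:ℝ) + 1) = ((ℓ + 1 : ℕ) : ℝ) by push_cast; ring, Real.rpow_natCast]
      push_cast; ring
    rw [this]
    exact_mod_cast a2
  have hℓr : (16:ℝ) ≤ ℓ := by exact_mod_cast hℓ16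
  have hL16 : (16:ℝ) ≤ L := hℓr.trans c1
  have hL0 : (0:ℝ) < L := by linarith
  set M := Real.logb 2 L with hM
  have hM0 : 0 ≤ M := Real.logb_nonneg (by norm_num) (by linarith)
  have d1 : (lam:ℝ) ≤ M := by
    rw [hM, Real.le_logb_iff_rpow_le (by norm_num) hL0, Real.rpow_natCast]
    have : ((2 ^ lam : ℕ) : ℝ) ≤ ℓ := by exact_mod_cast b1
    push_cast at this
    linarith
  have hzr : (ℓ:ℝ) = lam + 3 + z := by exact_mod_cast hz
  have hz0 : (0:ℝ) < z := by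
    have : 0 < z := by omega
    exact_mod_cast this
  have e1 : L - M - 4 ≤ z := by linarith
  have e2 : Real.logb 2 z ≤ M := by
    rw [hM]
    apply Real.logb_le_logb_of_le (by norm_num) hz0
    linarith [(Nat.cast_nonneg lam : (0:ℝ) ≤ lam)]
  -- the condition
  have hmr : (m:ℝ) + 1 = n := by rw [hn']; push_cast; ring
  have hcond : 2 * ((m:ℝ) + 1) * (1 - (1/2) ^ (z + 1)) ^ m ≤ 1 := by
    have f1 : ((ℓ:ℝ) + 2) ≤ (1/2) ^ (z + 1) * m := by
      have f2 : (4 * 2 ^ lam) * (1/2 : ℝ) ^ ℓ = (1/2) ^ (z + 1) := by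
        rw [hz, show lam + 3 + z = lam + (2 + (z + 1)) by ring, pow_add, pow_add]
        have : (2:ℝ) ^ lam * (1/2) ^ lam = 1 := by rw [← mul_pow]; norm_num
        linear_combination ((1/2 : ℝ) ^ (z + 1)) * this
      have f3 : (ℓ:ℝ) + 1 ≤ 2 * 2 ^ lam := by
        have : ℓ + 1 ≤ 2 ^ (lam + 1) := b2
        have : ((ℓ + 1 : ℕ) : ℝ) ≤ ((2 ^ (lam + 1) : ℕ) : ℝ) := by exact_mod_cast this
        push_cast at this
        rw [pow_succ] at this
        linarith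
      have f4 : (2:ℝ) ^ ℓ ≤ n := by exact_mod_cast a1
      have f5 : (3/4 : ℝ) ≤ (1/2) ^ ℓ * m := by
        have g1 : (2:ℝ) ^ ℓ * (1/2) ^ ℓ = 1 := by rw [← mul_pow]; norm_num
        have g2 : (16:ℝ) ≤ 2 ^ ℓ := by
          calc (16:ℝ) = 2 ^ 4 := by norm_num
            _ ≤ 2 ^ ℓ := pow_le_pow_right₀ (by norm_num) (by omega)
        have g3 : (0:ℝ) < (1/2) ^ ℓ := by positivity
        have g4 : (1/2 : ℝ) ^ ℓ ≤ 1/16 := by nlinarith
        have g5 : (m:ℝ) = n - 1 := by linarith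
        rw [g5]
        nlinarith
      rw [← f2]
      calc (ℓ:ℝ) + 2 ≤ (4 * 2 ^ lam) * (3/4) := by linarith
        _ ≤ (4 * 2 ^ lam) * ((1/2 : ℝ) ^ ℓ * m) := by gcongr
        _ = _ := by ring
    have f6 : (1 - (1/2 : ℝ) ^ (z + 1)) ^ m ≤ Real.exp (-((ℓ:ℝ) + 2)) := by
      calc (1 - (1/2 : ℝ) ^ (z + 1)) ^ m ≤ (Real.exp (-(1/2) ^ (z + 1))) ^ m := by
            apply pow_le_pow_left₀ (half_pow_bounds _).2.2.1
            exact Real.one_sub_le_exp_neg _
        _ = Real.exp (-((1/2) ^ (z + 1) * m)) := by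
            rw [← Real.exp_nat_mul]; congr 1; ring
        _ ≤ _ := Real.exp_le_exp.2 (by linarith)
    have f7 : 2 * ((m:ℝ) + 1) ≤ 2 ^ (ℓ + 2) := by
      rw [hmr]
      have : ((n:ℕ):ℝ) ≤ ((2 ^ (ℓ + 1) : ℕ) : ℝ) := by exact_mod_cast a2.le
      push_cast at this
      rw [pow_succ]
      linarith
    have f8 : (2:ℝ) ^ (ℓ + 2) ≤ Real.exp ((ℓ:ℝ) + 2) := by
      have : Real.exp ((ℓ:ℝ) + 2) = (Real.exp 1) ^ (ℓ + 2) := by
        rw [← Real.exp_nat_mul]; push_cast; ring_nf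
      rw [this]
      apply pow_le_pow_left₀ (by norm_num)
      have := Real.add_one_le_exp (1:ℝ)
      linarith
    calc 2 * ((m:ℝ) + 1) * (1 - (1/2) ^ (z + 1)) ^ m ≤
        Real.exp ((ℓ:ℝ) + 2) * Real.exp (-((ℓ:ℝ) + 2)) := by
          gcongr
          · exact pow_nonneg (half_pow_bounds _).2.2.1 _
          · exact f7.trans f8
      _ = 1 := by rw [← Real.exp_add]; simp
  have hS := spanPairs_ge' m z hcond
  rw [spanPairs_Ef] at hS
  have hG : (0:ℝ) < 2 ^ (m * (m + 1)) := by positivity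
  have hE : (n.choose z : ℝ) / 2 ≤ Ef n := by
    have : ((m + 1).choose z : ℝ) * (2 ^ (m * (m + 1)) / 2) =
        2 ^ (m * (m + 1)) * (((m + 1).choose z : ℝ) / 2) := by ring
    rw [this] at hS
    exact le_of_mul_le_mul_left hS hG
  have hzn : z ≤ n := by
    have : ℓ < 2 ^ ℓ := Nat.lt_two_pow_self
    omega
  have hch := choose_ge z n hzn
  have hzz : (0:ℝ) < (z:ℝ) ^ z := by positivity
  have hE2 : ((n:ℝ) ^ z / (z:ℝ) ^ z) / 2 ≤ Ef n := by
    refine le_trans ?_ hE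
    gcongr
    rw [div_le_iff₀ hzz]
    linarith
  have hlog : Real.logb 2 (((n:ℝ) ^ z / (z:ℝ) ^ z) / 2) = z * (L - Real.logb 2 z) - 1 := by
    rw [Real.logb_div (by positivity) (by norm_num), Real.logb_div (by positivity) (by positivity),
      Real.logb_pow, Real.logb_pow, Real.logb_self_eq_one (by norm_num)]
    ring
  have hmono : Real.logb 2 (((n:ℝ) ^ z / (z:ℝ) ^ z) / 2) ≤ Real.logb 2 (Ef n) :=
    Real.logb_le_logb_of_le (by norm_num) (by positivity) hE2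
  rw [hlog] at hmono
  refine le_trans ?_ hmono
  have g1 : (L - M) ≤ L - Real.logb 2 z := by linarith
  have g2 : 0 ≤ L - M := by
    have : M ≤ L := by
      rw [hM, Real.logb_le_iff_le_rpow (by norm_num) hL0]
      have h1 := Real.add_one_le_exp (L * Real.log 2)
      have h2 : (2:ℝ) ^ L = n := Real.rpow_logb (by norm_num) (by norm_num) hnr
      rw [h2]
      have h3 : ((ℓ:ℕ):ℝ) + 1 ≤ ((2 ^ ℓ : ℕ) : ℝ) := by
        have : ℓ < 2 ^ ℓ := Nat.lt_two_pow_self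
        exact_mod_cast this
      have h4 : ((2 ^ ℓ : ℕ) : ℝ) ≤ n := by exact_mod_cast a1
      linarith
    linarith
  have g3 : (L - M - 4) * (L - M) ≤ z * (L - Real.logb 2 z) := by
    calc (L - M - 4) * (L - M) ≤ z * (L - M) := by gcongr
      _ ≤ _ := by gcongr
  nlinarith

end H239Schein
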